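import Mathlib

set_option autoImplicit false

open Polynomial

namespace Helper772Sph

/-- The kernel of an evaluation map at an element algebraic over the fraction field is
principal. -/
theorem exists_gen {R E : Type} [CommRing R] [IsDomain R] [IsGCDMonoid R] [Field E]
    (f : R →+* E) (hf : Function.Injective f) (W : E) (P : R[X]) (hP : P ≠ 0)
    (h : P.eval₂ f W = 0) :
    ∃ Φ : R[X], Φ ≠ 0 ∧ Φ.eval₂ f W = 0 ∧ ∀ Q : R[X], Q.eval₂ f W = 0 → Φ ∣ Q := by
  let : NormalizedGCDMonoid R := Nonempty.some inferInstance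
  let 𝕂 := FractionRing R
  let g : 𝕂 →+* E := IsFractionRing.lift hf
  let _ : Algebra 𝕂 E := g.toAlgebra
  have hg : ∀ r, g (algebraMap R 𝕂 r) = f r := fun r => IsFractionRing.lift_algebraMap hf r
  have hgf : g.comp (algebraMap R 𝕂) = f := RingHom.ext hg
  have hW : IsIntegral 𝕂 W := by
    refine IsAlgebraic.isIntegral ⟨P.map (algebraMap R 𝕂), ?_, ?_⟩
    · exact (Polynomial.map_ne_zero_iff (IsFractionRing.injective R 𝕂)).2 hP
    · rw [aeval_def, eval₂_map]
      show P.eval₂ (g.comp (algebraMap R 𝕂)) W = 0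
      rw [hgf, h]
  set m := minpoly 𝕂 W with hm
  have hm0 : m ≠ 0 := minpoly.ne_zero hW
  set Φ₀ := IsLocalization.integerNormalization (nonZeroDivisors R) m with hΦ₀
  obtain ⟨b, hb, hbm⟩ := IsLocalization.integerNormalization_spec (nonZeroDivisors R) m
  rw [← hΦ₀] at hbm
  have hΦ₀0 : Φ₀ ≠ 0 := fun h0 => hm0 (IsFractionRing.integerNormalization_eq_zero_iff.1 h0)
  have hb0 : b ≠ 0 := nonZeroDivisors.ne_zero hb
  have hb0' : algebraMap R 𝕂 b ≠ 0 := by
    intro h0
    exact hb0 (IsFractionRing.injective R 𝕂 (h0.trans (map_zero _).symm))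
  have hc0 : Φ₀.content ≠ 0 := fun h0 => hΦ₀0 (content_eq_zero_iff.1 h0)
  have hc0' : algebraMap R 𝕂 Φ₀.content ≠ 0 := by
    intro h0
    exact hc0 (IsFractionRing.injective R 𝕂 (h0.trans (map_zero _).symm))
  have hmap : C (algebraMap R 𝕂 Φ₀.content) * Φ₀.primPart.map (algebraMap R 𝕂) =
      C (algebraMap R 𝕂 b) * m := by
    have h1 : Φ₀.map (algebraMap R 𝕂) = C (algebraMap R 𝕂 b) * m := by
      rw [hbm, ← algebraMap_smul 𝕂, smul_eq_C_mul]
    rw [← h1]
    conv_rhs => rw [Φ₀.eq_C_content_mul_primPart]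
    rw [Polynomial.map_mul, map_C]
  have hev : ∀ Q : R[X], Q.eval₂ f W = aeval W (Q.map (algebraMap R 𝕂)) := by
    intro Q
    rw [aeval_def, eval₂_map]
    show _ = Q.eval₂ (g.comp (algebraMap R 𝕂)) W
    rw [hgf]
  refine ⟨Φ₀.primPart, (isPrimitive_primPart Φ₀).ne_zero, ?_, fun Q hQ => ?_⟩
  · rw [hev]
    have h1 := congrArg (aeval W) hmap
    rw [map_mul, map_mul, minpoly.aeval, mul_zero, aeval_C] at h1
    refine (mul_eq_zero.1 h1).resolve_left ?_
    intro h0
    apply hc0'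
    have : Function.Injective (algebraMap 𝕂 E) := (algebraMap 𝕂 E).injective
    exact this (h0.trans (map_zero _).symm)
  · apply (isPrimitive_primPart Φ₀).dvd_of_fraction_map_dvd_fraction_map (K := 𝕂)
    have h1 : m ∣ Q.map (algebraMap R 𝕂) := by
      apply minpoly.dvd
      rw [← hev, hQ]
    have h2 : Φ₀.primPart.map (algebraMap R 𝕂) ∣ C (algebraMap R 𝕂 b) * m :=
      ⟨C (algebraMap R 𝕂 Φ₀.content), by rw [← hmap]; ring⟩
    have h3 : Φ₀.primPart.map (algebraMap R 𝕂) ∣ m := by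
      obtain ⟨r, hr⟩ := h2
      refine ⟨r * C (algebraMap R 𝕂 b)⁻¹, ?_⟩
      rw [← mul_assoc, ← hr, mul_comm (C (algebraMap R 𝕂 b)) m, mul_assoc, ← C_mul,
        mul_inv_cancel₀ hb0', C_1, mul_one]
    exact h3.trans h1

end Helper772Sph
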