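import Mathlib

set_option autoImplicit false

open Polynomial

namespace Helper772Sph

/-- `f` has degree at most `r` with coefficient `c` at `r`. -/
def U {A : Type*} [CommRing A] (r : ℕ) (f : A[X]) (c : A) : Prop :=
  f.natDegree ≤ r ∧ f.coeff r = c

namespace U

variable {A : Type*} [CommRing A] {r s : ℕ} {f g : A[X]} {a b : A}

theorem add (h : U r f a) (h' : U r g b) : U r (f + g) (a + b) :=
  ⟨natDegree_add_le_of_le h.1 h'.1 |>.trans (by simp), by rw [coeff_add, h.2, h'.2]⟩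

theorem neg (h : U r f a) : U r (-f) (-a) :=
  ⟨by rw [natDegree_neg]; exact h.1, by rw [coeff_neg, h.2]⟩

theorem sub (h : U r f a) (h' : U r g b) : U r (f - g) (a - b) := by
  rw [sub_eq_add_neg, sub_eq_add_neg]
  exact h.add h'.neg

theorem mul (h : U r f a) (h' : U s g b) : U (r + s) (f * g) (a * b) :=
  ⟨natDegree_mul_le_of_le h.1 h'.1, by
    rw [coeff_mul_add_eq_of_natDegree_le h.1 h'.1, h.2, h'.2]⟩

theorem up (h : U r f a) (hs : r < s) : U s f 0 :=
  ⟨h.1.trans hs.le, coeff_eq_zero_of_natDegree_lt (lt_of_le_of_lt h.1 hs)⟩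

theorem const (a : A) : U 0 (C a) a := ⟨by simp, by simp⟩

theorem X1 : U 1 (X : A[X]) 1 := ⟨natDegree_X_le, by simp⟩

theorem zero : U r (0 : A[X]) 0 := ⟨by simp, by simp⟩

theorem congr (h : U r f a) (hr : r = s) (hf : f = g) (ha : a = b) : U s g b := by
  subst hr hf ha
  exact h

theorem sum {ι : Type*} (t : Finset ι) {f : ι → A[X]} {a : ι → A} (h : ∀ i ∈ t, U r (f i) (a i)) :
    U r (∑ i ∈ t, f i) (∑ i ∈ t, a i) := by
  classical
  induction t using Finset.induction_on with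
  | empty => simpa using zero
  | insert i t hi ih =>
    rw [Finset.sum_insert hi, Finset.sum_insert hi]
    exact (h i (Finset.mem_insert_self i t)).add
      (ih fun j hj => h j (Finset.mem_insert_of_mem hj))

theorem prod1 {ι : Type*} (t : Finset ι) {f : ι → A[X]} {a : ι → A} (h : ∀ i ∈ t, U 1 (f i) (a i)) :
    U t.card (∏ i ∈ t, f i) (∏ i ∈ t, a i) := by
  classical
  induction t using Finset.induction_on with
  | empty => simpa using const (1 : A)
  | insert i t hi ih =>
    rw [Finset.prod_insert hi, Finset.prod_insert hi, Finset.card_insert_of_notMem hi]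
    exact ((h i (Finset.mem_insert_self i t)).mul
      (ih fun j hj => h j (Finset.mem_insert_of_mem hj))).congr (by ring) rfl rfl

theorem cmul (c : A) (h : U r f a) : U r (C c * f) (c * a) :=
  ((const c).mul h).congr (by ring) rfl rfl

end U

/-! ### the universal expressions -/

section

variable {S : Type*} [CommRing S] [Algebra ℂ S]

/-- the wall polynomial -/
noncomputable def Lf (c : ℂ) (x y : S) : S :=
  algebraMap ℂ S c * (x * y) + (x + y) - algebraMap ℂ S ((starRingEnd ℂ) c)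

variable {ι : Type} [Fintype ι] [DecidableEq ι] (μ : ι → ℝ) (c : ι → ℂ)

noncomputable def Lh (j : ι) (x y : S) : S := ∏ i ∈ Finset.univ.erase j, Lf (c i) x y

noncomputable def Pf (j : ι) (x y : S) : S := Lf (c j) x x * Lh c j x y

noncomputable def Hf (j : ι) (x y : S) : S := Lf (c j) y y * Lh c j x y

/-- the cubic expression -/
noncomputable def cub (α β : ι → S) (M : S) : S :=
  -((∑ j, algebraMap ℂ S (μ j : ℂ) * (((∑ i, algebraMap ℂ S (μ i : ℂ) * α i) + 3 * α j) * β j)) *
      ∑ j, algebraMap ℂ S (μ j : ℂ) * β j) +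
    3 * ∑ j, algebraMap ℂ S (μ j : ℂ) *
      (((∑ i, algebraMap ℂ S (μ i : ℂ) * α i) + 3 * α j) * (β j * β j)) +
    (∑ i, algebraMap ℂ S (μ i : ℂ) * α i) * ((∑ i, algebraMap ℂ S (μ i : ℂ) * α i) *
      ∑ i, algebraMap ℂ S (μ i : ℂ) * α i) +
    6 * ((∑ i, algebraMap ℂ S (μ i : ℂ) * α i) * ∑ j, algebraMap ℂ S (μ j : ℂ) * (α j * α j)) +
    M * ∑ i, algebraMap ℂ S (μ i : ℂ) * α i

/-- the elimination polynomial -/
noncomputable def Rf (x y t : S) : S :=
  cub μ (fun j => Pf c j x y + t * Hf c j x y) (fun j => Pf c j x y - t * Hf c j x y)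
    (algebraMap ℂ S ((12 * (2 * ∑ j, μ j + 3) : ℝ) : ℂ) * (t * ((∏ i, Lf (c i) x y) *
      ∏ i, Lf (c i) x y)))

variable {S' : Type*} [CommRing S'] [Algebra ℂ S'] (f : S →ₐ[ℂ] S')

theorem map_Lf (c : ℂ) (x y : S) : f (Lf c x y) = Lf c (f x) (f y) := by
  unfold Lf
  simp only [map_add, map_sub, map_mul, AlgHom.commutes]

theorem map_Lh (j : ι) (x y : S) : f (Lh c j x y) = Lh c j (f x) (f y) := by
  unfold Lh
  simp only [map_prod, map_Lf]

theorem map_Pf (j : ι) (x y : S) : f (Pf c j x y) = Pf c j (f x) (f y) := by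
  unfold Pf
  simp only [map_mul, map_Lf, map_Lh]

theorem map_Hf (j : ι) (x y : S) : f (Hf c j x y) = Hf c j (f x) (f y) := by
  unfold Hf
  simp only [map_mul, map_Lf, map_Lh]

omit [DecidableEq ι] in
theorem map_cub (α β : ι → S) (M : S) :
    f (cub μ α β M) = cub μ (fun j => f (α j)) (fun j => f (β j)) (f M) := by
  unfold cub
  simp only [map_add, map_neg, map_sum, map_mul, map_ofNat, AlgHom.commutes]

theorem map_Rf (x y t : S) : f (Rf μ c x y t) = Rf μ c (f x) (f y) (f t) := by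
  unfold Rf
  simp only [map_cub, map_add, map_sub, map_mul, map_Pf, map_Hf, AlgHom.commutes, map_prod, map_Lf]

/-- the value at `t = 0` -/
theorem Rf_zero (x y : S) : Rf μ c x y 0 =
    6 * ((∑ j, algebraMap ℂ S (μ j : ℂ) * Pf c j x y) *
      ∑ j, algebraMap ℂ S (μ j : ℂ) * (Pf c j x y * Pf c j x y)) +
    9 * ∑ j, algebraMap ℂ S (μ j : ℂ) * (Pf c j x y * (Pf c j x y * Pf c j x y)) := by
  unfold Rf cub
  simp only [zero_mul, mul_zero, add_zero, sub_zero]
  set s := ∑ i, algebraMap ℂ S (μ i : ℂ) * Pf c i x y with hs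
  set s2 := ∑ j, algebraMap ℂ S (μ j : ℂ) * (Pf c j x y * Pf c j x y) with hs2
  set s3 := ∑ j, algebraMap ℂ S (μ j : ℂ) * (Pf c j x y * (Pf c j x y * Pf c j x y)) with hs3
  have e1 : ∑ j, algebraMap ℂ S (μ j : ℂ) * ((s + 3 * Pf c j x y) * Pf c j x y) =
      s * s + 3 * s2 := by
    rw [hs2]
    conv_rhs => rw [hs]
    rw [Finset.mul_sum, Finset.mul_sum, ← Finset.sum_add_distrib]
    refine Finset.sum_congr rfl fun j _ => ?_
    rw [← hs]
    ring
  have e2 : ∑ j, algebraMap ℂ S (μ j : ℂ) * ((s + 3 * Pf c j x y) * (Pf c j x y * Pf c j x y)) =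
      s * s2 + 3 * s3 := by
    rw [hs2, hs3, Finset.mul_sum, Finset.mul_sum, ← Finset.sum_add_distrib]
    refine Finset.sum_congr rfl fun j _ => ?_
    ring
  rw [e1, e2]
  ring

end

end Helper772Sph
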