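import Mathlib
import Pool.Agent.Helper772_Sph.Uni

set_option autoImplicit false

open Polynomial

namespace Helper772Sph

variable {ι : Type} [Fintype ι] [DecidableEq ι] {μ : ι → ℝ} {c : ι → ℂ}

theorem Lf_C (c x y : ℂ) : Lf c x y = c * (x * y) + (x + y) - (starRingEnd ℂ) c := rfl

/-- the numerical value on `n` equal entries -/
theorem cubic_pos {N : ℝ} (hN : 0 < N) {Γ : ℂ} (hΓ : Γ ≠ 0) :
    6 * ((N * Γ) * (N * (Γ * Γ))) + 9 * (N * (Γ * (Γ * Γ))) ≠ 0 := by
  have h1 : 6 * ((N * Γ) * (N * (Γ * Γ))) + 9 * (N * (Γ * (Γ * Γ))) =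
      ((6 * N ^ 2 + 9 * N : ℝ) : ℂ) * Γ ^ 3 := by
    push_cast; ring
  rw [h1]
  refine mul_ne_zero ?_ (pow_ne_zero 3 hΓ)
  have : (6 * N ^ 2 + 9 * N : ℝ) ≠ 0 := by positivity
  exact_mod_cast this

/-- the resultant of two walls -/
noncomputable def rho (a b : ℂ) : ℂ[X] :=
  (C a * X + 1) * (X - C ((starRingEnd ℂ) b)) - (C b * X + 1) * (X - C ((starRingEnd ℂ) a))

theorem rho_ne {a b : ℂ} (h : a ≠ b) : rho a b ≠ 0 := by
  intro h0
  have h1 := congrArg (fun p => p.coeff 2) h0
  have h2 : rho a b = C (a - b) * X ^ 2 +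
      C (-(a * (starRingEnd ℂ) b) + b * (starRingEnd ℂ) a) * X +
      C ((starRingEnd ℂ) a - (starRingEnd ℂ) b) := by
    unfold rho
    simp only [map_sub, map_add, map_neg, map_mul]
    ring
  rw [h2] at h1
  simp only [coeff_add, coeff_C_mul, coeff_X_pow, coeff_X, coeff_C, coeff_zero] at h1
  norm_num at h1
  exact h (sub_eq_zero.1 h1)

theorem rho_eval {a b x y : ℂ} (h1 : Lf a x y = 0) (h2 : Lf b x y = 0) : (rho a b).eval x = 0 := by
  rw [Lf_C] at h1 h2
  unfold rho
  simp
  linear_combination (-(b * x + 1)) * h1 + (a * x + 1) * h2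

/-- at most one wall passes through a null point at infinity -/
theorem unique_null {a b x : ℂ} (hab : a ≠ b) (h1 : Lf a x x = 0) (h2 : Lf b x x = 0) : False := by
  rw [Lf_C] at h1 h2
  have h3 : (a - b) * x ^ 2 = (starRingEnd ℂ) (a - b) := by
    rw [map_sub]
    linear_combination h1 - h2
  have h4 : Complex.normSq x = 1 := by
    have h5 := congrArg Complex.normSq h3
    rw [Complex.normSq_mul, Complex.normSq_conj, map_pow] at h5
    have h6 : Complex.normSq (a - b) ≠ 0 := by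
      rw [Ne, Complex.normSq_eq_zero]
      exact sub_ne_zero.2 hab
    have h7 : Complex.normSq x ^ 2 = 1 := by
      apply mul_left_cancel₀ h6
      rw [h5, mul_one]
    have h8 := Complex.normSq_nonneg x
    nlinarith
  have h5 : x * (starRingEnd ℂ) x = 1 := by
    rw [Complex.mul_conj, h4]
    simp
  have h6 : a * x + 2 - (starRingEnd ℂ) (a * x) = 0 := by
    rw [map_mul]
    linear_combination (starRingEnd ℂ) x * h1 - (a * x + 2) * h5
  have h7 := congrArg Complex.re h6
  simp at h7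

/-- value on the diagonal -/
theorem Pf_diag (j : ι) (x : ℂ) : Pf c j x x = ∏ i, Lf (c i) x x := by
  unfold Pf Lh
  exact Finset.mul_prod_erase Finset.univ (fun i => Lf (c i) x x) (Finset.mem_univ j)

theorem Rf_ne_diag (hμ : ∀ j, 0 < μ j) [Nonempty ι] {x : ℂ} (hx : ∀ j, Lf (c j) x x ≠ 0) :
    Rf μ c x x 0 ≠ 0 := by
  rw [Rf_zero]
  simp only [Pf_diag]
  have hΓ : (∏ i, Lf (c i) x x) ≠ 0 := Finset.prod_ne_zero_iff.2 fun i _ => hx i
  set Γ := ∏ i, Lf (c i) x x with hΓd
  have hN : 0 < ∑ j, μ j := Finset.sum_pos (fun j _ => hμ j) Finset.univ_nonempty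
  have h1 := cubic_pos hN hΓ
  simp only [Algebra.algebraMap_self, RingHom.id_apply, ← Finset.sum_mul]
  push_cast at h1
  exact h1

theorem Rf_ne_wall (hμ : ∀ j, 0 < μ j) {x y : ℂ} (i : ι) (hx : Lf (c i) x x ≠ 0)
    (hi : Lf (c i) x y = 0) (hl : ∀ l, l ≠ i → Lf (c l) x y ≠ 0) : Rf μ c x y 0 ≠ 0 := by
  rw [Rf_zero]
  have h0 : ∀ j, j ≠ i → Pf c j x y = 0 := by
    intro j hj
    unfold Pf Lh
    rw [Finset.prod_eq_zero (Finset.mem_erase.2 ⟨hj.symm, Finset.mem_univ i⟩) hi, mul_zero]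
  have h1 : Pf c i x y ≠ 0 := by
    unfold Pf Lh
    refine mul_ne_zero hx (Finset.prod_ne_zero_iff.2 fun l hl' => hl l (Finset.ne_of_mem_erase hl'))
  have e1 : ∑ j, algebraMap ℂ ℂ (μ j : ℂ) * Pf c j x y = (μ i : ℂ) * Pf c i x y := by
    rw [Finset.sum_eq_single i]
    · rfl
    · intro j _ hj; rw [h0 j hj, mul_zero]
    · intro h; exact absurd (Finset.mem_univ i) h
  have e2 : ∑ j, algebraMap ℂ ℂ (μ j : ℂ) * (Pf c j x y * Pf c j x y) =
      (μ i : ℂ) * (Pf c i x y * Pf c i x y) := by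
    rw [Finset.sum_eq_single i]
    · rfl
    · intro j _ hj; rw [h0 j hj, mul_zero, mul_zero]
    · intro h; exact absurd (Finset.mem_univ i) h
  have e3 : ∑ j, algebraMap ℂ ℂ (μ j : ℂ) * (Pf c j x y * (Pf c j x y * Pf c j x y)) =
      (μ i : ℂ) * (Pf c i x y * (Pf c i x y * Pf c i x y)) := by
    rw [Finset.sum_eq_single i]
    · rfl
    · intro j _ hj; rw [h0 j hj, zero_mul, mul_zero]
    · intro h; exact absurd (Finset.mem_univ i) h
  rw [e1, e2, e3]
  exact cubic_pos (hμ i) h1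

/-- on a null line the elimination polynomial does not vanish identically -/
theorem Rf_line_ne (hμ : ∀ j, 0 < μ j) (hc : Function.Injective c) [Nontrivial ι] (x : ℂ) :
    Rf μ c (C x : ℂ[X]) X 0 ≠ 0 := by
  classical
  intro h0
  rw [Rf_zero] at h0
  set J : Finset ι := Finset.univ.filter fun j => Lf (c j) x x ≠ 0 with hJ
  have hmem : ∀ j, j ∈ J ↔ Lf (c j) x x ≠ 0 := fun j => by simp [hJ]
  have hJne : J.Nonempty := by
    obtain ⟨a, b, hab⟩ := exists_pair_ne ι
    by_cases ha : Lf (c a) x x = 0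
    · by_cases hb : Lf (c b) x x = 0
      · exact (unique_null (fun h => hab (hc h)) ha hb).elim
      · exact ⟨b, (hmem b).2 hb⟩
    · exact ⟨a, (hmem a).2 ha⟩
  set L : ι → ℂ[X] := fun i => Lf (c i) (C x) X with hL
  have hLe : ∀ i, (L i).eval x = Lf (c i) x x := by
    intro i
    have := map_Lf (aeval x : ℂ[X] →ₐ[ℂ] ℂ) (c i) (C x) X
    rw [aeval_C, aeval_X] at this
    simp only [hL]
    exact this
  have hLcc : ∀ j, Lf (c j) (C x : ℂ[X]) (C x) = C (Lf (c j) x x) := by
    intro j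
    unfold Lf
    simp [Polynomial.algebraMap_eq]
  have hLne : ∀ i, L i ≠ 0 := by
    intro i hi
    have h1 : L i = C (c i * x + 1) * X + C (x - (starRingEnd ℂ) (c i)) := by
      simp only [hL]
      unfold Lf
      simp only [Polynomial.algebraMap_eq, map_add, map_mul, map_sub, map_one]
      ring
    rw [h1] at hi
    have h2 := congrArg (fun p => p.coeff 1) hi
    have h3 := congrArg (fun p => p.coeff 0) hi
    simp at h2 h3
    have h4 : x = (starRingEnd ℂ) (c i) := sub_eq_zero.1 h3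
    rw [h4, Complex.mul_conj] at h2
    have h5 := congrArg Complex.re h2
    simp at h5
    have := Complex.normSq_nonneg (c i)
    linarith
  set D : ℂ[X] := ∏ i ∈ Jᶜ, L i with hD
  have hDne : D ≠ 0 := Finset.prod_ne_zero_iff.2 fun i _ => hLne i
  set P' : ι → ℂ[X] := fun j => if j ∈ J then C (Lf (c j) x x) * ∏ i ∈ J.erase j, L i else 0
    with hP'
  have hP : ∀ j, Pf c j (C x : ℂ[X]) X = D * P' j := by
    intro j
    unfold Pf Lh
    rw [hLcc]
    by_cases hj : j ∈ J
    · simp only [hP', if_pos hj]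
      have h1 : Finset.univ.erase j = Jᶜ ∪ J.erase j := by
        ext i
        simp only [Finset.mem_erase, Finset.mem_univ, and_true, Finset.mem_union,
          Finset.mem_compl]
        constructor
        · intro h
          by_cases hi : i ∈ J
          · exact Or.inr ⟨h, hi⟩
          · exact Or.inl hi
        · rintro (h | h)
          · intro he
            rw [he] at h
            exact h hj
          · exact h.1
      rw [h1, Finset.prod_union]
      · simp only [hD, hL]; ring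
      · rw [Finset.disjoint_left]
        intro i hi hi'
        exact (Finset.mem_compl.1 hi) (Finset.mem_of_mem_erase hi')
    · simp only [hP', if_neg hj]
      have h1 : Lf (c j) x x = 0 := by
        by_contra h
        exact hj ((hmem j).2 h)
      rw [h1]
      simp
  simp only [hP] at h0
  have h1 : (D * (D * D)) * (6 * ((∑ j, algebraMap ℂ ℂ[X] (μ j : ℂ) * P' j) *
      ∑ j, algebraMap ℂ ℂ[X] (μ j : ℂ) * (P' j * P' j)) +
      9 * ∑ j, algebraMap ℂ ℂ[X] (μ j : ℂ) * (P' j * (P' j * P' j))) = 0 := by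
    rw [← h0]
    have e1 : ∑ j, algebraMap ℂ ℂ[X] (μ j : ℂ) * (D * P' j) =
        D * ∑ j, algebraMap ℂ ℂ[X] (μ j : ℂ) * P' j := by
      rw [Finset.mul_sum]
      exact Finset.sum_congr rfl fun j _ => by ring
    have e2 : ∑ j, algebraMap ℂ ℂ[X] (μ j : ℂ) * (D * P' j * (D * P' j)) =
        (D * D) * ∑ j, algebraMap ℂ ℂ[X] (μ j : ℂ) * (P' j * P' j) := by
      rw [Finset.mul_sum]
      exact Finset.sum_congr rfl fun j _ => by ring
    have e3 : ∑ j, algebraMap ℂ ℂ[X] (μ j : ℂ) * (D * P' j * (D * P' j * (D * P' j))) =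
        (D * (D * D)) * ∑ j, algebraMap ℂ ℂ[X] (μ j : ℂ) * (P' j * (P' j * P' j)) := by
      rw [Finset.mul_sum]
      exact Finset.sum_congr rfl fun j _ => by ring
    rw [e1, e2, e3]
    ring
  have h2 := (mul_eq_zero.1 h1).resolve_left (mul_ne_zero hDne (mul_ne_zero hDne hDne))
  have h3 := congrArg (fun p : ℂ[X] => p.eval x) h2
  set Γ := ∏ i ∈ J, Lf (c i) x x with hΓ
  have hΓne : Γ ≠ 0 := Finset.prod_ne_zero_iff.2 fun i hi => (hmem i).1 hi
  have hPe : ∀ j, (P' j).eval x = if j ∈ J then Γ else 0 := by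
    intro j
    by_cases hj : j ∈ J
    · simp only [hP', if_pos hj, eval_mul, eval_C, eval_prod, hLe]
      exact Finset.mul_prod_erase J (fun i => Lf (c i) x x) hj
    · simp only [hP', if_neg hj, eval_zero]
  set N := ∑ j ∈ J, μ j with hN
  have hNpos : 0 < N := Finset.sum_pos (fun j _ => hμ j) hJne
  have s1 : ∑ j, (μ j : ℂ) * (if j ∈ J then Γ else 0) = (N : ℂ) * Γ := by
    rw [hN]
    push_cast
    rw [Finset.sum_mul, ← Finset.sum_subset (Finset.subset_univ J)]
    · exact Finset.sum_congr rfl fun j hj => by rw [if_pos hj]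
    · intro j _ hj; rw [if_neg hj, mul_zero]
  have s2 : ∑ j, (μ j : ℂ) * ((if j ∈ J then Γ else 0) * (if j ∈ J then Γ else 0)) =
      (N : ℂ) * (Γ * Γ) := by
    rw [hN]
    push_cast
    rw [Finset.sum_mul, ← Finset.sum_subset (Finset.subset_univ J)]
    · exact Finset.sum_congr rfl fun j hj => by rw [if_pos hj]
    · intro j _ hj; rw [if_neg hj, mul_zero, mul_zero]
  have s3 : ∑ j, (μ j : ℂ) * ((if j ∈ J then Γ else 0) * ((if j ∈ J then Γ else 0) *
      (if j ∈ J then Γ else 0))) = (N : ℂ) * (Γ * (Γ * Γ)) := by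
    rw [hN]
    push_cast
    rw [Finset.sum_mul, ← Finset.sum_subset (Finset.subset_univ J)]
    · exact Finset.sum_congr rfl fun j hj => by rw [if_pos hj]
    · intro j _ hj; rw [if_neg hj, zero_mul, mul_zero]
  have e6 : ((6 : ℂ[X])).eval x = 6 := by
    have : (6 : ℂ[X]) = C 6 := (map_ofNat C 6).symm
    rw [this, eval_C]
  have e9 : ((9 : ℂ[X])).eval x = 9 := by
    have : (9 : ℂ[X]) = C 9 := (map_ofNat C 9).symm
    rw [this, eval_C]
  simp only [eval_add, eval_mul, eval_finset_sum, hPe, Polynomial.algebraMap_eq, eval_C,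
    eval_zero, e6, e9, s1, s2, s3] at h3
  exact cubic_pos hNpos hΓne h3

end Helper772Sph
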