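import Mathlib
import Pool.Agent.Helper772_Sph.PolyA

set_option autoImplicit false

open Polynomial

namespace Helper772Sph

theorem root_arg {Q B κ : ℂ[X]} (hB : B ≠ 0) {y : ℂ} (hy : B.eval y = 0)
    (h : Q * derivative B = κ * B) : Q.eval y = 0 := by
  obtain ⟨U, hU, hnd⟩ := B.exists_eq_pow_rootMultiplicity_mul_and_not_dvd hB y
  have he : 0 < B.rootMultiplicity y := (rootMultiplicity_pos hB).2 hy
  obtain ⟨e, he'⟩ : ∃ e, B.rootMultiplicity y = e + 1 := ⟨B.rootMultiplicity y - 1, by omega⟩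
  rw [he'] at hU
  have hU0 : U.eval y ≠ 0 := fun h0 => hnd (dvd_iff_isRoot.2 h0)
  have hd : derivative B = (X - C y) ^ e * (C ((e : ℂ) + 1) * U + (X - C y) * derivative U) := by
    rw [hU, derivative_mul, derivative_pow_succ]
    simp only [derivative_sub, derivative_X, derivative_C, sub_zero, mul_one]
    ring
  have h1 : (X - C y) ^ e * (Q * (C ((e : ℂ) + 1) * U + (X - C y) * derivative U)) =
      (X - C y) ^ e * (κ * ((X - C y) * U)) := by
    calc _ = Q * derivative B := by rw [hd]; ring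
      _ = κ * B := h
      _ = _ := by rw [hU]; ring
  have h2 := mul_left_cancel₀ (pow_ne_zero e (X_sub_C_ne_zero y)) h1
  have h3 := congrArg (fun p : ℂ[X] => p.eval y) h2
  simp only [eval_mul, eval_add, eval_C, eval_sub, eval_X, sub_self, zero_mul, mul_zero,
    add_zero] at h3
  have h4 : ((e : ℂ) + 1) * U.eval y ≠ 0 := by
    refine mul_ne_zero ?_ hU0
    exact_mod_cast Nat.succ_ne_zero e
  exact (mul_eq_zero.1 h3).resolve_right h4

/-- specialization of the first variable -/
noncomputable def sp (x : ℂ) : ℂ[X][X] →ₐ[ℂ] ℂ[X] := mapAlgHom (aeval x)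

theorem sp_C (x : ℂ) (p : ℂ[X]) : sp x (C p) = C (p.eval x) := by
  simp [sp, coe_aeval_eq_eval]

theorem sp_X (x : ℂ) : sp x X = X := by simp [sp]

theorem sp_coeff (x : ℂ) (p : ℂ[X][X]) (k : ℕ) : (sp x p).coeff k = (p.coeff k).eval x := by
  simp [sp, coe_aeval_eq_eval]

theorem sp_derivative (x : ℂ) (p : ℂ[X][X]) : sp x (derivative p) = derivative (sp x p) := by
  simp only [sp, coe_mapAlgHom, derivative_map]

variable {ι : Type} [Fintype ι] [DecidableEq ι] {μ : ι → ℝ} {c : ι → ℂ}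

omit [Fintype ι] [DecidableEq ι] in
theorem gg_ne (j : ι) : Lf (c j) (X : ℂ[X]) X ≠ 0 := by
  intro h0
  have h1 : Lf (c j) (X : ℂ[X]) X = C (c j) * X ^ 2 + C 2 * X + C (-(starRingEnd ℂ) (c j)) := by
    unfold Lf
    simp only [Polynomial.algebraMap_eq, map_neg]
    rw [show (C (2 : ℂ) : ℂ[X]) = 2 from map_ofNat C 2]
    ring
  rw [h1] at h0
  have h2 := congrArg (fun p => p.coeff 1) h0
  simp only [coeff_add, coeff_C_mul, coeff_X_pow, coeff_X, coeff_C, coeff_zero] at h2
  norm_num at h2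

theorem eval_Lf (c : ℂ) (p q : ℂ[X]) (x : ℂ) : (Lf c p q).eval x = Lf c (p.eval x) (q.eval x) := by
  have := map_Lf (aeval x : ℂ[X] →ₐ[ℂ] ℂ) c p q
  simpa only [coe_aeval_eq_eval] using this

theorem eval_Rf (p q t : ℂ[X]) (x : ℂ) :
    (Rf μ c p q t).eval x = Rf μ c (p.eval x) (q.eval x) (t.eval x) := by
  have := map_Rf μ c (aeval x : ℂ[X] →ₐ[ℂ] ℂ) p q t
  simpa only [coe_aeval_eq_eval] using this

theorem B_const (hμ : ∀ j, 0 < μ j) (hc : Function.Injective c) [Nontrivial ι]
    (B : ℂ[X][X]) (hB : B ≠ 0) (hdvd : B ∣ Rf μ c (C X : ℂ[X][X]) X 0) (κ : ℂ[X][X])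
    (hinv : (C X - X : ℂ[X][X]) * (∏ i, Lf (c i) (C X : ℂ[X][X]) X) * derivative B = κ * B) :
    ∃ b : ℂ, b ≠ 0 ∧ B = C (C b) := by
  classical
  -- the bad locus
  set bad : ℂ[X] := (∏ j, Lf (c j) (X : ℂ[X]) X) *
    (∏ p ∈ (Finset.univ : Finset (ι × ι)).filter (fun p => p.1 ≠ p.2), rho (c p.1) (c p.2)) *
    B.leadingCoeff with hbad
  have hbad0 : bad ≠ 0 := by
    refine mul_ne_zero (mul_ne_zero (Finset.prod_ne_zero_iff.2 fun j _ => gg_ne j)
      (Finset.prod_ne_zero_iff.2 fun p hp => ?_)) (leadingCoeff_ne_zero.2 hB)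
    have h1 : p.1 ≠ p.2 := (Finset.mem_filter.1 hp).2
    exact rho_ne fun h => h1 (hc h)
  -- no roots over good points
  have good : ∀ x : ℂ, bad.eval x ≠ 0 → (sp x B).natDegree = 0 := by
    intro x hx
    rw [hbad, eval_mul, eval_mul, eval_prod, eval_prod] at hx
    have hx1 : ∀ j, Lf (c j) x x ≠ 0 := by
      intro j
      have h1 := Finset.prod_ne_zero_iff.1 (left_ne_zero_of_mul (left_ne_zero_of_mul hx)) j
        (Finset.mem_univ j)
      rwa [eval_Lf, eval_X] at h1
    have hx2 : ∀ i j, i ≠ j → (rho (c i) (c j)).eval x ≠ 0 := by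
      intro i j hij
      exact Finset.prod_ne_zero_iff.1 (right_ne_zero_of_mul (left_ne_zero_of_mul hx)) (i, j)
        (Finset.mem_filter.2 ⟨Finset.mem_univ _, hij⟩)
    have hx3 : sp x B ≠ 0 := by
      intro h0
      have h1 := congrArg (fun p => p.coeff B.natDegree) h0
      simp only [sp_coeff, coeff_zero] at h1
      exact (right_ne_zero_of_mul hx) h1
    by_contra hdeg
    obtain ⟨y, hy⟩ := IsAlgClosed.exists_root (sp x B) (by
      intro h
      exact hdeg (natDegree_eq_of_degree_eq_some h))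
    have hinv' := congrArg (sp x) hinv
    rw [map_mul, map_mul, map_sub, sp_C, sp_X, map_prod, sp_derivative, map_mul] at hinv'
    simp only [map_Lf, sp_C, sp_X, eval_X] at hinv'
    have h2 := root_arg hx3 hy hinv'
    rw [eval_mul, eval_sub, eval_C, eval_X, eval_prod] at h2
    have hR : Rf μ c x y 0 = 0 := by
      obtain ⟨Ψ, hΨ⟩ := hdvd
      have h3 := congrArg (sp x) hΨ
      rw [map_Rf, sp_C, sp_X, map_zero, eval_X, map_mul] at h3
      have h4 := congrArg (fun p : ℂ[X] => p.eval y) h3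
      simp only [eval_Rf, eval_C, eval_X, eval_zero, eval_mul] at h4
      rw [h4]
      have : (sp x B).eval y = 0 := hy
      rw [this, zero_mul]
    rcases mul_eq_zero.1 h2 with h | h
    · have hxy : y = x := (sub_eq_zero.1 h).symm
      rw [hxy] at hR
      exact Rf_ne_diag hμ hx1 hR
    · obtain ⟨i, -, hi⟩ := Finset.prod_eq_zero_iff.1 h
      rw [eval_Lf, eval_C, eval_X] at hi
      refine Rf_ne_wall hμ i (hx1 i) hi (fun l hl hl0 => ?_) hR
      exact hx2 i l hl.symm (rho_eval hi hl0)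
  -- independence of the second variable
  have hcoeff : ∀ k, k ≠ 0 → B.coeff k = 0 := by
    intro k hk
    have h1 : B.coeff k * bad = 0 := by
      apply Polynomial.funext
      intro x
      rw [eval_mul, eval_zero]
      by_cases hx : bad.eval x = 0
      · rw [hx, mul_zero]
      · have h2 := good x hx
        have h3 : (sp x B).coeff k = 0 :=
          coeff_eq_zero_of_natDegree_lt (by rw [h2]; exact Nat.pos_of_ne_zero hk)
        rw [sp_coeff] at h3
        rw [h3, zero_mul]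
    exact (mul_eq_zero.1 h1).resolve_right hbad0
  have hBC : B = C (B.coeff 0) := by
    ext1 k
    rw [coeff_C]
    split_ifs with h
    · rw [h]
    · exact hcoeff k h
  set b := B.coeff 0 with hb
  have hb0 : b ≠ 0 := by
    intro h
    rw [h, map_zero] at hBC
    exact hB hBC
  have hbdeg : b.natDegree = 0 := by
    by_contra hdeg
    obtain ⟨x, hx⟩ := IsAlgClosed.exists_root b (by
      intro h
      exact hdeg (natDegree_eq_of_degree_eq_some h))
    obtain ⟨Ψ, hΨ⟩ := hdvd
    have h3 := congrArg (sp x) hΨ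
    rw [map_Rf, sp_C, sp_X, map_zero, eval_X, map_mul, hBC, sp_C] at h3
    have : b.eval x = 0 := hx
    rw [this, map_zero, zero_mul] at h3
    exact Rf_line_ne hμ hc x h3
  rw [natDegree_eq_zero] at hbdeg
  obtain ⟨a, ha⟩ := hbdeg
  refine ⟨a, ?_, ?_⟩
  · rintro rfl
    rw [map_zero] at ha
    exact hb0 ha.symm
  · rw [hBC, ← ha]

end Helper772Sph
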