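import Mathlib
import Pool.Agent.Helper772_Sph.PolyB

set_option autoImplicit false

open Polynomial

namespace Helper772Sph

section ev

variable {S : Type*} [CommRing S] [Algebra ℂ S]

/-- evaluation of bivariate polynomials -/
noncomputable def ev2 (x y : S) : ℂ[X][X] →ₐ[ℂ] S where
  toRingHom := eval₂RingHom ((aeval x : ℂ[X] →ₐ[ℂ] S) : ℂ[X] →+* S) y
  commutes' := by
    intro c
    show eval₂ _ _ (algebraMap ℂ ℂ[X][X] c) = _
    rw [show algebraMap ℂ ℂ[X][X] c = C (C c) from rfl]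
    simp

/-- evaluation of trivariate polynomials -/
noncomputable def ev3 (x y t : S) : ℂ[X][X][X] →ₐ[ℂ] S where
  toRingHom := eval₂RingHom ((ev2 x y : ℂ[X][X] →ₐ[ℂ] S) : ℂ[X][X] →+* S) t
  commutes' := by
    intro c
    show eval₂ _ _ (algebraMap ℂ ℂ[X][X][X] c) = _
    rw [show algebraMap ℂ ℂ[X][X][X] c = C (algebraMap ℂ ℂ[X][X] c) from rfl]
    rw [eval₂_C]
    exact (ev2 x y).commutes c

theorem ev2_C (x y : S) (p : ℂ[X]) : ev2 x y (C p) = aeval x p := by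
  show eval₂ _ _ (C p) = _
  rw [eval₂_C]; rfl

theorem ev2_X (x y : S) : ev2 x y X = y := by
  show eval₂ _ _ X = _
  rw [eval₂_X]

theorem ev3_C (x y t : S) (p : ℂ[X][X]) : ev3 x y t (C p) = ev2 x y p := by
  show eval₂ _ _ (C p) = _
  rw [eval₂_C]; rfl

theorem ev3_X (x y t : S) : ev3 x y t X = t := by
  show eval₂ _ _ X = _
  rw [eval₂_X]

theorem ev3_zero (x y : S) (p : ℂ[X][X][X]) : ev3 x y 0 p = ev2 x y (p.coeff 0) := by
  show eval₂ _ _ p = _
  rw [eval₂_at_zero]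
  rfl

theorem alg_ext3 {f g : ℂ[X][X][X] →ₐ[ℂ] S} (h1 : f (C (C X)) = g (C (C X)))
    (h2 : f (C X) = g (C X)) (h3 : f X = g X) : f = g := by
  apply AlgHom.coe_ringHom_injective
  apply Polynomial.ringHom_ext'
  · apply Polynomial.ringHom_ext'
    · apply Polynomial.ringHom_ext'
      · apply RingHom.ext
        intro c
        have e1 := f.commutes c
        have e2 := g.commutes c
        exact e1.trans e2.symm
      · exact h1
    · exact h2
  · exact h3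

theorem comp_ev3 {S' : Type*} [CommRing S'] [Algebra ℂ S'] (f : S →ₐ[ℂ] S') (x y t : S)
    (p : ℂ[X][X][X]) : f (ev3 x y t p) = ev3 (f x) (f y) (f t) p := by
  have : f.comp (ev3 x y t) = ev3 (f x) (f y) (f t) := by
    apply alg_ext3
    · simp [ev3_C, ev2_C]
    · simp [ev3_C, ev2_X]
    · simp [ev3_X]
  exact congrArg (fun g : ℂ[X][X][X] →ₐ[ℂ] S' => g p) this

theorem ev3_id (p : ℂ[X][X][X]) : ev3 (C (C X) : ℂ[X][X][X]) (C X) X p = p := by
  have : ((ev3 (C (C X) : ℂ[X][X][X]) (C X) X : ℂ[X][X][X] →ₐ[ℂ] ℂ[X][X][X]) :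
      ℂ[X][X][X] →+* ℂ[X][X][X]) = RingHom.id _ := by
    apply Polynomial.ringHom_ext'
    · apply Polynomial.ringHom_ext'
      · apply Polynomial.ringHom_ext'
        · apply RingHom.ext
          intro c
          exact (ev3 (C (C X) : ℂ[X][X][X]) (C X) X).commutes c
        · simp [ev3_C, ev2_C]
      · simp [ev3_C, ev2_X]
    · simp [ev3_X]
  exact congrArg (fun g : ℂ[X][X][X] →+* ℂ[X][X][X] => g p) this

end ev

section top

variable {D : Type*} [CommRing D] [Algebra ℂ D]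

theorem algMap_eq (c : ℂ) : algebraMap ℂ D[X] c = C (algebraMap ℂ D c) := rfl

theorem U_Lf (c : ℂ) (a b : D) :
    U 1 (Lf c (C a * X) (C b)) (algebraMap ℂ D c * (a * b) + (a + 0) - 0) := by
  unfold Lf
  rw [algMap_eq, algMap_eq]
  have h1 : U 1 (C a * X) a := (U.X1.cmul a).congr rfl rfl (mul_one a)
  exact (((h1.mul (U.const b)).cmul (algebraMap ℂ D c)).add
    (h1.add ((U.const b).up zero_lt_one))).sub ((U.const _).up zero_lt_one)

theorem U_Lf2 (c : ℂ) (a : D) :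
    U 2 (Lf c (C a * X) (C a * X)) (algebraMap ℂ D c * (a * a) + (0 + 0) - 0) := by
  unfold Lf
  rw [algMap_eq, algMap_eq]
  have h1 : U 1 (C a * X) a := (U.X1.cmul a).congr rfl rfl (mul_one a)
  exact (((h1.mul h1).cmul (algebraMap ℂ D c)).add
    ((h1.up one_lt_two).add (h1.up one_lt_two))).sub ((U.const _).up zero_lt_two)

theorem U_Lf0 (c : ℂ) (b : D) : U 0 (Lf c (C b) (C b)) (Lf c b b) := by
  unfold Lf
  rw [algMap_eq, algMap_eq]
  exact (((((U.const b).mul (U.const b)).cmul (algebraMap ℂ D c)).congr rfl rfl rfl).add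
    ((U.const b).add (U.const b))).sub (U.const _)

variable {ι : Type} [Fintype ι] {μ : ι → ℝ} {c : ι → ℂ}

theorem U_cub {r : ℕ} {α β : ι → D[X]} {M : D[X]} {a b : ι → D} {m : D}
    (hα : ∀ j, U r (α j) (a j)) (hβ : ∀ j, U r (β j) (b j)) (hM : U (r + r) M m) :
    U (r + (r + r)) (cub μ α β M) (cub μ a b m) := by
  unfold cub
  have e3 : (3 : D[X]) = C 3 := (map_ofNat C 3).symm
  have e6 : (6 : D[X]) = C 6 := (map_ofNat C 6).symm
  rw [e3, e6]
  simp only [algMap_eq]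
  have hS := U.sum Finset.univ (fun j _ => (hα j).cmul (algebraMap ℂ D (μ j : ℂ)))
  have hB := U.sum Finset.univ (fun j _ => (hβ j).cmul (algebraMap ℂ D (μ j : ℂ)))
  have h1 := U.sum Finset.univ (fun j _ => ((hS.add ((hα j).cmul 3)).mul (hβ j)).cmul
    (algebraMap ℂ D (μ j : ℂ)))
  have h2 := U.sum Finset.univ (fun j _ =>
    ((hS.add ((hα j).cmul 3)).mul ((hβ j).mul (hβ j))).cmul (algebraMap ℂ D (μ j : ℂ)))
  have h3 := U.sum Finset.univ (fun j _ => ((hα j).mul (hα j)).cmul (algebraMap ℂ D (μ j : ℂ)))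
  exact (((((h1.mul hB).neg.congr (by ring) rfl rfl).add (h2.cmul 3)).add
    (hS.mul (hS.mul hS))).add ((hS.mul h3).cmul 6)).add ((hM.mul hS).congr (by ring) rfl rfl)

variable [DecidableEq ι]

theorem U_Lh (j : ι) (a b : D) : U (Fintype.card ι - 1) (Lh c j (C a * X) (C b))
    (∏ i ∈ Finset.univ.erase j, (algebraMap ℂ D (c i) * (a * b) + (a + 0) - 0)) := by
  unfold Lh
  refine (U.prod1 _ fun i _ => U_Lf (c i) a b).congr ?_ rfl rfl
  rw [Finset.card_erase_of_mem (Finset.mem_univ j), Finset.card_univ]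

theorem U_Rf (a b τ : D) : ∃ m : D, U ((2 + (Fintype.card ι - 1)) +
      ((2 + (Fintype.card ι - 1)) + (2 + (Fintype.card ι - 1))))
    (Rf μ c (C a * X) (C b) (C τ * (X * X))) m := by
  by_cases hne : Nonempty ι
  · unfold Rf
    have hP := fun j : ι => (U_Lf2 (c j) a).mul (U_Lh (c := c) j a b)
    have hX2 : U (1 + 1) (C τ * (X * X)) (τ * (1 * 1)) := (U.X1.mul U.X1).cmul τ
    have hH := fun j : ι => (hX2.mul ((U_Lf0 (c j) b).mul (U_Lh (c := c) j a b))).congr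
      (s := 2 + (Fintype.card ι - 1)) (by ring) rfl rfl
    have hL : U (Fintype.card ι) (∏ i, Lf (c i) (C a * X) (C b)) _ :=
      (U.prod1 Finset.univ fun i _ => U_Lf (c i) a b).congr (by rw [Finset.card_univ]) rfl rfl
    have hM := (hX2.mul (hL.mul hL)).cmul (algebraMap ℂ D ((12 * (2 * ∑ j, μ j + 3) : ℝ) : ℂ))
    refine ⟨_, U_cub (fun j => (hP j).add (hH j)) (fun j => (hP j).sub (hH j))
      (hM.congr ?_ rfl rfl)⟩
    have : 0 < Fintype.card ι := Fintype.card_pos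
    omega
  · rw [not_nonempty_iff] at hne
    refine ⟨0, ?_⟩
    have : Rf μ c (C a * X) (C b) (C τ * (X * X)) = 0 := by
      unfold Rf cub
      simp
    rw [this]
    exact U.zero

/-- leading coefficient at `t = 0` -/
theorem U_Rf0 (a b : D) : U ((2 + (Fintype.card ι - 1)) +
      ((2 + (Fintype.card ι - 1)) + (2 + (Fintype.card ι - 1))))
    (Rf μ c (C a * X) (C b) 0) (cub μ
      (fun j => (algebraMap ℂ D (c j) * (a * a) + (0 + 0) - 0) *
        ∏ i ∈ Finset.univ.erase j, (algebraMap ℂ D (c i) * (a * b) + (a + 0) - 0))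
      (fun j => (algebraMap ℂ D (c j) * (a * a) + (0 + 0) - 0) *
        ∏ i ∈ Finset.univ.erase j, (algebraMap ℂ D (c i) * (a * b) + (a + 0) - 0)) 0) := by
  have hP := fun j : ι => (U_Lf2 (c j) a).mul (U_Lh (c := c) j a b)
  have h1 := U_cub (μ := μ) (M := (0 : D[X])) (m := 0) hP hP U.zero
  refine h1.congr rfl ?_ rfl
  unfold Rf
  simp only [zero_mul, mul_zero, add_zero, sub_zero]
  rfl

end top

/-- trivariate polynomials -/
abbrev A3 : Type := ℂ[X][X][X]

/-- a sealed copy of the trivariate polynomials -/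
def D3 : Type := ℂ[X][X][X]

noncomputable instance : CommRing D3 := inferInstanceAs (CommRing ℂ[X][X][X])
instance : IsDomain D3 := inferInstanceAs (IsDomain ℂ[X][X][X])
noncomputable instance : Algebra ℂ D3 := inferInstanceAs (Algebra ℂ ℂ[X][X][X])

/-- the identity -/
noncomputable def toD : A3 →ₐ[ℂ] D3 where
  toFun p := p
  map_one' := rfl
  map_mul' _ _ := rfl
  map_zero' := rfl
  map_add' _ _ := rfl
  commutes' _ := rfl

theorem toD_injective : Function.Injective toD := fun _ _ h => h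

section main

variable {ι : Type} [Fintype ι] [DecidableEq ι] {μ : ι → ℝ} {c : ι → ℂ}

omit [DecidableEq ι] in
theorem cub_diag {S : Type*} [CommRing S] [Algebra ℂ S] (p : ι → S) :
    cub μ p p 0 = 6 * ((∑ j, algebraMap ℂ S (μ j : ℂ) * p j) *
      ∑ j, algebraMap ℂ S (μ j : ℂ) * (p j * p j)) +
    9 * ∑ j, algebraMap ℂ S (μ j : ℂ) * (p j * (p j * p j)) := by
  unfold cub
  set s := ∑ i, algebraMap ℂ S (μ i : ℂ) * p i with hs
  set s2 := ∑ j, algebraMap ℂ S (μ j : ℂ) * (p j * p j) with hs2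
  set s3 := ∑ j, algebraMap ℂ S (μ j : ℂ) * (p j * (p j * p j)) with hs3
  have e1 : ∑ j, algebraMap ℂ S (μ j : ℂ) * ((s + 3 * p j) * p j) = s * s + 3 * s2 := by
    rw [hs2]
    conv_rhs => rw [hs]
    rw [Finset.mul_sum, Finset.mul_sum, ← Finset.sum_add_distrib]
    refine Finset.sum_congr rfl fun j _ => ?_
    rw [← hs]
    ring
  have e2 : ∑ j, algebraMap ℂ S (μ j : ℂ) * ((s + 3 * p j) * (p j * p j)) = s * s2 + 3 * s3 := by
    rw [hs2, hs3, Finset.mul_sum, Finset.mul_sum, ← Finset.sum_add_distrib]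
    refine Finset.sum_congr rfl fun j _ => ?_
    ring
  rw [e1, e2]
  ring

theorem exists_y0 (hμ : ∀ j, 0 < μ j) (hc0 : ∀ j, c j ≠ 0) [Nonempty ι] : ∃ y : ℂ,
    cub μ (fun j => c j * ∏ i ∈ Finset.univ.erase j, (c i * y + 1))
      (fun j => c j * ∏ i ∈ Finset.univ.erase j, (c i * y + 1)) 0 ≠ 0 := by
  set p : ι → ℂ[X] := fun j => C (c j) * ∏ i ∈ Finset.univ.erase j, (C (c i) * X + 1) with hp
  have hU : ∀ j, U (Fintype.card ι - 1) (p j) (∏ i, c i) := by
    intro j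
    have h1 : ∀ i : ι, U 1 (C (c i) * X + 1 : ℂ[X]) (c i) := by
      intro i
      have h2 := ((U.X1.cmul (c i)).add ((U.const (1 : ℂ)).up zero_lt_one))
      exact h2.congr rfl (by rw [map_one]) (by ring)
    have h2 := (U.prod1 (Finset.univ.erase j) fun i _ => h1 i).cmul (c j)
    refine h2.congr ?_ rfl ?_
    · rw [Finset.card_erase_of_mem (Finset.mem_univ j), Finset.card_univ]
    · exact Finset.mul_prod_erase Finset.univ c (Finset.mem_univ j)
  have h1 := U_cub (μ := μ) (M := (0 : ℂ[X])) (m := 0) hU hU U.zero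
  have hΓ : (∏ i, c i) ≠ 0 := Finset.prod_ne_zero_iff.2 fun i _ => hc0 i
  have hN : 0 < ∑ j, μ j := Finset.sum_pos (fun j _ => hμ j) Finset.univ_nonempty
  have h2 : cub μ (fun _ : ι => ∏ i, c i) (fun _ => ∏ i, c i) 0 ≠ 0 := by
    rw [cub_diag]
    simp only [Algebra.algebraMap_self, RingHom.id_apply, ← Finset.sum_mul]
    have := cubic_pos hN hΓ
    push_cast at this
    exact this
  have h3 : cub μ p p 0 ≠ 0 := by
    intro h0
    rw [h0] at h1
    exact h2 (h1.2.symm.trans (coeff_zero _))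
  by_contra hcon
  push Not at hcon
  apply h3
  apply Polynomial.funext
  intro y
  have h4 := map_cub μ (aeval y : ℂ[X] →ₐ[ℂ] ℂ) p p 0
  rw [coe_aeval_eq_eval, eval_zero] at h4
  have e1 : (fun j => eval y (p j)) = fun j => c j * ∏ i ∈ Finset.univ.erase j, (c i * y + 1) := by
    funext j
    simp only [hp, eval_mul, eval_C, eval_prod, eval_add, eval_X, eval_one]
  have e2 : cub μ (fun j => eval y (p j)) (fun j => eval y (p j)) 0 = 0 := by
    rw [e1]
    exact hcon y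
  exact h4.trans (e2.trans eval_zero.symm)

theorem factor_const (hμ : ∀ j, 0 < μ j) (hc0 : ∀ j, c j ≠ 0) [Nonempty ι]
    (Φ : A3) (hdvd : Φ ∣ Rf μ c (C (C X) : A3) (C X) X) (b : ℂ) (hb : b ≠ 0)
    (hΦ0 : Φ.coeff 0 = C (C b)) : Φ = C (C (C b)) := by
  obtain ⟨Ψ, hΨ⟩ := hdvd
  obtain ⟨y, hy⟩ := exists_y0 (c := c) hμ hc0
  set r := 2 + (Fintype.card ι - 1) with hr
  -- the weight homomorphism
  let xx : D3 := toD (C (C X))
  let yy : D3 := toD (C X)
  let tt : D3 := toD X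
  let σ : A3 →ₐ[ℂ] D3[X] := ev3 (C xx * X) (C yy) (C tt * (X * X))
  have hσ : σ = ev3 (C xx * X) (C yy) (C tt * (X * X)) := rfl
  have hσR : σ (Rf μ c (C (C X) : A3) (C X) X) =
      Rf μ c (C xx * X : D3[X]) (C yy) (C tt * (X * X)) := by
    have a1 : σ (C (C X)) = C xx * X := by
      rw [hσ, ev3_C, ev2_C, aeval_X]
    have a2 : σ (C X) = C yy := by
      rw [hσ, ev3_C, ev2_X]
    have a3 : σ X = C tt * (X * X) := by
      rw [hσ, ev3_X]
    rw [← a1, ← a2, ← a3]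
    exact map_Rf μ c σ (C (C X) : A3) (C X) X
  have hdegR : (σ (Rf μ c (C (C X) : A3) (C X) X)).natDegree ≤ r + (r + r) := by
    rw [hσR]
    obtain ⟨m, hm⟩ := U_Rf (μ := μ) (c := c) xx yy tt
    exact hm.1
  -- specialization
  let θ₀ : A3 →ₐ[ℂ] ℂ := ev3 1 y 0
  let θ₁ : D3 →ₐ[ℂ] ℂ := θ₀
  let θ : D3[X] →ₐ[ℂ] ℂ[X] := mapAlgHom θ₁
  have hθC : ∀ a : D3, θ (C a) = C (θ₁ a) := fun a => by simp [θ]
  have hθX : θ X = X := by simp [θ]
  have t1 : θ₁ xx = 1 := by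
    show θ₀ (C (C X)) = 1
    simp only [θ₀, ev3_C, ev2_C, aeval_X]
  have t2 : θ₁ yy = y := by
    show θ₀ (C X) = y
    simp only [θ₀, ev3_C, ev2_X]
  have t3 : θ₁ tt = 0 := by
    show θ₀ X = 0
    simp only [θ₀, ev3_X]
  have hθσ : ∀ P : A3, θ (σ P) = ev3 X (C y) 0 P := by
    intro P
    rw [hσ, comp_ev3]
    simp only [map_mul, hθC, hθX, t1, t2, t3, map_one, one_mul, map_zero, zero_mul]
  have h1 : θ (σ (Rf μ c (C (C X) : A3) (C X) X)) = C b * θ (σ Ψ) := by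
    rw [hΨ, map_mul, map_mul, hθσ Φ, ev3_zero, hΦ0, ev2_C, aeval_C]
    rfl
  have h2 : θ (σ (Rf μ c (C (C X) : A3) (C X) X)) = Rf μ c (X : ℂ[X]) (C y) 0 := by
    rw [hθσ]
    have a1 : ev3 X (C y) 0 (C (C X)) = (X : ℂ[X]) := by
      rw [ev3_C, ev2_C, aeval_X]
    have a2 : ev3 X (C y) 0 (C X) = (C y : ℂ[X]) := by
      rw [ev3_C, ev2_X]
    have a3 : ev3 X (C y) 0 X = (0 : ℂ[X]) := by
      rw [ev3_X]
    have a4 := map_Rf μ c (ev3 X (C y) 0 : A3 →ₐ[ℂ] ℂ[X]) (C (C X) : A3) (C X) X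
    rw [a1, a2, a3] at a4
    exact a4
  have h3 : (Rf μ c (X : ℂ[X]) (C y) 0).coeff (r + (r + r)) ≠ 0 := by
    have h4 := U_Rf0 (μ := μ) (c := c) (1 : ℂ) y
    rw [map_one, one_mul] at h4
    rw [h4.2]
    have e1 : (fun j => (algebraMap ℂ ℂ (c j) * (1 * 1) + (0 + 0) - 0) *
        ∏ i ∈ Finset.univ.erase j, (algebraMap ℂ ℂ (c i) * (1 * y) + (1 + 0) - 0)) =
        fun j => c j * ∏ i ∈ Finset.univ.erase j, (c i * y + 1) := by
      funext j
      simp
    rw [e1]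
    exact hy
  have h5 : r + (r + r) ≤ (σ Ψ).natDegree := by
    have h6 : r + (r + r) ≤ (Rf μ c (X : ℂ[X]) (C y) 0).natDegree := le_natDegree_of_ne_zero h3
    rw [← h2, h1, natDegree_C_mul hb] at h6
    refine h6.trans ?_
    have h7 : θ (σ Ψ) = (σ Ψ).map (θ₁ : D3 →+* ℂ) := by simp [θ]
    rw [h7]
    exact natDegree_map_le
  have hRne : σ (Rf μ c (C (C X) : A3) (C X) X) ≠ 0 := by
    intro h0
    rw [← h2, h0, map_zero, coeff_zero] at h3
    exact h3 rfl
  have hmul : σ (Rf μ c (C (C X) : A3) (C X) X) = σ Φ * σ Ψ := by rw [hΨ, map_mul]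
  rw [hmul] at hRne hdegR
  rw [natDegree_mul (left_ne_zero_of_mul hRne) (right_ne_zero_of_mul hRne)] at hdegR
  have hdegΦ : (σ Φ).natDegree = 0 := by omega
  obtain ⟨a, ha⟩ := natDegree_eq_zero.1 hdegΦ
  -- evaluate at `Z = 1` and `Z = 0`
  let ε₁ : D3[X] →ₐ[ℂ] D3 := (aeval (1 : D3) : D3[X] →ₐ[D3] D3).restrictScalars ℂ
  let ε₀ : D3[X] →ₐ[ℂ] D3 := (aeval (0 : D3) : D3[X] →ₐ[D3] D3).restrictScalars ℂ
  have k1 : ε₁ (σ Φ) = toD Φ := by
    rw [hσ, comp_ev3]
    have e1 : ε₁ (C xx * X : D3[X]) = toD (C (C X)) := by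
      simp [ε₁, xx]
    have e2 : ε₁ (C yy : D3[X]) = toD (C X) := by
      simp [ε₁, yy]
    have e3 : ε₁ (C tt * (X * X) : D3[X]) = toD X := by
      simp [ε₁, tt]
    rw [e1, e2, e3]
    have a4 := comp_ev3 toD (C (C X) : A3) (C X) X Φ
    rw [ev3_id] at a4
    exact a4.symm
  have k0 : ε₀ (σ Φ) = toD (C (C (C b))) := by
    rw [hσ, comp_ev3]
    have e1 : ε₀ (C xx * X : D3[X]) = 0 := by
      simp [ε₀]
    have e3 : ε₀ (C tt * (X * X) : D3[X]) = 0 := by
      simp [ε₀]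
    rw [e1, e3, ev3_zero, hΦ0, ev2_C, aeval_C]
    rfl
  rw [← ha] at k1 k0
  have e1 : ε₁ (C a : D3[X]) = a := by simp [ε₁]
  have e0 : ε₀ (C a : D3[X]) = a := by simp [ε₀]
  rw [e1] at k1
  rw [e0] at k0
  exact toD_injective (k1.symm.trans k0)

end main

end Helper772Sph
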