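import Mathlib

set_option autoImplicit false

namespace Helper772Sph

/-- a derivation on a field extension of `ℂ` -/
structure Dv (F : Type) [Field F] [Algebra ℂ F] where
  D : F → F
  add : ∀ a b, D (a + b) = D a + D b
  mul : ∀ a b, D (a * b) = D a * b + a * D b
  const : ∀ c : ℂ, D (algebraMap ℂ F c) = 0

section
variable {F : Type} [Field F] [Algebra ℂ F]

/-- polarized quadratic form -/
def bil (c : ℂ) (a₁ a₂ b₁ b₂ : F) : F :=
  algebraMap ℂ F c * (a₁ * b₁) + (a₁ * b₂ + a₂ * b₁) -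
    algebraMap ℂ F ((starRingEnd ℂ) c) * (a₂ * b₂)

end

/-- The algebraic system. -/
structure Sys (F : Type) [Field F] [Algebra ℂ F] (d : Dv F) (ι : Type) [Fintype ι] where
  μ : ι → ℝ
  c : ι → ℂ
  P1 : F
  P2 : F
  Q1 : F
  Q2 : F
  K : F
  al : ι → F
  be : ι → F
  hμ : ∀ j, 0 < μ j
  cinj : Function.Injective c
  det : P1 * Q2 - P2 * Q1 = 1
  dP1 : 2 * d.D P1 = -(K * P1) - Q1
  dP2 : 2 * d.D P2 = -(K * P2) - Q2
  dQ1 : 2 * d.D Q1 = P1 + K * Q1
  dQ2 : 2 * d.D Q2 = P2 + K * Q2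
  hl : ∀ j, bil (c j) P1 P2 Q1 Q2 ≠ 0
  hal : ∀ j, al j * (2 * bil (c j) P1 P2 Q1 Q2) = bil (c j) P1 P2 P1 P2 + bil (c j) Q1 Q2 Q1 Q2
  hbe : ∀ j, be j * (2 * bil (c j) P1 P2 Q1 Q2) = bil (c j) P1 P2 P1 P2 - bil (c j) Q1 Q2 Q1 Q2
  e1 : ∑ j, algebraMap ℂ F (μ j : ℂ) * al j = 3 * K
  e2 : d.D K * ∑ j, algebraMap ℂ F (μ j : ℂ) * be j +
    ∑ j, algebraMap ℂ F (μ j : ℂ) * ((K + al j) * (be j * be j)) + 3 * (K * (K * K)) +
    2 * (K * ∑ j, algebraMap ℂ F (μ j : ℂ) * (al j * al j)) +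
    algebraMap ℂ F ((2 * ∑ j, μ j + 3 : ℝ) : ℂ) * K = 0

namespace Dv

variable {F : Type} [Field F] [Algebra ℂ F] (d : Dv F)

theorem one : d.D 1 = 0 := by
  have := d.const 1
  rwa [map_one] at this

theorem zero : d.D 0 = 0 := by
  have := d.const 0
  rwa [map_zero] at this

theorem neg (a : F) : d.D (-a) = -d.D a := by
  have h := d.add a (-a)
  rw [add_neg_cancel, d.zero] at h
  exact (neg_eq_of_add_eq_zero_right h.symm).symm

theorem sub (a b : F) : d.D (a - b) = d.D a - d.D b := by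
  rw [sub_eq_add_neg, d.add, d.neg, ← sub_eq_add_neg]

theorem cmul (c : ℂ) (a : F) : d.D (algebraMap ℂ F c * a) = algebraMap ℂ F c * d.D a := by
  rw [d.mul, d.const, zero_mul, zero_add]

theorem sum {κ : Type} (s : Finset κ) (f : κ → F) : d.D (∑ i ∈ s, f i) = ∑ i ∈ s, d.D (f i) := by
  classical
  induction s using Finset.induction_on with
  | empty => simpa using d.zero
  | insert i s hi ih => rw [Finset.sum_insert hi, Finset.sum_insert hi, d.add, ih]

theorem two : d.D 2 = 0 := by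
  have := d.const 2
  rwa [map_ofNat] at this

end Dv

namespace Sys

variable {F : Type} [Field F] [Algebra ℂ F] {d : Dv F} {ι : Type} [Fintype ι] (S : Sys F d ι)

theorem char0 : CharZero F := charZero_of_injective_algebraMap (algebraMap ℂ F).injective

def l (j : ι) : F := bil (S.c j) S.P1 S.P2 S.Q1 S.Q2
def hp (j : ι) : F := bil (S.c j) S.P1 S.P2 S.P1 S.P2
def hm (j : ι) : F := -bil (S.c j) S.Q1 S.Q2 S.Q1 S.Q2

theorem two_ne : (2 : F) ≠ 0 := by
  haveI := char0 (F := F)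
  exact two_ne_zero

theorem Dbil (c : ℂ) (a₁ a₂ b₁ b₂ : F) : d.D (bil c a₁ a₂ b₁ b₂) =
    bil c (d.D a₁) (d.D a₂) b₁ b₂ + bil c a₁ a₂ (d.D b₁) (d.D b₂) := by
  unfold bil
  rw [d.sub, d.add, d.cmul, d.cmul, d.add, d.mul, d.mul, d.mul, d.mul]
  ring

theorem dl (j : ι) : 2 * d.D (S.l j) = S.hp j + S.hm j := by
  unfold l hp hm
  rw [Dbil]
  apply mul_left_cancel₀ (two_ne (F := F))
  have h1 := S.dP1
  have h2 := S.dP2
  have h3 := S.dQ1
  have h4 := S.dQ2
  unfold bil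
  linear_combination (2 * (algebraMap ℂ F (S.c j)) * S.Q1 + 2 * S.Q2) * h1 +
    (2 * S.Q1 - 2 * algebraMap ℂ F ((starRingEnd ℂ) (S.c j)) * S.Q2) * h2 +
    (2 * (algebraMap ℂ F (S.c j)) * S.P1 + 2 * S.P2) * h3 +
    (2 * S.P1 - 2 * algebraMap ℂ F ((starRingEnd ℂ) (S.c j)) * S.P2) * h4

theorem dp (j : ι) : d.D (S.hp j) = -S.l j - S.K * S.hp j := by
  unfold l hp
  rw [Dbil]
  have h1 := S.dP1
  have h2 := S.dP2
  unfold bil
  linear_combination ((algebraMap ℂ F (S.c j)) * S.P1 + S.P2) * h1 +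
    (S.P1 - algebraMap ℂ F ((starRingEnd ℂ) (S.c j)) * S.P2) * h2

theorem dm (j : ι) : d.D (S.hm j) = -S.l j + S.K * S.hm j := by
  unfold l hm
  rw [d.neg, Dbil]
  have h1 := S.dQ1
  have h2 := S.dQ2
  unfold bil
  linear_combination (-((algebraMap ℂ F (S.c j)) * S.Q1 + S.Q2)) * h1 -
    (S.Q1 - algebraMap ℂ F ((starRingEnd ℂ) (S.c j)) * S.Q2) * h2

/-- Gram matrix -/
noncomputable def G (i j : ι) : ℝ := 1 + (S.c i * (starRingEnd ℂ) (S.c j)).re

theorem gram (i j : ι) : S.hp i * S.hm j + S.hm i * S.hp j + 2 * (S.l i * S.l j) =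
    algebraMap ℂ F ((2 * S.G i j : ℝ) : ℂ) := by
  have h1 : ((2 * S.G i j : ℝ) : ℂ) = 2 + (S.c i * (starRingEnd ℂ) (S.c j) +
      (starRingEnd ℂ) (S.c i) * S.c j) := by
    unfold G
    apply Complex.ext
    · simp
      ring
    · simp
      ring
  rw [h1, map_add, map_add, map_mul, map_mul, map_ofNat]
  unfold hp hm l bil
  have h2 := S.det
  have h3 : (S.P1 * S.Q2 - S.P2 * S.Q1) * (S.P1 * S.Q2 - S.P2 * S.Q1) = 1 := by
    rw [h2, mul_one]
  linear_combination (2 + (algebraMap ℂ F (S.c i) * algebraMap ℂ F ((starRingEnd ℂ) (S.c j)) +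
    algebraMap ℂ F ((starRingEnd ℂ) (S.c i)) * algebraMap ℂ F (S.c j))) * h3

theorem gpos (j : ι) : 0 < S.G j j := by
  unfold G
  rw [Complex.mul_conj, Complex.ofReal_re]
  have := Complex.normSq_nonneg (S.c j)
  linarith

theorem cs (i j : ι) (hij : i ≠ j) : S.G i j ^ 2 < S.G i i * S.G j j := by
  have hc : S.c i ≠ S.c j := fun h => hij (S.cinj h)
  unfold G
  simp only [Complex.mul_re, Complex.conj_re, Complex.conj_im]
  have h1 : 0 < ((S.c i).re - (S.c j).re) ^ 2 + ((S.c i).im - (S.c j).im) ^ 2 := by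
    by_contra h
    push Not at h
    apply hc
    have h2 := sq_nonneg ((S.c i).re - (S.c j).re)
    have h3 := sq_nonneg ((S.c i).im - (S.c j).im)
    have h4 : ((S.c i).re - (S.c j).re) ^ 2 = 0 := by linarith
    have h5 : ((S.c i).im - (S.c j).im) ^ 2 = 0 := by linarith
    apply Complex.ext
    · exact sub_eq_zero.1 (pow_eq_zero_iff two_ne_zero |>.1 h4)
    · exact sub_eq_zero.1 (pow_eq_zero_iff two_ne_zero |>.1 h5)
  nlinarith [sq_nonneg ((S.c i).re * (S.c j).im - (S.c i).im * (S.c j).re)]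

theorem dal (j : ι) : d.D (S.al j) = -((S.K + S.al j) * S.be j) := by
  have h0 : S.al j * (2 * S.l j) = S.hp j - S.hm j := by
    have := S.hal j
    unfold l hp hm
    linear_combination this
  have h0' : S.be j * (2 * S.l j) = S.hp j + S.hm j := by
    have := S.hbe j
    unfold l hp hm
    linear_combination this
  have h1 := congrArg d.D h0
  rw [d.sub, d.mul, d.mul, d.two, zero_mul, zero_add, S.dp, S.dm] at h1
  have h3 := S.dl j
  have hne : 2 * S.l j ≠ 0 := mul_ne_zero (two_ne (F := F)) (S.hl j)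
  apply mul_left_cancel₀ hne
  linear_combination h1 - S.al j * h3 + (S.K + S.al j) * h0'

theorem DK : 3 * d.D S.K = -∑ j, algebraMap ℂ F (S.μ j : ℂ) * ((S.K + S.al j) * S.be j) := by
  have h1 := congrArg d.D S.e1
  rw [d.sum] at h1
  have h3 : d.D (3 * S.K) = 3 * d.D S.K := by
    have := d.cmul 3 S.K
    rwa [map_ofNat] at this
  rw [h3] at h1
  rw [← h1, ← Finset.sum_neg_distrib]
  refine Finset.sum_congr rfl fun j _ => ?_
  rw [d.cmul, S.dal]
  ring

end Sys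

end Helper772Sph
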