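import Mathlib
import Pool.Agent.Helper772_Sph.PolyC
import Pool.Agent.Helper772_Sph.Gauss
import Pool.Agent.Helper772_Sph.Sys

set_option autoImplicit false

open Polynomial

namespace Helper772Sph

section frame

variable {E : Type} [Field E] [Algebra ℂ E] {d : Dv E} {ι : Type} [Fintype ι] (S : Sys E d ι)

theorem Dv.pow {E : Type} [Field E] [Algebra ℂ E] (d : Dv E) (g : E) (n : ℕ) :
    d.D (g ^ n) = (n : E) * g ^ (n - 1) * d.D g := by
  induction n with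
  | zero => simp [d.one]
  | succ n ih =>
    rw [pow_succ, d.mul, ih]
    rcases n with _ | n
    · simp
    · simp only [Nat.add_sub_cancel]
      push_cast
      ring

theorem Dv.aeval {E : Type} [Field E] [Algebra ℂ E] (d : Dv E) (x : E) (p : ℂ[X]) :
    d.D (aeval x p) = aeval x (derivative p) * d.D x := by
  induction p using Polynomial.induction_on' with
  | add p q hp hq => rw [map_add, d.add, hp, hq, derivative_add, map_add, add_mul]
  | monomial n c =>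
    rw [aeval_monomial, derivative_monomial, aeval_monomial, d.cmul, d.pow, map_mul, map_natCast]
    ring

/-- chain rule for bivariate polynomials -/
theorem Dv.ev2 {E : Type} [Field E] [Algebra ℂ E] (d : Dv E) (x y : E) (p : ℂ[X][X]) :
    ∃ q : ℂ[X][X], d.D (ev2 x y p) = Helper772Sph.ev2 x y q * d.D x +
      Helper772Sph.ev2 x y (derivative p) * d.D y := by
  induction p using Polynomial.induction_on' with
  | add p q hp hq =>
    obtain ⟨p', hp⟩ := hp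
    obtain ⟨q', hq⟩ := hq
    refine ⟨p' + q', ?_⟩
    rw [map_add, d.add, hp, hq, derivative_add, map_add, map_add]
    ring
  | monomial n c =>
    refine ⟨monomial n (derivative c), ?_⟩
    rw [derivative_monomial, ← C_mul_X_pow_eq_monomial, ← C_mul_X_pow_eq_monomial,
      ← C_mul_X_pow_eq_monomial, map_mul, map_mul, map_mul, map_pow, map_pow, ev2_C, ev2_C, ev2_C,
      ev2_X, d.mul, d.aeval, d.pow, map_mul, map_natCast]
    ring

variable (hP : S.P2 ≠ 0) (hQ : S.Q2 ≠ 0)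

namespace Sys

def x : E := S.P1 / S.P2
def y : E := S.Q1 / S.Q2
def w : E := S.Q2 / S.P2

include hP hQ

theorem w_ne : S.w ≠ 0 := div_ne_zero hQ hP

theorem eP1 : S.P1 = S.x * S.P2 := by unfold x; field_simp
theorem eQ2 : S.Q2 = S.w * S.P2 := by unfold w; field_simp
theorem eQ1 : S.Q1 = S.y * (S.w * S.P2) := by
  unfold y w; field_simp

theorem det' : S.w * S.P2 ^ 2 * (S.x - S.y) = 1 := by
  have h := S.det
  rw [S.eP1 hP hQ, S.eQ1 hP hQ, S.eQ2 hP hQ] at h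
  linear_combination h

theorem Dx : 2 * S.P2 ^ 2 * d.D S.x = 1 := by
  have h1 := congrArg d.D (S.eP1 hP hQ)
  rw [d.mul] at h1
  have h2 := S.dP1
  have h3 := S.dP2
  have h4 := S.det
  have h5 := S.eP1 hP hQ
  linear_combination (-2 * S.P2) * h1 + S.P2 * h2 - S.x * S.P2 * h3 + h4 -
    (S.K * S.P2 + S.Q2) * h5

theorem Dy : 2 * S.Q2 ^ 2 * d.D S.y = 1 := by
  have e : S.Q1 = S.y * S.Q2 := by unfold y; field_simp
  have h1 := congrArg d.D e
  rw [d.mul] at h1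
  have h2 := S.dQ1
  have h3 := S.dQ2
  have h4 := S.det
  linear_combination (-2 * S.Q2) * h1 + S.Q2 * h2 - S.y * S.Q2 * h3 + h4 +
    (S.P2 + S.K * S.Q2) * e

theorem Dw : 2 * d.D S.w = 1 + 2 * (S.K * S.w) + S.w ^ 2 := by
  have h1 := congrArg d.D (S.eQ2 hP hQ)
  rw [d.mul] at h1
  have h2 := S.dQ2
  have h3 := S.dP2
  have h5 := S.eQ2 hP hQ
  apply mul_right_cancel₀ hP
  linear_combination (-2) * h1 + h2 - S.w * h3 + (S.K + S.w) * h5

theorem Dx' : 2 * d.D S.x = S.w * (S.x - S.y) := by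
  have h1 := S.Dx hP hQ
  have h2 := S.det' hP hQ
  have h3 : S.P2 ^ 2 ≠ 0 := pow_ne_zero 2 hP
  apply mul_left_cancel₀ h3
  linear_combination h1 - h2

theorem Dy' : 2 * (S.w * d.D S.y) = S.x - S.y := by
  have h1 := S.Dy hP hQ
  have h2 := S.det' hP hQ
  have h5 := S.eQ2 hP hQ
  have h3 : S.w * S.P2 ^ 2 ≠ 0 := mul_ne_zero (S.w_ne hP hQ) (pow_ne_zero 2 hP)
  apply mul_left_cancel₀ h3
  rw [h5] at h1
  linear_combination h1 - h2

theorem bPQ (j : ι) : bil (S.c j) S.P1 S.P2 S.Q1 S.Q2 = S.w * S.P2 ^ 2 * Lf (S.c j) S.x S.y := by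
  unfold bil Lf
  rw [S.eP1 hP hQ, S.eQ1 hP hQ, S.eQ2 hP hQ]
  ring

theorem bPP (j : ι) : bil (S.c j) S.P1 S.P2 S.P1 S.P2 = S.P2 ^ 2 * Lf (S.c j) S.x S.x := by
  unfold bil Lf
  rw [S.eP1 hP hQ]
  ring

theorem bQQ (j : ι) : bil (S.c j) S.Q1 S.Q2 S.Q1 S.Q2 =
    S.w ^ 2 * S.P2 ^ 2 * Lf (S.c j) S.y S.y := by
  unfold bil Lf
  rw [S.eQ1 hP hQ, S.eQ2 hP hQ]
  ring

theorem al' (j : ι) : S.al j * (2 * S.w * Lf (S.c j) S.x S.y) =
    Lf (S.c j) S.x S.x + S.w ^ 2 * Lf (S.c j) S.y S.y := by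
  have h1 := S.hal j
  rw [S.bPQ hP hQ, S.bPP hP hQ, S.bQQ hP hQ] at h1
  apply mul_left_cancel₀ (pow_ne_zero 2 hP)
  linear_combination h1

theorem be' (j : ι) : S.be j * (2 * S.w * Lf (S.c j) S.x S.y) =
    Lf (S.c j) S.x S.x - S.w ^ 2 * Lf (S.c j) S.y S.y := by
  have h1 := S.hbe j
  rw [S.bPQ hP hQ, S.bPP hP hQ, S.bQQ hP hQ] at h1
  apply mul_left_cancel₀ (pow_ne_zero 2 hP)
  linear_combination h1

theorem Lf_ne (j : ι) : Lf (S.c j) S.x S.y ≠ 0 := by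
  intro h
  apply S.hl j
  rw [S.bPQ hP hQ, h, mul_zero]

variable [DecidableEq ι]

/-- product of the walls -/
noncomputable def LL : E := ∏ i, Lf (S.c i) S.x S.y

omit hP hQ in
theorem LL_eq (j : ι) : Lf (S.c j) S.x S.y * Lh S.c j S.x S.y = S.LL := by
  unfold Lh LL
  exact Finset.mul_prod_erase Finset.univ (fun i => Lf (S.c i) S.x S.y) (Finset.mem_univ j)

theorem LL_ne : S.LL ≠ 0 := Finset.prod_ne_zero_iff.2 fun i _ => S.Lf_ne hP hQ i

theorem alpha (j : ι) : Pf S.c j S.x S.y + S.w ^ 2 * Hf S.c j S.x S.y =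
    2 * S.w * S.LL * S.al j := by
  unfold Pf Hf
  have h1 := S.al' hP hQ j
  have h2 := S.LL_eq j
  linear_combination (-(Lh S.c j S.x S.y)) * h1 + 2 * S.w * S.al j * h2

theorem beta (j : ι) : Pf S.c j S.x S.y - S.w ^ 2 * Hf S.c j S.x S.y =
    2 * S.w * S.LL * S.be j := by
  unfold Pf Hf
  have h1 := S.be' hP hQ j
  have h2 := S.LL_eq j
  linear_combination (-(Lh S.c j S.x S.y)) * h1 + 2 * S.w * S.be j * h2

theorem Kw : 6 * S.w * S.LL * S.K = ∑ j, algebraMap ℂ E (S.μ j : ℂ) *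
    (Pf S.c j S.x S.y + S.w ^ 2 * Hf S.c j S.x S.y) := by
  have h1 := S.e1
  have h2 : ∑ j, algebraMap ℂ E (S.μ j : ℂ) *
    (Pf S.c j S.x S.y + S.w ^ 2 * Hf S.c j S.x S.y) =
    (2 * S.w * S.LL) * ∑ j, algebraMap ℂ E (S.μ j : ℂ) * S.al j := by
    rw [Finset.mul_sum]
    refine Finset.sum_congr rfl fun j _ => ?_
    rw [S.alpha hP hQ]
    ring
  rw [h2, h1]
  ring

/-- the elimination relation -/
theorem Rf_eq_zero : Rf S.μ S.c S.x S.y (S.w ^ 2) = 0 := by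
  unfold Rf
  simp only [S.alpha hP hQ, S.beta hP hQ]
  set s := 2 * S.w * S.LL with hs
  have hM : algebraMap ℂ E ((12 * (2 * ∑ j, S.μ j + 3) : ℝ) : ℂ) *
      (S.w ^ 2 * ((∏ i, Lf (S.c i) S.x S.y) * ∏ i, Lf (S.c i) S.x S.y)) =
      3 * algebraMap ℂ E ((2 * ∑ j, S.μ j + 3 : ℝ) : ℂ) * s ^ 2 := by
    have h1 : algebraMap ℂ E ((12 * (2 * ∑ j, S.μ j + 3) : ℝ) : ℂ) =
        12 * algebraMap ℂ E ((2 * ∑ j, S.μ j + 3 : ℝ) : ℂ) := by
      rw [Complex.ofReal_mul, map_mul]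
      congr 1
      rw [Complex.ofReal_ofNat, map_ofNat]
    rw [h1, hs]
    unfold LL
    ring
  rw [hM]
  unfold cub
  have e1 := S.e1
  have e2 := S.e2
  have eD := S.DK
  have s1 : ∑ i, algebraMap ℂ E (S.μ i : ℂ) * (s * S.al i) = s * (3 * S.K) := by
    rw [← e1, Finset.mul_sum]
    exact Finset.sum_congr rfl fun j _ => by ring
  have s2 : ∑ i, algebraMap ℂ E (S.μ i : ℂ) * (s * S.be i) =
      s * ∑ i, algebraMap ℂ E (S.μ i : ℂ) * S.be i := by
    rw [Finset.mul_sum]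
    exact Finset.sum_congr rfl fun j _ => by ring
  have s3 : ∑ i, algebraMap ℂ E (S.μ i : ℂ) * (s * S.al i * (s * S.al i)) =
      s ^ 2 * ∑ i, algebraMap ℂ E (S.μ i : ℂ) * (S.al i * S.al i) := by
    rw [Finset.mul_sum]
    exact Finset.sum_congr rfl fun j _ => by ring
  have s4 : ∑ j, algebraMap ℂ E (S.μ j : ℂ) *
      ((s * (3 * S.K) + 3 * (s * S.al j)) * (s * S.be j)) =
      3 * s ^ 2 * ∑ j, algebraMap ℂ E (S.μ j : ℂ) * ((S.K + S.al j) * S.be j) := by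
    rw [Finset.mul_sum]
    exact Finset.sum_congr rfl fun j _ => by ring
  have s5 : ∑ j, algebraMap ℂ E (S.μ j : ℂ) *
      ((s * (3 * S.K) + 3 * (s * S.al j)) * (s * S.be j * (s * S.be j))) =
      3 * s ^ 3 * ∑ j, algebraMap ℂ E (S.μ j : ℂ) * ((S.K + S.al j) * (S.be j * S.be j)) := by
    rw [Finset.mul_sum]
    exact Finset.sum_congr rfl fun j _ => by ring
  simp only [s1, s2, s3, s4, s5]
  linear_combination (9 * s ^ 3) * e2 - (3 * s ^ 3 *
    ∑ i, algebraMap ℂ E (S.μ i : ℂ) * S.be i) * eD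

end Sys

end frame

end Helper772Sph
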