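import Mathlib
import Pool.Agent.Y226.ZG.Euler

set_option autoImplicit false

open HahnSeries
open Pool.Agent.Y226.ZG (LS eul eul_coeff eul_add eul_mul eul_zero eul_C)

namespace Helper772Sph

/-- `f = c z^r + higher order terms`. -/
def O (r : ℤ) (f : LS ℂ) (c : ℂ) : Prop := (∀ i < r, f.coeff i = 0) ∧ f.coeff r = c

namespace O

variable {r s : ℤ} {f g : LS ℂ} {a b : ℂ}

theorem uniq (h : O r f a) (h' : O r f b) : a = b := h.2.symm.trans h'.2

theorem low (h : O r f a) (hs : s < r) : O s f 0 :=
  ⟨fun i hi => h.1 i (hi.trans hs), h.1 s hs⟩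

theorem zero : O r (0 : LS ℂ) 0 := ⟨fun _ _ => rfl, rfl⟩

theorem add (h : O r f a) (h' : O r g b) : O r (f + g) (a + b) := by
  refine ⟨fun i hi => ?_, ?_⟩
  · rw [coeff_add, h.1 i hi, h'.1 i hi, add_zero]
  · rw [coeff_add, h.2, h'.2]

theorem neg (h : O r f a) : O r (-f) (-a) := by
  refine ⟨fun i hi => ?_, ?_⟩
  · rw [coeff_neg, h.1 i hi, neg_zero]
  · rw [coeff_neg, h.2]

theorem sub (h : O r f a) (h' : O r g b) : O r (f - g) (a - b) := by
  rw [sub_eq_add_neg, sub_eq_add_neg]
  exact h.add h'.neg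

theorem mul (h : O r f a) (h' : O s g b) : O (r + s) (f * g) (a * b) := by
  refine ⟨fun i hi => ?_, ?_⟩
  · rw [coeff_mul]
    refine Finset.sum_eq_zero fun ij hij => ?_
    have h3 : ij.1 + ij.2 = i := (Finset.mem_antidiagonal.1 hij).2.2
    by_cases h1 : ij.1 < r
    · rw [h.1 _ h1, zero_mul]
    · rw [h'.1 ij.2 (by omega), mul_zero]
  · rw [coeff_mul]
    by_cases hab : f.coeff r * g.coeff s = 0
    · rw [← h.2, ← h'.2, hab]
      refine Finset.sum_eq_zero fun ij hij => ?_
      have h3 : ij.1 + ij.2 = r + s := (Finset.mem_antidiagonal.1 hij).2.2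
      by_cases h1 : ij.1 < r
      · rw [h.1 _ h1, zero_mul]
      · by_cases h2 : ij.2 < s
        · rw [h'.1 _ h2, mul_zero]
        · have e1 : ij.1 = r := by omega
          have e2 : ij.2 = s := by omega
          rw [e1, e2, hab]
    · rw [Finset.sum_eq_single (r, s), h.2, h'.2]
      · intro ij hij hne
        have h3 : ij.1 + ij.2 = r + s := (Finset.mem_antidiagonal.1 hij).2.2
        by_cases h1 : ij.1 < r
        · rw [h.1 _ h1, zero_mul]
        · by_cases h2 : ij.2 < s
          · rw [h'.1 _ h2, mul_zero]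
          · exact absurd (Prod.ext (by simp; omega) (by simp; omega)) hne
      · intro hmem
        exfalso
        apply hmem
        rw [Finset.mem_antidiagonal]
        exact ⟨left_ne_zero_of_mul hab, right_ne_zero_of_mul hab, rfl⟩

theorem eul (h : O r f a) : O r (eul f) (r * a) := by
  refine ⟨fun i hi => ?_, ?_⟩
  · rw [eul_coeff, h.1 i hi, mul_zero]
  · rw [eul_coeff, h.2]

theorem const (c : ℂ) : O 0 (C c : LS ℂ) c := by
  refine ⟨fun i hi => ?_, ?_⟩
  · rw [C_apply, coeff_single_of_ne hi.ne]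
  · rw [C_apply, coeff_single_same]

theorem sum {ι : Type*} (t : Finset ι) {f : ι → LS ℂ} {a : ι → ℂ} (h : ∀ i ∈ t, O r (f i) (a i)) :
    O r (∑ i ∈ t, f i) (∑ i ∈ t, a i) := by
  classical
  induction t using Finset.induction_on with
  | empty => simpa using zero
  | insert i t hi ih =>
    rw [Finset.sum_insert hi, Finset.sum_insert hi]
    exact (h i (Finset.mem_insert_self i t)).add
      (ih fun j hj => h j (Finset.mem_insert_of_mem hj))

theorem congr (h : O r f a) (hr : r = s) (hf : f = g) (ha : a = b) : O s g b := by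
  subst hr hf ha
  exact h

theorem of_ne (hf : f ≠ 0) : ∃ r c, O r f c ∧ c ≠ 0 := by
  refine ⟨f.order, f.coeff f.order, ⟨fun i hi => coeff_eq_zero_of_lt_order hi, rfl⟩, ?_⟩
  exact coeff_order_eq_zero.not.2 hf

theorem ne_zero (h : O r f a) (ha : a ≠ 0) : f ≠ 0 := by
  rintro rfl
  exact ha (h.uniq zero)

/-- a common lower bound for the orders of a finite family -/
theorem exists_lower {ι : Type*} (t : Finset ι) (f : ι → LS ℂ) :
    ∃ r : ℤ, ∀ i ∈ t, ∀ j < r, (f i).coeff j = 0 := by
  classical
  induction t using Finset.induction_on with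
  | empty => exact ⟨0, by simp⟩
  | insert i t hi ih =>
    obtain ⟨r, hr⟩ := ih
    have h1 : ∃ s : ℤ, ∀ j < s, (f i).coeff j = 0 := by
      by_cases hf : f i = 0
      · exact ⟨0, by simp [hf]⟩
      · obtain ⟨s, c, hs, -⟩ := of_ne hf
        exact ⟨s, hs.1⟩
    obtain ⟨s, hs⟩ := h1
    refine ⟨min r s, fun j hj k hk => ?_⟩
    rcases Finset.mem_insert.1 hj with rfl | hj
    · exact hs k (lt_of_lt_of_le hk (min_le_right _ _))
    · exact hr j hj k (lt_of_lt_of_le hk (min_le_left _ _))

/-- inductive improvement of a lower bound -/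
theorem improve {P : ℤ → Prop} (hP : ∀ r, P r → P (r + 1)) {r s : ℤ} (hr : P r) (hs : r ≤ s) :
    P s := by
  obtain ⟨n, rfl⟩ := Int.le.dest hs
  clear hs
  induction n with
  | zero => simpa using hr
  | succ n ih =>
    have := hP _ ih
    push_cast
    rw [← add_assoc]
    exact this

/-- a division rule -/
theorem div_left (h : O r f a) (ha : a ≠ 0) (hfg : O (r + s) (f * g) b) : O s g (b / a) := by
  have hf : f ≠ 0 := h.ne_zero ha
  by_cases hg : g = 0
  · subst hg
    rw [mul_zero] at hfg
    refine zero.congr rfl rfl ?_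
    rw [hfg.uniq zero, zero_div]
  · obtain ⟨t, c, ht, hc⟩ := of_ne hg
    have h1 := h.mul ht
    rcases lt_trichotomy t s with hts | hts | hts
    · exfalso
      have h2 := hfg.low (show r + t < r + s by omega)
      exact mul_ne_zero ha hc (h1.uniq h2)
    · subst hts
      have h2 := h1.uniq hfg
      refine ht.congr rfl rfl ?_
      rw [← h2]
      field_simp
    · have h2 := h1.low (show r + s < r + t by omega)
      have h3 := h2.uniq hfg
      rw [← h3, zero_div]
      exact ht.low hts

end O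

end Helper772Sph
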