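import Mathlib
import Pool.Agent.Helper165.P1.NP
import Pool.Agent.Helper772_Sph.Lead

set_option autoImplicit false

open Polynomial
open Pool.Agent.Y226.ZG (LS eul eul_coeff eul_add eul_mul eul_zero eul_C)

namespace Helper772Sph

open Pool.Agent.Helper165.P1

/-- `X ↦ z ^ (-m)` -/
noncomputable def inn (m : ℕ) : ℂ[X] →+* LS ℂ :=
  eval₂RingHom HahnSeries.C (HahnSeries.single (-(m : ℤ)) 1)

theorem inn_C (m : ℕ) (c : ℂ) : inn m (C c) = HahnSeries.C c := by simp [inn]

theorem inn_X (m : ℕ) : inn m X = HahnSeries.single (-(m : ℤ)) 1 := by simp [inn]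

theorem single_pow' (m : ℤ) (k : ℕ) :
    (HahnSeries.single m (1 : ℂ)) ^ k = HahnSeries.single (k * m) 1 := by
  induction k with
  | zero => simp
  | succ k ih =>
    rw [pow_succ, ih, HahnSeries.single_mul_single, mul_one]
    congr 1
    push_cast
    ring

theorem inn_injective {m : ℕ} (hm : 0 < m) : Function.Injective (inn m) := by
  rw [injective_iff_map_eq_zero]
  intro f hf
  by_contra hne
  have h1 : (inn m f).coeff (-(m : ℤ) * f.natDegree) = f.leadingCoeff := by
    unfold inn
    rw [coe_eval₂RingHom, eval₂_eq_sum_range, HahnSeries.coeff_sum,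
      Finset.sum_eq_single f.natDegree]
    · rw [single_pow', HahnSeries.C_mul_eq_smul, HahnSeries.coeff_smul,
        show (f.natDegree : ℤ) * -(m : ℤ) = -(m : ℤ) * f.natDegree by ring,
        HahnSeries.coeff_single_same, smul_eq_mul, mul_one]
      rfl
    · intro i _ hi
      rw [single_pow', HahnSeries.C_mul_eq_smul, HahnSeries.coeff_smul,
        HahnSeries.coeff_single_of_ne, smul_zero]
      intro h2
      apply hi
      have h3 : (m : ℤ) * f.natDegree = (m : ℤ) * i := by linarith
      have h4 : (f.natDegree : ℤ) = i := mul_left_cancel₀ (by exact_mod_cast hm.ne') h3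
      exact_mod_cast h4.symm
    · intro h
      exact absurd (Finset.mem_range.2 (Nat.lt_succ_self _)) h
  rw [hf] at h1
  exact hne (leadingCoeff_eq_zero.1 h1.symm)

/-- Puiseux embedding of a function field of one variable, with a prescribed pole. -/
theorem exists_embed {F : Type} [Field F] [Algebra ℂ F] (K : F) (htr : Transcendental ℂ K)
    {κ : Type} [Fintype κ] (g : κ → F)
    (hgen : ∀ F' : Subfield F, (∀ c : ℂ, algebraMap ℂ F c ∈ F') → (∀ i, g i ∈ F') → F' = ⊤)
    (p : κ → ℂ[X][X]) (hp : ∀ i, p i ≠ 0)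
    (hroot : ∀ i, (p i).eval₂ ((aeval K : ℂ[X] →ₐ[ℂ] F) : ℂ[X] →+* F) (g i) = 0) :
    ∃ (σ : F →+* LS ℂ) (m : ℕ), 0 < m ∧ (∀ c, σ (algebraMap ℂ F c) = HahnSeries.C c) ∧
      σ K = HahnSeries.single (-(m : ℤ)) 1 := by
  classical
  obtain ⟨m, hm, hs⟩ := NP.NP_splits (∏ i, (p i).map (inn 1))
  have hcomp : (NP.expandHom m hm).comp (inn 1) = inn m := by
    apply Polynomial.ringHom_ext
    · intro a
      show NP.expandHom m hm (inn 1 (C a)) = inn m (C a)
      rw [inn_C, inn_C, NP.expandHom_C]
    · show NP.expandHom m hm (inn 1 X) = inn m X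
      rw [inn_X, inn_X, NP.expandHom_single]
      congr 1
      push_cast
      ring
  rw [Polynomial.map_prod] at hs
  simp only [Polynomial.map_map, hcomp] at hs
  have hinj := inn_injective hm
  have hne : ∀ i ∈ Finset.univ, (p i).map (inn m) ≠ 0 := by
    intro i _
    exact (Polynomial.map_ne_zero_iff hinj).2 (hp i)
  have hsp := (splits_prod_iff hne).1 hs
  -- algebraic closure
  let Ω := AlgebraicClosure (LS ℂ)
  let ι : LS ℂ →+* Ω := algebraMap (LS ℂ) Ω
  let α : ℂ[X] →+* F := ((aeval K : ℂ[X] →ₐ[ℂ] F) : ℂ[X] →+* F)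
  let β : ℂ[X] →+* Ω := ι.comp (inn m)
  have hα : Function.Injective α := by
    have := transcendental_iff_injective.1 htr
    intro u v huv
    exact this huv
  have hβ : Function.Injective β := ι.injective.comp hinj
  letI algF : Algebra ℂ[X] F := α.toAlgebra
  letI algΩ : Algebra ℂ[X] Ω := β.toAlgebra
  have hF : (algebraMap ℂ[X] F) = α := rfl
  have hΩ : (algebraMap ℂ[X] Ω) = β := rfl
  haveI : FaithfulSMul ℂ[X] F := (faithfulSMul_iff_algebraMap_injective ℂ[X] F).2 hα
  haveI : Module.IsTorsionFree ℂ[X] F := Module.isTorsionFree_iff_algebraMap_injective.2 hα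
  haveI : Module.IsTorsionFree ℂ[X] Ω := Module.isTorsionFree_iff_algebraMap_injective.2 hβ
  have hroot' : ∀ j, aeval (g j) (p j) = 0 := fun j => hroot j
  have halg : ∀ f : F, IsAlgebraic ℂ[X] f := by
    let F' : Subfield F :=
      { carrier := {f | IsAlgebraic ℂ[X] f}
        mul_mem' := fun {a b} ha hb => IsAlgebraic.mul ha hb
        one_mem' := isAlgebraic_one
        add_mem' := fun {a b} ha hb => IsAlgebraic.add ha hb
        zero_mem' := isAlgebraic_zero
        neg_mem' := fun {a} ha => IsAlgebraic.neg ha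
        inv_mem' := fun a ha => IsAlgebraic.inv ha }
    have h1 : F' = ⊤ := by
      apply hgen
      · intro c
        show IsAlgebraic ℂ[X] (algebraMap ℂ F c)
        have : algebraMap ℂ F c = algebraMap ℂ[X] F (C c) := by
          rw [hF]; simp [α]
        rw [this]
        exact isAlgebraic_algebraMap _
      · intro i
        exact ⟨p i, hp i, hroot' i⟩
    intro f
    have h2 : f ∈ F' := by rw [h1]; trivial
    exact h2
  haveI : Algebra.IsAlgebraic ℂ[X] F := ⟨halg⟩
  let σ₀ : F →ₐ[ℂ[X]] Ω := IsAlgClosed.lift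
  have hσ : ∀ f : ℂ[X], σ₀ (α f) = β f := fun f => σ₀.commutes f
  have hc : ∀ c : ℂ, σ₀ (algebraMap ℂ F c) = ι (HahnSeries.C c) := by
    intro c
    have h1 := hσ (C c)
    have h2 : α (C c) = algebraMap ℂ F c := by simp [α]
    have h3 : β (C c) = ι (HahnSeries.C c) := by
      show ι (inn m (C c)) = _
      rw [inn_C]
    rw [h2, h3] at h1
    exact h1
  have hKX : σ₀ K = ι (HahnSeries.single (-(m : ℤ)) 1) := by
    have h1 := hσ X
    have h2 : α X = K := by simp [α]
    have h3 : β X = ι (HahnSeries.single (-(m : ℤ)) 1) := by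
      show ι (inn m X) = _
      rw [inn_X]
    rw [h2, h3] at h1
    exact h1
  -- the image lies in the Laurent series field
  have hrange : ∀ f : F, σ₀ f ∈ ι.fieldRange := by
    have h1 : (ι.fieldRange.comap σ₀.toRingHom) = ⊤ := by
      apply hgen
      · intro c
        rw [Subfield.mem_comap]
        exact ⟨HahnSeries.C c, (hc c).symm⟩
      · intro i
        rw [Subfield.mem_comap]
        have h2 : aeval (σ₀ (g i)) (p i) = 0 := by
          rw [aeval_algHom_apply, hroot' i, map_zero]
        have h3 : (((p i).map (inn m)).map ι).IsRoot (σ₀ (g i)) := by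
          rw [Polynomial.map_map, IsRoot, eval_map]
          exact h2
        exact (hsp i (Finset.mem_univ i)).mem_range_of_isRoot (hne i (Finset.mem_univ i)) h3
    intro f
    have h2 : f ∈ (ι.fieldRange.comap σ₀.toRingHom) := by rw [h1]; trivial
    exact h2
  choose τ hτ using hrange
  have ιinj := ι.injective
  refine ⟨⟨⟨⟨τ, ?_⟩, ?_⟩, ?_, ?_⟩, m, hm, ?_, ?_⟩
  · apply ιinj
    rw [hτ, map_one, map_one]
  · intro a b
    apply ιinj
    show ι (τ (a * b)) = ι (τ a * τ b)
    rw [hτ, map_mul, map_mul, hτ, hτ]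
  · apply ιinj
    show ι (τ 0) = ι 0
    rw [hτ, map_zero, map_zero]
  · intro a b
    apply ιinj
    show ι (τ (a + b)) = ι (τ a + τ b)
    rw [hτ, map_add, map_add, hτ, hτ]
  · intro c
    apply ιinj
    show ι (τ (algebraMap ℂ F c)) = _
    rw [hτ, hc]
  · apply ιinj
    show ι (τ K) = _
    rw [hτ, hKX]

/-- Transport of a derivation along the embedding. -/
theorem transport {F : Type} [Field F] [Algebra ℂ F] (D : F → F)
    (hadd : ∀ a b, D (a + b) = D a + D b) (hmul : ∀ a b, D (a * b) = D a * b + a * D b)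
    (hC : ∀ c, D (algebraMap ℂ F c) = 0) (K : F) (σ : F →+* LS ℂ)
    (hσC : ∀ c, σ (algebraMap ℂ F c) = HahnSeries.C c) (hK : eul (σ K) ≠ 0)
    (halg : ∀ F' : IntermediateField ℂ F, K ∈ F' → ∀ g : F, IsAlgebraic F' g) :
    ∀ g, σ (D g) = (σ (D K) / eul (σ K)) * eul (σ g) := by
  set φ := σ (D K) / eul (σ K) with hφ
  set δ : F → LS ℂ := fun g => σ (D g) - φ * eul (σ g) with hδ
  have dadd : ∀ a b, δ (a + b) = δ a + δ b := by
    intro a b
    simp only [hδ, hadd, map_add, eul_add]
    ring
  have dmul : ∀ a b, δ (a * b) = σ b * δ a + σ a * δ b := by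
    intro a b
    simp only [hδ, hmul, map_add, map_mul, eul_mul]
    ring
  have dC : ∀ c, δ (algebraMap ℂ F c) = 0 := by
    intro c
    simp only [hδ, hC, hσC, eul_C, map_zero, mul_zero, sub_zero]
  have dK : δ K = 0 := by
    simp only [hδ, hφ]
    rw [div_mul_cancel₀ _ hK, sub_self]
  have d1 : δ 1 = 0 := by
    have := dC 1
    rwa [map_one] at this
  have d0 : δ 0 = 0 := by
    have := dC 0
    rwa [map_zero] at this
  have dneg : ∀ a, δ a = 0 → δ (-a) = 0 := by
    intro a ha
    have h1 := dadd a (-a)
    rw [add_neg_cancel, d0, ha, zero_add] at h1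
    exact h1.symm
  let F₀ : IntermediateField ℂ F :=
    { carrier := {g | δ g = 0}
      mul_mem' := by
        intro a b ha hb
        show δ (a * b) = 0
        have ha' : δ a = 0 := ha
        have hb' : δ b = 0 := hb
        rw [dmul, ha', hb', mul_zero, mul_zero, add_zero]
      add_mem' := by
        intro a b ha hb
        show δ (a + b) = 0
        have ha' : δ a = 0 := ha
        have hb' : δ b = 0 := hb
        rw [dadd, ha', hb', add_zero]
      algebraMap_mem' := dC
      inv_mem' := by
        intro a ha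
        show δ a⁻¹ = 0
        have ha' : δ a = 0 := ha
        by_cases h0 : a = 0
        · rw [h0, inv_zero]; exact d0
        have h1 := dmul a a⁻¹
        rw [mul_inv_cancel₀ h0, d1, ha', mul_zero, zero_add] at h1
        exact (mul_eq_zero.1 h1.symm).resolve_left (by
          intro h2
          exact h0 (σ.injective (h2.trans (map_zero σ).symm))) }
  intro g
  have hg : IsAlgebraic F₀ g := halg F₀ dK g
  have key : ∀ p : F₀[X], δ (aeval g p) = σ (aeval g p.derivative) * δ g := by
    intro p
    induction p using Polynomial.induction_on' with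
    | add p q hp hq =>
      rw [map_add, dadd, hp, hq, derivative_add, map_add, map_add]
      ring
    | monomial n c =>
      have hpow : ∀ n : ℕ, δ (g ^ n) = σ ((n : F) * g ^ (n - 1)) * δ g := by
        intro n
        induction n with
        | zero => simp [d1]
        | succ n ih =>
          rw [pow_succ, dmul, ih]
          rcases n with _ | n
          · simp
          · simp only [Nat.add_sub_cancel, map_mul, map_pow, map_natCast]
            push_cast
            ring
      have hcz : δ (c : F) = 0 := c.2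
      rw [aeval_monomial, derivative_monomial, aeval_monomial]
      have e1 : algebraMap F₀ F c = (c : F) := rfl
      have e2 : algebraMap F₀ F (c * (n : F₀)) = (c : F) * (n : F) := by
        rw [map_mul, e1, map_natCast]
      rw [e1, e2, dmul, hcz, mul_zero, zero_add, hpow]
      simp only [map_mul, map_pow, map_natCast]
      ring
  have hp := minpoly.aeval F₀ g
  have h1 := key (minpoly F₀ g)
  rw [hp, d0] at h1
  have hint : IsIntegral F₀ g := hg.isIntegral
  have hsep : (minpoly F₀ g).Separable := (minpoly.irreducible hint).separable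
  have h2 : aeval g (minpoly F₀ g).derivative ≠ 0 := hsep.aeval_derivative_ne_zero hp
  have h3 : σ (aeval g (minpoly F₀ g).derivative) ≠ 0 := by
    intro h
    exact h2 (σ.injective (h.trans (map_zero σ).symm))
  have h4 := (mul_eq_zero.1 h1.symm).resolve_left h3
  exact sub_eq_zero.1 h4

end Helper772Sph
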