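import Mathlib
import Pool.Agent.Helper772_Sph.Lead

set_option autoImplicit false

open HahnSeries
open Pool.Agent.Y226.ZG (LS eul eul_coeff eul_add eul_mul eul_zero eul_C)

namespace Helper772Sph

theorem eul_neg (f : LS ℂ) : eul (-f) = -eul f := by
  ext n
  simp

theorem eul_sub (f g : LS ℂ) : eul (f - g) = eul f - eul g := by
  rw [sub_eq_add_neg, eul_add, eul_neg, ← sub_eq_add_neg]

theorem O.cmul {r : ℤ} {f : LS ℂ} {a : ℂ} (c : ℂ) (h : O r f a) : O r (C c * f) (c * a) :=
  ((O.const c).mul h).congr (zero_add r) rfl rfl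

theorem two_eq : (2 : LS ℂ) = C (2 : ℂ) := (map_ofNat C 2).symm

theorem C_ne {c : ℂ} (hc : c ≠ 0) : (C c : LS ℂ) ≠ 0 := fun h =>
  hc (C_injective (h.trans (map_zero C).symm))

theorem two_ne : (2 : LS ℂ) ≠ 0 := by
  rw [two_eq]
  exact C_ne two_ne_zero

theorem four_ne : (4 : LS ℂ) ≠ 0 := by
  have : (4 : LS ℂ) = C (4 : ℂ) := (map_ofNat C 4).symm
  rw [this]
  exact C_ne (by norm_num)

theorem three_eq : (3 : LS ℂ) = C (3 : ℂ) := (map_ofNat C 3).symm

/-- `1` at a negative order -/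
theorem O.one_low {r : ℤ} (hr : r < 0) : O r (1 : LS ℂ) 0 :=
  (((O.const 1).congr rfl (map_one C) rfl : O 0 (1 : LS ℂ) 1)).low hr

theorem O.one : O 0 (1 : LS ℂ) 1 := (O.const 1).congr rfl (map_one C) rfl

/-- The local data at a place of the function field. -/
structure Loc (ι : Type) [Fintype ι] where
  φ : LS ℂ
  μ : ι → ℝ
  K : LS ℂ
  l : ι → LS ℂ
  hp : ι → LS ℂ
  hm : ι → LS ℂ
  al : ι → LS ℂ
  be : ι → LS ℂ
  G : ι → ι → ℝ
  hφ : φ ≠ 0
  hμ : ∀ j, 0 < μ j
  hl : ∀ j, l j ≠ 0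
  hal : ∀ j, al j * (2 * l j) = hp j - hm j
  hbe : ∀ j, be j * (2 * l j) = hp j + hm j
  dl : ∀ j, 2 * (φ * eul (l j)) = hp j + hm j
  dp : ∀ j, φ * eul (hp j) = -l j - K * hp j
  dm : ∀ j, φ * eul (hm j) = -l j + K * hm j
  gram : ∀ i j, hp i * hm j + hm i * hp j + 2 * (l i * l j) = C ((2 * G i j : ℝ) : ℂ)
  gpos : ∀ j, 0 < G j j
  cs : ∀ i j, i ≠ j → G i j ^ 2 < G i i * G j j
  e1 : ∑ j, C ((μ j : ℝ) : ℂ) * al j = 3 * K
  e2 : φ * eul K * ∑ j, C ((μ j : ℝ) : ℂ) * be j +
    ∑ j, C ((μ j : ℝ) : ℂ) * ((K + al j) * (be j * be j)) + 3 * (K * (K * K)) +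
    2 * (K * ∑ j, C ((μ j : ℝ) : ℂ) * (al j * al j)) +
    C ((2 * ∑ j, μ j + 3 : ℝ) : ℂ) * K = 0

namespace Loc

variable {ι : Type} [Fintype ι] (L : Loc ι)

theorem two_l (j : ι) : (2 * L.l j : LS ℂ) ≠ 0 := mul_ne_zero two_ne (L.hl j)

theorem dal (j : ι) : L.φ * eul (L.al j) = -((L.K + L.al j) * L.be j) := by
  have h1 := congrArg (fun f => L.φ * eul f) (L.hal j)
  simp only [eul_sub, eul_mul] at h1
  have h2 : eul (2 : LS ℂ) = 0 := by rw [two_eq, eul_C]
  rw [h2, zero_mul, zero_add, mul_sub, L.dp, L.dm] at h1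
  have h3 := L.dl j
  have h4 := L.hbe j
  apply mul_left_cancel₀ (L.two_l j)
  linear_combination h1 - L.al j * h3 + (L.K + L.al j) * h4

theorem dbe (j : ι) : L.φ * eul (L.be j) = -(L.be j * L.be j) - L.K * L.al j - 1 := by
  have h1 := congrArg (fun f => L.φ * eul f) (L.hbe j)
  simp only [eul_add, eul_mul] at h1
  have h2 : eul (2 : LS ℂ) = 0 := by rw [two_eq, eul_C]
  rw [h2, zero_mul, zero_add, mul_add (L.φ) (eul (L.hp j)), L.dp, L.dm] at h1
  have h3 := L.dl j
  have h4 := L.hbe j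
  have h5 := L.hal j
  apply mul_left_cancel₀ (L.two_l j)
  linear_combination h1 - L.be j * h3 + L.be j * h4 + L.K * h5

/-- all coefficients below `r` vanish -/
def P (r : ℤ) : Prop :=
  (∀ i < r, L.K.coeff i = 0) ∧ (∀ j, ∀ i < r, (L.al j).coeff i = 0) ∧
    ∀ j, ∀ i < r, (L.be j).coeff i = 0

/-- Step A. -/
theorem stepA {ν : ℤ} {φ₀ : ℂ} (hφ : O ν L.φ φ₀) {r : ℤ} (hr0 : r < 0) (hrν : r < ν)
    (hP : L.P r) : L.P (r + 1) := by
  classical
  obtain ⟨hK, ha, hb⟩ := hP
  set κ := L.K.coeff r with hκ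
  set A : ι → ℂ := fun j => (L.al j).coeff r with hA
  set B : ι → ℂ := fun j => (L.be j).coeff r with hB
  have oK : O r L.K κ := ⟨hK, rfl⟩
  have oa : ∀ j, O r (L.al j) (A j) := fun j => ⟨ha j, rfl⟩
  have ob : ∀ j, O r (L.be j) (B j) := fun j => ⟨hb j, rfl⟩
  have r1 : ∀ j, (κ + A j) * B j = 0 := by
    intro j
    have h1 : O (r + r) (L.φ * eul (L.al j)) 0 := (hφ.mul (oa j).eul).low (by omega)
    have h2 := (((oK.add (oa j)).mul (ob j)).neg)
    rw [← L.dal] at h2
    have := h1.uniq h2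
    exact neg_eq_zero.1 this.symm
  have r2 : ∀ j, B j * B j + κ * A j = 0 := by
    intro j
    have h1 : O (r + r) (L.φ * eul (L.be j)) 0 := (hφ.mul (ob j).eul).low (by omega)
    have h2 := ((((ob j).mul (ob j)).neg).sub (oK.mul (oa j))).sub
      (O.one_low (r := r + r) (by omega))
    rw [← L.dbe] at h2
    have := h1.uniq h2
    linear_combination this
  have r3 : ∑ j, (L.μ j : ℂ) * A j = 3 * κ := by
    have h1 := O.sum Finset.univ (fun j _ => (oa j).cmul (L.μ j : ℂ))
    rw [L.e1, three_eq] at h1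
    exact h1.uniq (oK.cmul 3)
  -- κ = 0
  have hκ0 : κ = 0 := by
    by_contra hne
    have h1 : ∀ j, ∃ e : ℝ, 0 ≤ e ∧ A j = -κ * e := by
      intro j
      rcases mul_eq_zero.1 (r1 j) with h | h
      · exact ⟨1, zero_le_one, by push_cast; linear_combination h⟩
      · refine ⟨0, le_rfl, ?_⟩
        have h2 := r2 j
        rw [h, zero_mul, zero_add] at h2
        rw [(mul_eq_zero.1 h2).resolve_left hne]
        simp
    choose e he1 he2 using h1
    have h2 : ((∑ j, L.μ j * e j : ℝ) : ℂ) = -3 := by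
      have h3 : ∑ j, (L.μ j : ℂ) * A j = -κ * ((∑ j, L.μ j * e j : ℝ) : ℂ) := by
        push_cast
        rw [Finset.mul_sum]
        refine Finset.sum_congr rfl fun j _ => ?_
        rw [he2 j]
        ring
      rw [r3] at h3
      apply mul_left_cancel₀ hne
      linear_combination h3
    have h4 : (∑ j, L.μ j * e j : ℝ) = -3 := by exact_mod_cast h2
    have h5 : 0 ≤ ∑ j, L.μ j * e j :=
      Finset.sum_nonneg fun j _ => mul_nonneg (L.hμ j).le (he1 j)
    linarith
  have hB0 : ∀ j, B j = 0 := by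
    intro j
    have := r2 j
    rw [hκ0, zero_mul, add_zero] at this
    exact mul_self_eq_zero.1 this
  -- at most one nonzero `A`
  have hlead : ∀ j, A j ≠ 0 → ∃ x : ℂ, x ≠ 0 ∧ O (-r) (L.l j) x ∧ (x * A j) ^ 2 = -(L.G j j : ℂ) := by
    intro j hj
    obtain ⟨s, x, hs, hx⟩ := O.of_ne (L.hl j)
    have h1 : L.l j * L.l j * ((L.be j + L.al j) * (L.be j - L.al j) + 1) =
        C ((L.G j j : ℝ) : ℂ) := by
      have h2 := L.gram j j
      have h3 := L.hal j
      have h4 := L.hbe j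
      have h5 : (C ((2 * L.G j j : ℝ) : ℂ) : LS ℂ) = 2 * C ((L.G j j : ℝ) : ℂ) := by
        rw [two_eq, ← map_mul]
        push_cast
        rfl
      have h6 : (4 : LS ℂ) ≠ 0 := four_ne
      apply mul_left_cancel₀ h6
      rw [h5] at h2
      linear_combination (2 : LS ℂ) * h2 +
        (L.be j * (2 * L.l j) + (L.hp j + L.hm j)) * h4 -
        (L.al j * (2 * L.l j) + (L.hp j - L.hm j)) * h3
    have h2 := ((hs.mul hs).mul ((((ob j).add (oa j)).mul ((ob j).sub (oa j))).add
      (O.one_low (r := r + r) (by omega))))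
    rw [h1] at h2
    have h3 := O.const ((L.G j j : ℝ) : ℂ)
    have hG : ((L.G j j : ℝ) : ℂ) ≠ 0 := by
      exact_mod_cast (L.gpos j).ne'
    have hval : x * x * ((B j + A j) * (B j - A j) + 0) = -(x * A j) ^ 2 := by
      rw [hB0 j]; ring
    rw [hval] at h2
    have hne : -(x * A j) ^ 2 ≠ 0 := neg_ne_zero.2 (pow_ne_zero 2 (mul_ne_zero hx hj))
    have hs' : s + s + (r + r) = 0 := by
      rcases lt_trichotomy (s + s + (r + r)) 0 with h | h | h
      · exact absurd (h2.uniq (h3.low h)) hne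
      · exact h
      · exact absurd (h3.uniq (h2.low h)) hG
    have hs'' : s = -r := by omega
    subst hs''
    refine ⟨x, hx, hs, ?_⟩
    have h4 := (h2.congr hs' rfl rfl).uniq h3
    linear_combination -h4
  have huniq : ∀ i j, A i ≠ 0 → A j ≠ 0 → i = j := by
    intro i j hi hj
    by_contra hij
    obtain ⟨x, hx, ox, ex⟩ := hlead i hi
    obtain ⟨y, hy, oy, ey⟩ := hlead j hj
    have h1 : L.l i * L.l j * ((L.be i + L.al i) * (L.be j - L.al j) +
        (L.be i - L.al i) * (L.be j + L.al j) + 2 * 1) = C ((2 * L.G i j : ℝ) : ℂ) := by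
      rw [← L.gram i j]
      have h6 : (4 : LS ℂ) ≠ 0 := four_ne
      apply mul_left_cancel₀ h6
      have e1 := L.hal i
      have e2 := L.hbe i
      have e3 := L.hal j
      have e4 := L.hbe j
      have p1 : (L.be i + L.al i) * (2 * L.l i) = 2 * L.hp i := by linear_combination e1 + e2
      have p2 : (L.be i - L.al i) * (2 * L.l i) = 2 * L.hm i := by linear_combination e2 - e1
      have p3 : (L.be j + L.al j) * (2 * L.l j) = 2 * L.hp j := by linear_combination e3 + e4
      have p4 : (L.be j - L.al j) * (2 * L.l j) = 2 * L.hm j := by linear_combination e4 - e3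
      linear_combination (L.be j - L.al j) * (2 * L.l j) * p1 + 2 * L.hp i * p4 +
        (L.be j + L.al j) * (2 * L.l j) * p2 + 2 * L.hm i * p3
    have h2 := ((ox.mul oy).mul (((((ob i).add (oa i)).mul ((ob j).sub (oa j))).add
      (((ob i).sub (oa i)).mul ((ob j).add (oa j)))).add
      ((O.one_low (r := r + r) (by omega)).cmul 2)))
    rw [← two_eq, h1] at h2
    have h3 := (h2.congr (show -r + -r + (r + r) = 0 by omega) rfl rfl).uniq
      (O.const ((2 * L.G i j : ℝ) : ℂ))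
    rw [hB0 i, hB0 j] at h3
    push_cast at h3
    have h4 : (x * A i) * (y * A j) = -(L.G i j : ℂ) := by linear_combination (-1 / 2 : ℂ) * h3
    have h5 : (L.G i j : ℂ) ^ 2 = (L.G i i : ℂ) * (L.G j j : ℂ) := by
      have : ((x * A i) * (y * A j)) ^ 2 = (x * A i) ^ 2 * (y * A j) ^ 2 := by ring
      rw [h4, ex, ey] at this
      linear_combination this
    have h6 : L.G i j ^ 2 = L.G i i * L.G j j := by exact_mod_cast h5
    exact (L.cs i j hij).ne h6
  have hA0 : ∀ j, A j = 0 := by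
    intro j
    by_contra hj
    have h1 : ∑ i, (L.μ i : ℂ) * A i = (L.μ j : ℂ) * A j := by
      rw [Finset.sum_eq_single j]
      · intro i _ hij
        by_cases hi : A i = 0
        · rw [hi, mul_zero]
        · exact absurd (huniq i j hi hj) hij
      · intro h
        exact absurd (Finset.mem_univ j) h
    rw [r3, hκ0, mul_zero] at h1
    have h2 : (L.μ j : ℂ) ≠ 0 := by exact_mod_cast (L.hμ j).ne'
    exact (mul_ne_zero h2 hj) h1.symm
  refine ⟨fun i hi => ?_, fun j i hi => ?_, fun j i hi => ?_⟩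
  · rcases (Int.lt_add_one_iff.1 hi).lt_or_eq with h | h
    · exact hK i h
    · rw [h]; exact hκ0
  · rcases (Int.lt_add_one_iff.1 hi).lt_or_eq with h | h
    · exact ha j i h
    · rw [h]; exact hA0 j
  · rcases (Int.lt_add_one_iff.1 hi).lt_or_eq with h | h
    · exact hb j i h
    · rw [h]; exact hB0 j

/-- some lower bound exists -/
theorem exists_P : ∃ r, L.P r := by
  obtain ⟨r1, h1⟩ := O.exists_lower Finset.univ L.al
  obtain ⟨r2, h2⟩ := O.exists_lower Finset.univ L.be
  obtain ⟨r3, h3⟩ := O.exists_lower Finset.univ (fun _ : Unit => L.K)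
  refine ⟨min r1 (min r2 r3), fun i hi => ?_, fun j i hi => ?_, fun j i hi => ?_⟩
  · exact h3 () (Finset.mem_univ _) i (by omega)
  · exact h1 j (Finset.mem_univ _) i (by omega)
  · exact h2 j (Finset.mem_univ _) i (by omega)

theorem stepA' {ν : ℤ} {φ₀ : ℂ} (hφ : O ν L.φ φ₀) : L.P (min ν 0) := by
  obtain ⟨r, hr⟩ := L.exists_P
  by_cases h : r ≤ min ν 0
  · obtain ⟨n, hn⟩ := Int.le.dest h
    have key : ∀ k : ℕ, k ≤ n → L.P (r + k) := by
      intro k
      induction k with
      | zero => intro _; simpa using hr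
      | succ k ih =>
        intro hk
        have h1 := L.stepA hφ (r := r + k) (by omega) (by omega) (ih (by omega))
        push_cast
        rw [← add_assoc]
        exact h1
    have := key n le_rfl
    rwa [hn] at this
  · refine ⟨fun i hi => hr.1 i (by omega), fun j i hi => hr.2.1 j i (by omega),
      fun j i hi => hr.2.2 j i (by omega)⟩

end Loc

end Helper772Sph
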