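import Mathlib
import Pool.Agent.Helper772_Sph.Place

set_option autoImplicit false

open HahnSeries
open Pool.Agent.Y226.ZG (LS eul eul_coeff eul_add eul_mul eul_zero eul_C)

namespace Helper772Sph

namespace Loc

variable {ι : Type} [Fintype ι] (L : Loc ι)

/-- There is no balance with a nonzero leading coefficient of `K`. -/
theorem stepB1 {ν : ℤ} {φ₀ : ℂ} (hφ : O ν L.φ φ₀) (hν : ν < 0) (hP : L.P ν) :
    L.K.coeff ν = 0 := by
  obtain ⟨hK, ha, hb⟩ := hP
  set κ := L.K.coeff ν with hκ
  set A : ι → ℂ := fun j => (L.al j).coeff ν with hA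
  set B : ι → ℂ := fun j => (L.be j).coeff ν with hB
  have oK : O ν L.K κ := ⟨hK, rfl⟩
  have oa : ∀ j, O ν (L.al j) (A j) := fun j => ⟨ha j, rfl⟩
  have ob : ∀ j, O ν (L.be j) (B j) := fun j => ⟨hb j, rfl⟩
  set v : ℂ := φ₀ * ν with hv
  have r1 : ∀ j, v * A j + (κ + A j) * B j = 0 := by
    intro j
    have h1 : O (ν + ν) (L.φ * eul (L.al j)) (φ₀ * (ν * A j)) := hφ.mul (oa j).eul
    have h2 := (((oK.add (oa j)).mul (ob j)).neg)
    rw [← L.dal] at h2
    have := h1.uniq h2
    rw [hv]
    linear_combination this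
  have r2 : ∀ j, v * B j + B j * B j + κ * A j = 0 := by
    intro j
    have h1 : O (ν + ν) (L.φ * eul (L.be j)) (φ₀ * (ν * B j)) := hφ.mul (ob j).eul
    have h2 := ((((ob j).mul (ob j)).neg).sub (oK.mul (oa j))).sub
      (O.one_low (r := ν + ν) (by omega))
    rw [← L.dbe] at h2
    have := h1.uniq h2
    rw [hv]
    linear_combination this
  have r3 : ∑ j, (L.μ j : ℂ) * A j = 3 * κ := by
    have h1 := O.sum Finset.univ (fun j _ => (oa j).cmul (L.μ j : ℂ))
    rw [L.e1, three_eq] at h1
    exact h1.uniq (oK.cmul 3)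
  have r4 : v * κ * ∑ j, (L.μ j : ℂ) * B j + ∑ j, (L.μ j : ℂ) * ((κ + A j) * (B j * B j)) +
      3 * (κ * (κ * κ)) + 2 * (κ * ∑ j, (L.μ j : ℂ) * (A j * A j)) = 0 := by
    have h1 := (hφ.mul oK.eul).mul (O.sum Finset.univ (fun j _ => (ob j).cmul (L.μ j : ℂ)))
    have h2 := O.sum Finset.univ (fun j _ =>
      ((oK.add (oa j)).mul ((ob j).mul (ob j))).cmul (L.μ j : ℂ))
    have h3 := (oK.mul (oK.mul oK)).cmul 3
    have h4 := (oK.mul (O.sum Finset.univ (fun j _ =>
      ((oa j).mul (oa j)).cmul (L.μ j : ℂ)))).cmul 2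
    have h5 := (oK.cmul ((2 * ∑ j, L.μ j + 3 : ℝ) : ℂ)).low (s := ν + ν + ν) (by omega)
    rw [← two_eq] at h4
    rw [← three_eq] at h3
    have h6 := ((((h1.add (h2.congr (by ring) rfl rfl)).add (h3.congr (by ring) rfl rfl)).add
      (h4.congr (by ring) rfl rfl)).add h5)
    have h7 := L.e2
    rw [h7] at h6
    have := h6.uniq O.zero
    rw [hv]
    linear_combination this
  by_contra hne
  have s1 : ∀ j, (A j + B j) * (v + B j + κ) = 0 := fun j => by
    linear_combination r1 j + r2 j
  have s2 : ∀ j, (A j - B j) * (v + B j - κ) = 0 := fun j => by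
    linear_combination r1 j - r2 j
  have T : ∀ j, v * κ * B j + (κ + A j) * (B j * B j) + 2 * κ * (A j * A j) =
      -(2 * κ ^ 2 - v ^ 2) * A j := by
    intro j
    rcases mul_eq_zero.1 (s1 j) with h1 | h1
    · rcases mul_eq_zero.1 (s2 j) with h2 | h2
      · have e1 : A j = 0 := by linear_combination (1 / 2 : ℂ) * h1 + (1 / 2 : ℂ) * h2
        have e2 : B j = 0 := by linear_combination (1 / 2 : ℂ) * h1 - (1 / 2 : ℂ) * h2
        rw [e1, e2]; ring
      · have e1 : A j = -B j := by linear_combination h1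
        have e2 : B j = κ - v := by linear_combination h2
        rw [e1, e2]; ring
    · rcases mul_eq_zero.1 (s2 j) with h2 | h2
      · have e1 : A j = B j := by linear_combination h2
        have e2 : B j = -κ - v := by linear_combination h1
        rw [e1, e2]; ring
      · exfalso
        apply hne
        linear_combination (1 / 2 : ℂ) * h1 - (1 / 2 : ℂ) * h2
  have r5 : 3 * κ * (κ ^ 2 - (2 * κ ^ 2 - v ^ 2)) = 0 := by
    have h1 : v * κ * ∑ j, (L.μ j : ℂ) * B j + ∑ j, (L.μ j : ℂ) * ((κ + A j) * (B j * B j)) +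
        2 * (κ * ∑ j, (L.μ j : ℂ) * (A j * A j)) =
        -(2 * κ ^ 2 - v ^ 2) * ∑ j, (L.μ j : ℂ) * A j := by
      simp only [Finset.mul_sum, ← Finset.sum_add_distrib]
      refine Finset.sum_congr rfl fun j _ => ?_
      linear_combination (L.μ j : ℂ) * T j
    rw [r3] at h1
    linear_combination r4 - h1
  have r6 : κ ^ 2 = v ^ 2 := by
    have h3 : (3 * κ : ℂ) ≠ 0 := mul_ne_zero (by norm_num) hne
    have := (mul_eq_zero.1 r5).resolve_left h3
    linear_combination -this
  have hv0 : v ≠ 0 := by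
    intro h
    rw [h] at r6
    exact hne (pow_eq_zero_iff two_ne_zero |>.1 (r6.trans (by ring)))
  -- final contradiction
  have fin : ∀ w : ℂ, w ≠ 0 → (∀ j, A j = 0 ∨ A j = -2 * w) → (3 : ℂ) * κ = 3 * w → False := by
    intro w hw h1 h2
    have h3 : ∀ j, ∃ e : ℝ, 0 ≤ e ∧ A j = -2 * w * e := by
      intro j
      rcases h1 j with h | h
      · exact ⟨0, le_rfl, by rw [h]; simp⟩
      · exact ⟨1, zero_le_one, by rw [h]; simp⟩
    choose e he1 he2 using h3
    have h4 : ∑ j, (L.μ j : ℂ) * A j = -2 * w * ((∑ j, L.μ j * e j : ℝ) : ℂ) := by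
      push_cast
      rw [Finset.mul_sum]
      refine Finset.sum_congr rfl fun j _ => ?_
      rw [he2 j]
      ring
    rw [r3, h2] at h4
    have h5 : ((∑ j, L.μ j * e j : ℝ) : ℂ) = ((-3 / 2 : ℝ) : ℂ) := by
      apply mul_left_cancel₀ hw
      push_cast
      push_cast at h4
      linear_combination (1 / 2 : ℂ) * h4
    have h6 : (∑ j, L.μ j * e j : ℝ) = -3 / 2 := by exact_mod_cast h5
    have h7 : 0 ≤ ∑ j, L.μ j * e j :=
      Finset.sum_nonneg fun j _ => mul_nonneg (L.hμ j).le (he1 j)
    linarith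
  have h1 : (κ - v) * (κ + v) = 0 := by linear_combination r6
  rcases mul_eq_zero.1 h1 with h | h
  · have hκv : κ = v := sub_eq_zero.1 h
    refine fin v hv0 (fun j => ?_) (by rw [hκv])
    have s1' := s1 j
    have s2' := s2 j
    rw [hκv] at s1' s2'
    rcases mul_eq_zero.1 s2' with h2 | h2
    · rcases mul_eq_zero.1 s1' with h3 | h3
      · left
        linear_combination (1 / 2 : ℂ) * h2 + (1 / 2 : ℂ) * h3
      · right
        linear_combination h2 + h3
    · have hB0 : B j = 0 := by linear_combination h2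
      rw [hB0] at s1'
      left
      have h4 : A j * (2 * v) = 0 := by linear_combination s1'
      exact (mul_eq_zero.1 h4).resolve_right (mul_ne_zero two_ne_zero hv0)
  · have hκv : κ = -v := by linear_combination h
    refine fin (-v) (neg_ne_zero.2 hv0) (fun j => ?_) (by rw [hκv])
    have s1' := s1 j
    have s2' := s2 j
    rw [hκv] at s1' s2'
    rcases mul_eq_zero.1 s1' with h2 | h2
    · rcases mul_eq_zero.1 s2' with h3 | h3
      · left
        linear_combination (1 / 2 : ℂ) * h2 + (1 / 2 : ℂ) * h3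
      · right
        linear_combination h2 - h3
    · have hB0 : B j = 0 := by linear_combination h2
      rw [hB0] at s2'
      left
      have h4 : A j * (2 * v) = 0 := by linear_combination s2'
      exact (mul_eq_zero.1 h4).resolve_right (mul_ne_zero two_ne_zero hv0)

end Loc

end Helper772Sph
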