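import Mathlib
import Pool.Agent.Helper772_Sph.PlaceB1

set_option autoImplicit false

open HahnSeries
open Pool.Agent.Y226.ZG (LS eul eul_coeff eul_add eul_mul eul_zero eul_C)

namespace Helper772Sph

/-- term by term integration -/
noncomputable def prim (f : LS ℂ) : LS ℂ where
  coeff i := f.coeff i / i
  isPWO_support' := f.isPWO_support.mono (fun i hi h => hi (by
    have : f.coeff i = 0 := h
    simp [this]))

theorem prim_coeff (f : LS ℂ) (i : ℤ) : (prim f).coeff i = f.coeff i / i := rfl

theorem eul_prim {f : LS ℂ} (h : f.coeff 0 = 0) : eul (prim f) = f := by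
  ext i
  rw [eul_coeff, prim_coeff]
  by_cases hi : i = 0
  · subst hi
    rw [h]; simp
  · have : (i : ℂ) ≠ 0 := by exact_mod_cast hi
    field_simp

theorem O_prim {r : ℤ} {f : LS ℂ} {a : ℂ} (h : O r f a) : O r (prim f) (a / r) := by
  refine ⟨fun i hi => ?_, ?_⟩
  · rw [prim_coeff, h.1 i hi, zero_div]
  · rw [prim_coeff, h.2]

/-- elementary estimate on roots of a quadratic with negative discriminant -/
theorem quad_norm {a b : ℂ} (ha : a ≠ 0) (hb : b ≠ 0) {p q g : ℝ} (hp : 0 < p)
    (hq : 0 < q) (hg : g ^ 2 < p * q) (h : a * (q / b) + b * (p / a) = 2 * g) :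
    Complex.normSq a * q = Complex.normSq b * p := by
  set u : ℂ := a / b with hu
  have hu0 : u ≠ 0 := div_ne_zero ha hb
  have h1 : (q : ℂ) * u ^ 2 - 2 * g * u + p = 0 := by
    have h2 : a * (q / b) + b * (p / a) = q * u + p / u := by
      rw [hu]; field_simp
    rw [h2] at h
    have h3 : (q * u + p / u - 2 * g) * u = 0 := by rw [h]; ring
    have h4 : (q * u + p / u - 2 * g) * u = (q : ℂ) * u ^ 2 - 2 * g * u + p := by
      field_simp
      ring
    rw [← h4, h3]
  have hre := congrArg Complex.re h1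
  have him := congrArg Complex.im h1
  simp [pow_two] at hre him
  -- normSq u * q = p
  have h5 : (u.re * u.re + u.im * u.im) * q = p := by
    by_cases hi : u.im = 0
    · exfalso
      rw [hi] at hre
      have h6 : q * (u.re * u.re) - 2 * g * u.re + p = 0 := by linarith
      have h7 : (q * u.re - g) ^ 2 = g ^ 2 - p * q := by nlinarith
      nlinarith [sq_nonneg (q * u.re - g)]
    · have h6 : u.im * (2 * q * u.re - 2 * g) = 0 := by linarith
      have h7 := (mul_eq_zero.1 h6).resolve_left hi
      have h8 : q * u.re = g := by linarith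
      linear_combination -hre + 2 * u.re * h8
  have h9 : Complex.normSq a = Complex.normSq u * Complex.normSq b := by
    rw [← Complex.normSq_mul, hu, div_mul_cancel₀ _ hb]
  rw [h9, Complex.normSq_apply u]
  calc (u.re * u.re + u.im * u.im) * Complex.normSq b * q
      = Complex.normSq b * ((u.re * u.re + u.im * u.im) * q) := by ring
    _ = _ := by rw [h5]

/-- real part of `(a - G/a)/(a + G/a)` -/
theorem re_sign {a x : ℂ} (ha : a ≠ 0) {g : ℝ} (hg : 0 < g)
    (h : x * (a + g / a) = a - g / a) (hne : a + g / a ≠ 0) :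
    x.re * Complex.normSq (a ^ 2 + g) = Complex.normSq a ^ 2 - g ^ 2 ∧
      0 < Complex.normSq (a ^ 2 + g) := by
  have h1 : x * (a ^ 2 + g) = a ^ 2 - g := by
    have e1 : a * (a + g / a) = a ^ 2 + g := by field_simp
    have e2 : a * (a - g / a) = a ^ 2 - g := by field_simp
    rw [← e1, ← e2, ← h]; ring
  have h2 : a ^ 2 + g ≠ 0 := by
    have e1 : a * (a + g / a) = a ^ 2 + g := by field_simp
    rw [← e1]
    exact mul_ne_zero ha hne
  refine ⟨?_, Complex.normSq_pos.2 h2⟩
  have h3 : x * (Complex.normSq (a ^ 2 + g) : ℂ) = (a ^ 2 - g) * (starRingEnd ℂ) (a ^ 2 + g) := by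
    rw [Complex.normSq_eq_conj_mul_self, ← h1]
    ring
  have h4 := congrArg Complex.re h3
  rw [Complex.mul_re, Complex.ofReal_re, Complex.ofReal_im, mul_zero, sub_zero] at h4
  rw [h4]
  simp only [map_add, map_pow, Complex.conj_ofReal, Complex.normSq_apply]
  have : (starRingEnd ℂ) a = ⟨a.re, -a.im⟩ := rfl
  rw [this]
  simp [pow_two]
  ring

end Helper772Sph
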