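import Mathlib
import Pool.Agent.Helper772_Sph.PlaceB2

set_option autoImplicit false

open HahnSeries
open Pool.Agent.Y226.ZG (LS eul eul_coeff eul_add eul_mul eul_zero eul_C)

namespace Helper772Sph

theorem two_mul_C (g : ℝ) : (C ((2 * g : ℝ) : ℂ) : LS ℂ) = 2 * C (g : ℂ) := by
  rw [two_eq, ← map_mul]
  push_cast
  rfl

/-- data after rescaling by the local time `s` -/
structure Loc2 (ι : Type) [Fintype ι] where
  n : ℤ
  hn : 0 < n
  s : LS ℂ
  s₀ : ℂ
  os : O n s s₀
  ω : LS ℂ
  oω : O 0 ω (1 / n)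
  μ : ι → ℝ
  hμ : ∀ j, 0 < μ j
  Z : LS ℂ
  oZ : O 0 Z 0
  X : ι → LS ℂ
  Y : ι → LS ℂ
  hp : ι → LS ℂ
  hm : ι → LS ℂ
  l : ι → LS ℂ
  G : ι → ι → ℝ
  lX : ∀ j, ∀ i < 0, (X j).coeff i = 0
  lY : ∀ j, ∀ i < 0, (Y j).coeff i = 0
  dX : ∀ j, ω * eul (X j) = X j - (Z + X j) * Y j
  dY : ∀ j, ω * eul (Y j) = Y j - Y j * Y j - Z * X j - s * s
  dl : ∀ j, 2 * (ω * eul (l j)) = s * (hp j + hm j)
  dp : ∀ j, ω * eul (hp j) = -(s * l j) - Z * hp j
  dm : ∀ j, ω * eul (hm j) = -(s * l j) + Z * hm j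
  hal : ∀ j, X j * (2 * l j) = s * (hp j - hm j)
  hbe : ∀ j, Y j * (2 * l j) = s * (hp j + hm j)
  hab : ∀ j, X j * (hp j + hm j) = Y j * (hp j - hm j)
  gram : ∀ i j, hp i * hm j + hm i * hp j + 2 * (l i * l j) = C ((2 * G i j : ℝ) : ℂ)
  gpos : ∀ j, 0 < G j j
  cs : ∀ i j, i ≠ j → G i j ^ 2 < G i i * G j j
  e1 : ∑ j, C ((μ j : ℝ) : ℂ) * X j = 3 * Z

namespace Loc2

variable {ι : Type} [Fintype ι] (L : Loc2 ι)

/-- all frame functions are regular -/
def R (r : ℤ) (j : ι) : Prop :=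
  (∀ i < r, (L.l j).coeff i = 0) ∧ (∀ i < r, (L.hp j).coeff i = 0) ∧
    ∀ i < r, (L.hm j).coeff i = 0

theorem n_ne : (L.n : ℂ) ≠ 0 := by exact_mod_cast L.hn.ne'

theorem regular (j : ι) : L.R 0 j := by
  obtain ⟨r1, h1⟩ := O.exists_lower Finset.univ
    (fun k : Fin 3 => if k = 0 then L.l j else if k = 1 then L.hp j else L.hm j)
  have hR : L.R r1 j := by
    refine ⟨fun i hi => ?_, fun i hi => ?_, fun i hi => ?_⟩
    · simpa using h1 0 (Finset.mem_univ _) i hi
    · simpa using h1 1 (Finset.mem_univ _) i hi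
    · simpa using h1 2 (Finset.mem_univ _) i hi
  have step : ∀ r < 0, L.R r j → L.R (r + 1) j := by
    intro r hr h
    set a := (L.l j).coeff r with ha
    set b := (L.hp j).coeff r with hb
    set c := (L.hm j).coeff r with hc
    have ol : O r (L.l j) a := ⟨h.1, rfl⟩
    have op : O r (L.hp j) b := ⟨h.2.1, rfl⟩
    have om : O r (L.hm j) c := ⟨h.2.2, rfl⟩
    have hrn : (1 / (L.n : ℂ)) * r ≠ 0 := by
      refine mul_ne_zero (one_div_ne_zero L.n_ne) ?_
      exact_mod_cast hr.ne
    have e1 : a = 0 := by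
      have h1 := ((L.oω.mul ol.eul).cmul 2).congr (zero_add r) rfl rfl
      rw [← two_eq, L.dl] at h1
      have h2 := ((L.os.mul (op.add om)).low (s := r) (by have := L.hn; omega))
      have h3 := h1.uniq h2
      have h4 : (2 : ℂ) * (1 / (L.n : ℂ) * r) * a = 0 := by linear_combination h3
      exact (mul_eq_zero.1 h4).resolve_left (mul_ne_zero two_ne_zero hrn)
    have e2 : b = 0 := by
      have h1 := (L.oω.mul op.eul).congr (zero_add r) rfl rfl
      rw [L.dp] at h1
      have h2 := ((L.os.mul ol).low (s := r) (by have := L.hn; omega)).neg.sub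
        ((L.oZ.mul op).congr (zero_add r) rfl rfl)
      have h3 := h1.uniq h2
      have h4 : (1 / (L.n : ℂ) * r) * b = 0 := by linear_combination h3
      exact (mul_eq_zero.1 h4).resolve_left hrn
    have e3 : c = 0 := by
      have h1 := (L.oω.mul om.eul).congr (zero_add r) rfl rfl
      rw [L.dm] at h1
      have h2 := ((L.os.mul ol).low (s := r) (by have := L.hn; omega)).neg.add
        ((L.oZ.mul om).congr (zero_add r) rfl rfl)
      have h3 := h1.uniq h2
      have h4 : (1 / (L.n : ℂ) * r) * c = 0 := by linear_combination h3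
      exact (mul_eq_zero.1 h4).resolve_left hrn
    refine ⟨fun i hi => ?_, fun i hi => ?_, fun i hi => ?_⟩
    · rcases (Int.lt_add_one_iff.1 hi).lt_or_eq with h' | h'
      · exact h.1 i h'
      · rw [h']; exact e1
    · rcases (Int.lt_add_one_iff.1 hi).lt_or_eq with h' | h'
      · exact h.2.1 i h'
      · rw [h']; exact e2
    · rcases (Int.lt_add_one_iff.1 hi).lt_or_eq with h' | h'
      · exact h.2.2 i h'
      · rw [h']; exact e3
  by_cases h : r1 ≤ 0
  · obtain ⟨n, hn⟩ := Int.le.dest h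
    have key : ∀ k : ℕ, k ≤ n → L.R (r1 + k) j := by
      intro k
      induction k with
      | zero => intro _; simpa using hR
      | succ k ih =>
        intro hk
        have h1 := step (r1 + k) (by omega) (ih (by omega))
        push_cast
        rw [← add_assoc]
        exact h1
    have := key n le_rfl
    rwa [hn] at this
  · exact ⟨fun i hi => hR.1 i (by omega), fun i hi => hR.2.1 i (by omega),
      fun i hi => hR.2.2 i (by omega)⟩

/-- dichotomy for the constant terms -/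
theorem const_terms (j : ι) :
    ((L.X j).coeff 0 = 0 ∧ (L.Y j).coeff 0 = 0) ∨ (L.Y j).coeff 0 = 1 := by
  have oX : O 0 (L.X j) ((L.X j).coeff 0) := ⟨L.lX j, rfl⟩
  have oY : O 0 (L.Y j) ((L.Y j).coeff 0) := ⟨L.lY j, rfl⟩
  have os : O 0 L.s 0 := L.os.low L.hn
  have h1 := (L.oω.mul oX.eul)
  rw [L.dX] at h1
  have h2 := h1.uniq (oX.sub ((L.oZ.add oX).mul oY))
  have h3 := (L.oω.mul oY.eul)
  rw [L.dY] at h3
  have h4 := h3.uniq (((oY.sub (oY.mul oY)).sub (L.oZ.mul oX)).sub (os.mul os))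
  have h5 : (L.Y j).coeff 0 * (1 - (L.Y j).coeff 0) = 0 := by
    push_cast at h4
    linear_combination -h4
  rcases mul_eq_zero.1 h5 with h | h
  · left
    refine ⟨?_, h⟩
    rw [h] at h2
    push_cast at h2
    linear_combination -h2
  · right
    linear_combination -h

/-- for `j` outside of `J` there is no low order term -/
theorem off_J (j : ι) (h0 : (L.X j).coeff 0 = 0 ∧ (L.Y j).coeff 0 = 0) {r : ℤ} (hr1 : 1 ≤ r)
    (hrn : r < L.n) : ∀ i ≤ r, (L.X j).coeff i = 0 := by
  have key : ∀ k : ℕ, (k : ℤ) < L.n → ∀ i : ℤ, i ≤ k →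
      (L.X j).coeff i = 0 ∧ (L.Y j).coeff i = 0 := by
    intro k
    induction k with
    | zero =>
      intro _ i hi
      rcases hi.lt_or_eq with h | h
      · exact ⟨L.lX j i (by simpa using h), L.lY j i (by simpa using h)⟩
      · rw [h]; exact h0
    | succ k ih =>
      intro hk i hi
      rcases hi.lt_or_eq with h | h
      · exact ih (by push_cast at hk; omega) i (by push_cast at h; omega)
      have ih' := ih (by push_cast at hk; omega)
      have oX : O (k + 1) (L.X j) ((L.X j).coeff (k + 1)) :=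
        ⟨fun i hi => (ih' i (by omega)).1, rfl⟩
      have oY : O (k + 1) (L.Y j) ((L.Y j).coeff (k + 1)) :=
        ⟨fun i hi => (ih' i (by omega)).2, rfl⟩
      have hq : (1 - 1 / (L.n : ℂ) * ((k + 1 : ℤ) : ℂ)) ≠ 0 := by
        have h1 := L.n_ne
        intro h2
        have h3 : (L.n : ℂ) = ((k + 1 : ℤ) : ℂ) := by
          field_simp at h2
          linear_combination h2
        have h4 : L.n = k + 1 := by exact_mod_cast h3
        push_cast at hk
        omega
      have h1 := (L.oω.mul oX.eul).congr (zero_add _) rfl rfl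
      rw [L.dX] at h1
      have h2 := h1.uniq (oX.sub (((L.oZ.add (oX.low (s := 0) (by omega))).mul oY).congr
        (zero_add _) rfl rfl))
      have h3 := (L.oω.mul oY.eul).congr (zero_add _) rfl rfl
      rw [L.dY] at h3
      have h4 := h3.uniq (((oY.sub ((oY.mul oY).low (s := k + 1) (by omega))).sub
        ((L.oZ.mul oX).congr (zero_add _) rfl rfl)).sub
        ((L.os.mul L.os).low (s := k + 1) (by push_cast at hk; omega)))
      have e1 : (1 - 1 / (L.n : ℂ) * ((k + 1 : ℤ) : ℂ)) * (L.X j).coeff (k + 1) = 0 := by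
        linear_combination -h2
      have e2 : (1 - 1 / (L.n : ℂ) * ((k + 1 : ℤ) : ℂ)) * (L.Y j).coeff (k + 1) = 0 := by
        linear_combination -h4
      rw [h]
      push_cast
      exact ⟨(mul_eq_zero.1 e1).resolve_left hq, (mul_eq_zero.1 e2).resolve_left hq⟩
  intro i hi
  have := key r.toNat (by omega) i (by omega)
  exact this.1

/-- the leading coefficient for `j ∈ J` -/
theorem on_J (j : ι) (h0 : (L.Y j).coeff 0 = 1) {r : ℤ} (hr1 : 1 ≤ r)
    (hrn : r < L.n) (hZ : ∀ i < r, L.Z.coeff i = 0) :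
    (1 / (L.n : ℂ) * r) * (L.X j).coeff r =
      -(L.Z.coeff r) * (1 - (L.X j).coeff 0 ^ 2 / (1 + 1 / (L.n : ℂ) * r)) := by
  set x0 := (L.X j).coeff 0 with hx0
  have oZ : O r L.Z (L.Z.coeff r) := ⟨hZ, rfl⟩
  have nn := L.n_ne
  have n1 : ∀ k : ℤ, 0 ≤ k → (1 + 1 / (L.n : ℂ) * (k : ℂ)) ≠ 0 := by
    intro k hk h2
    have h3 : (L.n : ℂ) + k = 0 := by
      field_simp at h2
      linear_combination h2
    have h4 : L.n + k = 0 := by exact_mod_cast h3
    have := L.hn
    omega
  have e1 : eul (1 : LS ℂ) = 0 := Pool.Agent.Y226.ZG.eul_one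
  -- deviations
  set x : LS ℂ := L.X j - C x0 with hx
  set y : LS ℂ := L.Y j - 1 with hy
  have dx : L.ω * eul x = -L.Z - L.Z * y - L.X j * y := by
    rw [hx, eul_sub, eul_C, sub_zero, L.dX, hy]
    ring
  have dy : L.ω * eul y = -y - y * y - L.Z * L.X j - L.s * L.s := by
    rw [hy, eul_sub, e1, sub_zero, L.dY]
    ring
  have oX0 : O 0 (L.X j) x0 := ⟨L.lX j, rfl⟩
  have oY0 : O 0 (L.Y j) 1 := ⟨L.lY j, h0⟩
  have ox0 : O 0 x 0 := (oX0.sub (O.const x0)).congr rfl rfl (sub_self _)
  have oy0 : O 0 y 0 := (oY0.sub O.one).congr rfl rfl (sub_self _)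
  have key : ∀ k : ℕ, (k : ℤ) < r → ∀ i : ℤ, i ≤ k → x.coeff i = 0 ∧ y.coeff i = 0 := by
    intro k
    induction k with
    | zero =>
      intro _ i hi
      rcases hi.lt_or_eq with h | h
      · exact ⟨ox0.1 i (by simpa using h), oy0.1 i (by simpa using h)⟩
      · rw [h]; exact ⟨ox0.2, oy0.2⟩
    | succ k ih =>
      intro hk i hi
      rcases hi.lt_or_eq with h | h
      · exact ih (by push_cast at hk; omega) i (by push_cast at h; omega)
      have ih' := ih (by push_cast at hk; omega)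
      have ox : O (k + 1) x (x.coeff (k + 1)) := ⟨fun i hi => (ih' i (by omega)).1, rfl⟩
      have oy : O (k + 1) y (y.coeff (k + 1)) := ⟨fun i hi => (ih' i (by omega)).2, rfl⟩
      have hk' : (k : ℤ) + 1 < r := by push_cast at hk; omega
      have h3 := (L.oω.mul oy.eul).congr (zero_add _) rfl rfl
      rw [dy] at h3
      have h4 := h3.uniq (((oy.neg.sub ((oy.mul oy).low (s := k + 1) (by omega))).sub
        ((oZ.mul oX0).low (s := k + 1) (by omega))).sub
        ((L.os.mul L.os).low (s := k + 1) (by omega)))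
      have e2 : (1 + 1 / (L.n : ℂ) * ((k + 1 : ℤ) : ℂ)) * y.coeff (k + 1) = 0 := by
        linear_combination h4
      have e3 := (mul_eq_zero.1 e2).resolve_left (n1 _ (by omega))
      rw [e3] at oy
      have h1 := (L.oω.mul ox.eul).congr (zero_add _) rfl rfl
      rw [dx] at h1
      have h2 := h1.uniq ((((oZ.low hk').neg).sub
        ((oZ.mul oy0).low (s := k + 1) (by omega))).sub
        ((oX0.mul oy).congr (zero_add _) rfl rfl))
      have e4 : (1 / (L.n : ℂ) * ((k + 1 : ℤ) : ℂ)) * x.coeff (k + 1) = 0 := by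
        linear_combination h2
      have e5 : (1 / (L.n : ℂ) * ((k + 1 : ℤ) : ℂ)) ≠ 0 := by
        refine mul_ne_zero (one_div_ne_zero nn) ?_
        have : (k : ℤ) + 1 ≠ 0 := by omega
        exact_mod_cast this
      rw [h]
      push_cast
      exact ⟨(mul_eq_zero.1 e4).resolve_left e5, e3⟩
  have key' : ∀ i < r, x.coeff i = 0 ∧ y.coeff i = 0 := by
    intro i hi
    exact key (r - 1).toNat (by omega) i (by omega)
  have ox : O r x (x.coeff r) := ⟨fun i hi => (key' i hi).1, rfl⟩
  have oy : O r y (y.coeff r) := ⟨fun i hi => (key' i hi).2, rfl⟩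
  have h3 := (L.oω.mul oy.eul).congr (zero_add _) rfl rfl
  rw [dy] at h3
  have h4 := h3.uniq (((oy.neg.sub ((oy.mul oy).low (s := r) (by omega))).sub
    ((oZ.mul oX0).congr (add_zero _) rfl rfl)).sub
    ((L.os.mul L.os).low (s := r) (by omega)))
  have h1 := (L.oω.mul ox.eul).congr (zero_add _) rfl rfl
  rw [dx] at h1
  have h2 := h1.uniq ((oZ.neg.sub
    ((oZ.mul oy0).congr (add_zero _) rfl rfl)).sub
    ((oX0.mul oy).congr (zero_add _) rfl rfl))
  have h5 : x.coeff r = (L.X j).coeff r := by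
    rw [hx, coeff_sub, C_apply, coeff_single_of_ne (by omega), sub_zero]
  rw [h5] at h2
  have h6 : y.coeff r = -(L.Z.coeff r * x0) / (1 + 1 / (L.n : ℂ) * r) := by
    rw [eq_div_iff (n1 r (by omega))]
    linear_combination h4
  rw [h6] at h2
  have n2 := n1 r (by omega)
  rw [← mul_assoc] at h2
  rw [h2]
  field_simp
  ring

end Loc2

end Helper772Sph
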