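import Mathlib
import Pool.Agent.Helper772_Sph.PlaceB3

set_option autoImplicit false

open HahnSeries
open Pool.Agent.Y226.ZG (LS eul eul_coeff eul_add eul_mul eul_zero eul_C)

namespace Helper772Sph

namespace Loc2

variable {ι : Type} [Fintype ι] (L : Loc2 ι)

theorem real_part (j : ι) (hj : (L.Y j).coeff 0 = 1) : ((L.X j).coeff 0).re = 0 := by
  classical
  have oX : ∀ j, O 0 (L.X j) ((L.X j).coeff 0) := fun j => ⟨L.lX j, rfl⟩
  have oY : ∀ j, O 0 (L.Y j) ((L.Y j).coeff 0) := fun j => ⟨L.lY j, rfl⟩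
  have ol : ∀ j, O 0 (L.l j) ((L.l j).coeff 0) := fun j => ⟨(L.regular j).1, rfl⟩
  have op : ∀ j, O 0 (L.hp j) ((L.hp j).coeff 0) := fun j => ⟨(L.regular j).2.1, rfl⟩
  have om : ∀ j, O 0 (L.hm j) ((L.hm j).coeff 0) := fun j => ⟨(L.regular j).2.2, rfl⟩
  have os : O 0 L.s 0 := L.os.low L.hn
  set x0 : ι → ℂ := fun j => (L.X j).coeff 0 with hx0
  set a : ι → ℂ := fun j => (L.hp j).coeff 0 with ha
  set b : ι → ℂ := fun j => (L.hm j).coeff 0 with hb
  have l0 : ∀ j, (L.Y j).coeff 0 = 1 → (L.l j).coeff 0 = 0 := by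
    intro j hj
    have h1 := (oY j).mul ((ol j).cmul 2)
    rw [← two_eq, L.hbe] at h1
    have h2 := h1.uniq (os.mul ((op j).add (om j)))
    rw [hj] at h2
    linear_combination (1 / 2 : ℂ) * h2
  have gr : ∀ i j, (L.Y i).coeff 0 = 1 → (L.Y j).coeff 0 = 1 →
      a i * b j + b i * a j = 2 * (L.G i j : ℂ) := by
    intro i j hi hj
    have h1 := (((op i).mul (om j)).add ((om i).mul (op j))).add
      (((ol i).mul (ol j)).cmul 2)
    rw [← two_eq, L.gram, l0 i hi] at h1
    have h2 := h1.uniq (O.const _)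
    push_cast at h2
    linear_combination h2
  have ab : ∀ j, (L.Y j).coeff 0 = 1 → a j ≠ 0 ∧ b j = (L.G j j : ℂ) / a j := by
    intro j hj
    have h1 := gr j j hj hj
    have h2 : a j * b j = (L.G j j : ℂ) := by linear_combination (1 / 2 : ℂ) * h1
    have h3 : (L.G j j : ℂ) ≠ 0 := by exact_mod_cast (L.gpos j).ne'
    have h4 : a j ≠ 0 := by
      intro h
      rw [h, zero_mul] at h2
      exact h3 h2.symm
    refine ⟨h4, ?_⟩
    rw [eq_div_iff h4]
    linear_combination h2
  have xa : ∀ j, (L.Y j).coeff 0 = 1 →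
      x0 j * (a j + (L.G j j : ℂ) / a j) = a j - (L.G j j : ℂ) / a j ∧
      a j + (L.G j j : ℂ) / a j ≠ 0 := by
    intro j hj
    have h1 := (oX j).mul ((op j).add (om j))
    rw [L.hab] at h1
    have h2 := h1.uniq ((oY j).mul ((op j).sub (om j)))
    rw [hj, one_mul] at h2
    obtain ⟨h3, h4⟩ := ab j hj
    rw [← h4]
    refine ⟨h2, fun h5 => ?_⟩
    have h6 : x0 j * (a j + b j) = a j - b j := h2
    rw [h5, mul_zero] at h6
    have h7 : a j = 0 := by linear_combination (1 / 2 : ℂ) * h5 - (1 / 2 : ℂ) * h6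
    exact h3 h7
  have sgn : ∀ j, (L.Y j).coeff 0 = 1 →
      (x0 j).re * Complex.normSq (a j ^ 2 + (L.G j j : ℂ)) =
        Complex.normSq (a j) ^ 2 - L.G j j ^ 2 ∧
      0 < Complex.normSq (a j ^ 2 + (L.G j j : ℂ)) := by
    intro j hj
    exact re_sign (ab j hj).1 (L.gpos j) (xa j hj).1 (xa j hj).2
  have prop : ∀ i j, (L.Y i).coeff 0 = 1 → (L.Y j).coeff 0 = 1 →
      Complex.normSq (a i) * L.G j j = Complex.normSq (a j) * L.G i i := by
    intro i j hi hj
    by_cases hij : i = j
    · rw [hij]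
    · have h1 := gr i j hi hj
      rw [(ab i hi).2, (ab j hj).2] at h1
      refine quad_norm (ab i hi).1 (ab j hj).1 (L.gpos i) (L.gpos j) (L.cs i j hij) ?_
      rw [← h1]
      ring
  have hsum : ∑ j, L.μ j * (x0 j).re = 0 := by
    have h1 := O.sum Finset.univ (fun j _ => (oX j).cmul (L.μ j : ℂ))
    rw [L.e1, three_eq] at h1
    have h2 := h1.uniq (L.oZ.cmul 3)
    rw [mul_zero] at h2
    have h3 := congrArg Complex.re h2
    rw [Complex.re_sum] at h3
    simp only [Complex.re_ofReal_mul, Complex.zero_re] at h3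
    exact h3
  have offre : ∀ i, (L.Y i).coeff 0 ≠ 1 → (x0 i).re = 0 := by
    intro i hi
    rcases L.const_terms i with h | h
    · have h1 : x0 i = 0 := h.1
      rw [h1]; rfl
    · exact absurd h hi
  have gpos := L.gpos
  change (x0 j).re = 0
  rcases lt_trichotomy (x0 j).re 0 with h | h | h
  · exfalso
    obtain ⟨s1, s2⟩ := sgn j hj
    have h1 : Complex.normSq (a j) < L.G j j := by
      have := Complex.normSq_nonneg (a j)
      have h2 : (x0 j).re * Complex.normSq (a j ^ 2 + (L.G j j : ℂ)) < 0 :=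
        mul_neg_of_neg_of_pos h s2
      rw [s1] at h2
      nlinarith [gpos j]
    have h2 : ∀ i, (x0 i).re ≤ 0 := by
      intro i
      by_cases hi : (L.Y i).coeff 0 = 1
      · obtain ⟨t1, t2⟩ := sgn i hi
        have h3 := prop i j hi hj
        have h4 : Complex.normSq (a i) < L.G i i := by
          by_contra hcon
          push Not at hcon
          have h5 : Complex.normSq (a j) * L.G i i < L.G j j * L.G i i :=
            mul_lt_mul_of_pos_right h1 (gpos i)
          have h6 : L.G i i * L.G j j ≤ Complex.normSq (a i) * L.G j j :=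
            mul_le_mul_of_nonneg_right hcon (gpos j).le
          nlinarith
        have h5 := Complex.normSq_nonneg (a i)
        by_contra hcon
        push Not at hcon
        have h6 : 0 < (x0 i).re * Complex.normSq (a i ^ 2 + (L.G i i : ℂ)) := mul_pos hcon t2
        rw [t1] at h6
        nlinarith [gpos i]
      · rw [offre i hi]
    have h3 : ∑ i, L.μ i * (x0 i).re < 0 := by
      refine Finset.sum_neg' (fun i _ => mul_nonpos_of_nonneg_of_nonpos (L.hμ i).le (h2 i))
        ⟨j, Finset.mem_univ j, mul_neg_of_pos_of_neg (L.hμ j) h⟩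
    linarith
  · exact h
  · exfalso
    obtain ⟨s1, s2⟩ := sgn j hj
    have h1 : L.G j j < Complex.normSq (a j) := by
      have := Complex.normSq_nonneg (a j)
      have h2 : 0 < (x0 j).re * Complex.normSq (a j ^ 2 + (L.G j j : ℂ)) := mul_pos h s2
      rw [s1] at h2
      nlinarith [gpos j]
    have h2 : ∀ i, 0 ≤ (x0 i).re := by
      intro i
      by_cases hi : (L.Y i).coeff 0 = 1
      · obtain ⟨t1, t2⟩ := sgn i hi
        have h3 := prop i j hi hj
        have h4 : L.G i i < Complex.normSq (a i) := by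
          by_contra hcon
          push Not at hcon
          have h5 : L.G j j * L.G i i < Complex.normSq (a j) * L.G i i :=
            mul_lt_mul_of_pos_right h1 (gpos i)
          have h6 : Complex.normSq (a i) * L.G j j ≤ L.G i i * L.G j j :=
            mul_le_mul_of_nonneg_right hcon (gpos j).le
          nlinarith
        have h5 := Complex.normSq_nonneg (a i)
        by_contra hcon
        push Not at hcon
        have h6 : (x0 i).re * Complex.normSq (a i ^ 2 + (L.G i i : ℂ)) < 0 :=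
          mul_neg_of_neg_of_pos hcon t2
        rw [t1] at h6
        nlinarith [gpos i]
      · rw [offre i hi]
    have h3 : 0 < ∑ i, L.μ i * (x0 i).re := by
      refine Finset.sum_pos' (fun i _ => mul_nonneg (L.hμ i).le (h2 i))
        ⟨j, Finset.mem_univ j, mul_pos (L.hμ j) h⟩
    linarith

theorem stepZ {r : ℤ} (hr1 : 1 ≤ r) (hrn : r < L.n) (hZ : ∀ i < r, L.Z.coeff i = 0) :
    L.Z.coeff r = 0 := by
  classical
  set ε : ℝ := 1 / (L.n : ℝ) * r with hε
  have hnpos : (0 : ℝ) < L.n := by exact_mod_cast L.hn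
  have hrpos : (0 : ℝ) < r := by exact_mod_cast (by omega : (0 : ℤ) < r)
  have hεpos : 0 < ε := mul_pos (one_div_pos.2 hnpos) hrpos
  have hεc : (1 / (L.n : ℂ) * r) = (ε : ℂ) := by rw [hε]; push_cast; rfl
  have oZ : O r L.Z (L.Z.coeff r) := ⟨hZ, rfl⟩
  have h1 : ∀ j, ∃ w : ℝ, 0 ≤ w ∧ (ε : ℂ) * (L.X j).coeff r = -(L.Z.coeff r) * w := by
    intro j
    rcases L.const_terms j with h | h
    · refine ⟨0, le_rfl, ?_⟩
      rw [L.off_J j h hr1 hrn r le_rfl]
      simp
    · have h2 := L.on_J j h hr1 hrn hZ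
      rw [hεc] at h2
      have h3 := L.real_part j h
      set x := (L.X j).coeff 0 with hx
      have h4 : x ^ 2 = -((x.im ^ 2 : ℝ) : ℂ) := by
        have : x = x.im * Complex.I := by
          apply Complex.ext
          · simp [h3]
          · simp
        conv_lhs => rw [this]
        rw [mul_pow, Complex.I_sq]
        push_cast
        ring
      refine ⟨1 + x.im ^ 2 / (1 + ε), by positivity, ?_⟩
      rw [h2, h4]
      push_cast
      ring
  choose w hw1 hw2 using h1
  have h3 : ∑ j, (L.μ j : ℂ) * (L.X j).coeff r = 3 * L.Z.coeff r := by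
    have h5 := congrArg (fun f => f.coeff r) L.e1
    have h6 : (3 * L.Z).coeff r = 3 * L.Z.coeff r := by
      rw [three_eq]
      exact (oZ.cmul 3).2
    have h7 : (∑ j, C ((L.μ j : ℝ) : ℂ) * L.X j).coeff r =
        ∑ j, (C ((L.μ j : ℝ) : ℂ) * L.X j).coeff r := by
      rw [coeff_sum]
    change (∑ j, C ((L.μ j : ℝ) : ℂ) * L.X j).coeff r = (3 * L.Z).coeff r at h5
    rw [h6, h7] at h5
    rw [← h5]
    refine Finset.sum_congr rfl fun j _ => ?_
    rw [C_mul_eq_smul, coeff_smul, smul_eq_mul]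
  have h4 : (((3 * ε + ∑ j, L.μ j * w j : ℝ)) : ℂ) * L.Z.coeff r = 0 := by
    push_cast
    have h5 : ∑ j, (L.μ j : ℂ) * ((ε : ℂ) * (L.X j).coeff r) = (ε : ℂ) * (3 * L.Z.coeff r) := by
      rw [← h3, Finset.mul_sum]
      refine Finset.sum_congr rfl fun j _ => ?_
      ring
    simp only [hw2] at h5
    have h6 : ∑ j, (L.μ j : ℂ) * (-(L.Z.coeff r) * (w j : ℂ)) =
        -(∑ j, (L.μ j : ℂ) * (w j : ℂ)) * L.Z.coeff r := by
      rw [neg_mul, Finset.sum_mul, ← Finset.sum_neg_distrib]
      refine Finset.sum_congr rfl fun j _ => ?_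
      ring
    rw [h6] at h5
    linear_combination -h5
  rcases mul_eq_zero.1 h4 with h | h
  · exfalso
    have h5 : (3 * ε + ∑ j, L.μ j * w j : ℝ) = 0 := by exact_mod_cast h
    have h6 : 0 ≤ ∑ j, L.μ j * w j :=
      Finset.sum_nonneg fun j _ => mul_nonneg (L.hμ j).le (hw1 j)
    linarith
  · exact h

theorem Z_low (hZ0 : ∀ i < 1, L.Z.coeff i = 0) : ∀ i < L.n, L.Z.coeff i = 0 := by
  have key : ∀ k : ℕ, (k : ℤ) < L.n → ∀ i : ℤ, i ≤ k → L.Z.coeff i = 0 := by
    intro k
    induction k with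
    | zero => intro _ i hi; exact hZ0 i (by push_cast at hi; omega)
    | succ k ih =>
      intro hk i hi
      have ih' := ih (by push_cast at hk; omega)
      rcases hi.lt_or_eq with h | h
      · exact ih' i (by push_cast at h; omega)
      · rw [h]
        push_cast
        exact L.stepZ (r := k + 1) (by omega) (by push_cast at hk; omega)
          fun i hi => ih' i (by omega)
  intro i hi
  by_cases h : i < 0
  · exact hZ0 i (by omega)
  · exact key i.toNat (by omega) i (by omega)

end Loc2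

end Helper772Sph
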