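import Mathlib
import Pool.Agent.Helper772_Sph.PlaceEnd

set_option autoImplicit false

open HahnSeries
open Pool.Agent.Y226.ZG (LS eul eul_coeff eul_add eul_mul eul_zero eul_C)

namespace Helper772Sph

namespace Loc

variable {ι : Type} [Fintype ι] (L : Loc ι)

/-- At every place `K` is regular. -/
theorem K_regular : ∀ i < 0, L.K.coeff i = 0 := by
  obtain ⟨ν, φ₀, hφ, hφ0⟩ := O.of_ne L.hφ
  have hA := L.stepA' hφ
  by_cases hν : 0 ≤ ν
  · rw [min_eq_right hν] at hA
    exact hA.1
  push Not at hν
  rw [min_eq_left hν.le] at hA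
  have hK := L.stepB1 hφ hν hA
  have hn : 0 < -ν := by omega
  have hnc : ((-ν : ℤ) : ℂ) ≠ 0 := by exact_mod_cast hn.ne'
  -- local time
  have hψ : O (-ν) L.φ⁻¹ (1 / φ₀) := by
    refine hφ.div_left hφ0 (O.one.congr (by ring) ?_ rfl)
    rw [mul_inv_cancel₀ L.hφ]
  set s := prim L.φ⁻¹ with hs
  have es : eul s = L.φ⁻¹ := eul_prim (hψ.1 0 hn)
  have os : O (-ν) s (1 / φ₀ / ((-ν : ℤ) : ℂ)) := O_prim hψ
  have hs0 : (1 / φ₀ / ((-ν : ℤ) : ℂ)) ≠ 0 := div_ne_zero (one_div_ne_zero hφ0) hnc
  have hsne : s ≠ 0 := os.ne_zero hs0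
  have hone : L.φ * eul s = 1 := by rw [es, mul_inv_cancel₀ L.hφ]
  have oω : O 0 (s * L.φ) (1 / ((-ν : ℤ) : ℂ)) := by
    refine (os.mul hφ).congr (by ring) rfl ?_
    field_simp
  have oK : O (ν + 1) L.K (L.K.coeff (ν + 1)) := by
    refine ⟨fun i hi => ?_, rfl⟩
    rcases (Int.lt_add_one_iff.1 hi).lt_or_eq with h | h
    · exact hA.1 i h
    · rw [h]; exact hK
  have oZ1 : O 1 (s * L.K) (1 / φ₀ / ((-ν : ℤ) : ℂ) * L.K.coeff (ν + 1)) :=
    (os.mul oK).congr (by ring) rfl rfl
  have oX : ∀ j, O 0 (s * L.al j) (1 / φ₀ / ((-ν : ℤ) : ℂ) * (L.al j).coeff ν) := fun j =>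
    (os.mul ⟨hA.2.1 j, rfl⟩).congr (by ring) rfl rfl
  have oY : ∀ j, O 0 (s * L.be j) (1 / φ₀ / ((-ν : ℤ) : ℂ) * (L.be j).coeff ν) := fun j =>
    (os.mul ⟨hA.2.2 j, rfl⟩).congr (by ring) rfl rfl
  let L2 : Loc2 ι :=
    { n := -ν
      hn := hn
      s := s
      s₀ := 1 / φ₀ / ((-ν : ℤ) : ℂ)
      os := os
      ω := s * L.φ
      oω := oω
      μ := L.μ
      hμ := L.hμ
      Z := s * L.K
      oZ := oZ1.low zero_lt_one
      X := fun j => s * L.al j
      Y := fun j => s * L.be j
      hp := L.hp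
      hm := L.hm
      l := L.l
      G := L.G
      lX := fun j => (oX j).1
      lY := fun j => (oY j).1
      dX := fun j => by
        rw [eul_mul]
        have h1 := L.dal j
        linear_combination s * L.al j * hone + s * s * h1
      dY := fun j => by
        rw [eul_mul]
        have h1 := L.dbe j
        linear_combination s * L.be j * hone + s * s * h1
      dl := fun j => by
        linear_combination s * L.dl j
      dp := fun j => by
        linear_combination s * L.dp j
      dm := fun j => by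
        linear_combination s * L.dm j
      hal := fun j => by
        linear_combination s * L.hal j
      hbe := fun j => by
        linear_combination s * L.hbe j
      hab := fun j => by
        have h1 := L.hal j
        have h2 := L.hbe j
        linear_combination (-(s * L.al j)) * h2 + s * L.be j * h1
      gram := L.gram
      gpos := L.gpos
      cs := L.cs
      e1 := by
        have h1 := L.e1
        have h2 : ∑ j, C ((L.μ j : ℝ) : ℂ) * (s * L.al j) =
            s * ∑ j, C ((L.μ j : ℝ) : ℂ) * L.al j := by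
          rw [Finset.mul_sum]
          refine Finset.sum_congr rfl fun j _ => ?_
          ring
        rw [h2, h1]
        ring }
  have hZ := L2.Z_low oZ1.1
  intro i hi
  by_contra hne
  have hKne : L.K ≠ 0 := by
    intro h
    apply hne
    rw [h]
    rfl
  obtain ⟨t, c, ot, hc⟩ := O.of_ne hKne
  have ht : t ≤ i := by
    by_contra h
    push Not at h
    exact hne (ot.1 i h)
  have h1 := (os.mul ot)
  have h2 : (s * L.K).coeff (-ν + t) = 0 := hZ (-ν + t) (by
    change -ν + t < -ν
    omega)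
  rw [h1.2] at h2
  exact mul_ne_zero hs0 hc h2

end Loc

end Helper772Sph
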