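import Mathlib
import Pool.Agent.Helper772_Sph.Embed
import Pool.Agent.Helper772_Sph.PlaceMain
import Pool.Agent.Helper772_Sph.Sys

set_option autoImplicit false

open Polynomial
open Pool.Agent.Y226.ZG (LS eul eul_coeff eul_add eul_mul eul_zero eul_C)

namespace Helper772Sph

section alg

variable {E : Type} [Field E] [Algebra ℂ E]

theorem mem_cl {x g : E} : g ∈ (AlgebraicIndependent.matroid ℂ E).closure {x} ↔
    IsAlgebraic (Algebra.adjoin ℂ {x}) g := by
  rw [AlgebraicIndependent.matroid_closure_eq, SetLike.mem_coe, Subalgebra.mem_algebraicClosure]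

theorem mem_range_of_isAlgebraic {K : E} (h : IsAlgebraic ℂ K) : ∃ c : ℂ, K = algebraMap ℂ E c := by
  have hint : IsIntegral ℂ K := h.isIntegral
  have h1 : (minpoly ℂ K).degree = 1 :=
    IsAlgClosed.degree_eq_one_of_irreducible ℂ (minpoly.irreducible hint)
  obtain ⟨c, hc⟩ := minpoly.mem_range_of_degree_eq_one ℂ K h1
  exact ⟨c, hc.symm⟩

/-- exchange -/
theorem exch {x K g : E} (hK : Transcendental ℂ K) (hxK : IsAlgebraic (Algebra.adjoin ℂ {x}) K)
    (hxg : IsAlgebraic (Algebra.adjoin ℂ {x}) g) : IsAlgebraic (Algebra.adjoin ℂ {K}) g := by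
  set M := AlgebraicIndependent.matroid ℂ E with hM
  have h1 : K ∉ M.closure ∅ := by
    rw [hM, AlgebraicIndependent.matroid_closure_eq, SetLike.mem_coe,
      Subalgebra.mem_algebraicClosure]
    intro h
    apply hK
    have h2 : ∀ r : Algebra.adjoin ℂ (∅ : Set E), ∃ c : ℂ, algebraMap ℂ _ c = r := by
      rintro ⟨r, hr⟩
      have hr' := hr
      rw [Algebra.adjoin_empty, Algebra.mem_bot] at hr'
      obtain ⟨c, hc⟩ := hr'
      exact ⟨c, Subtype.ext hc⟩
    have : Algebra.IsAlgebraic ℂ (Algebra.adjoin ℂ (∅ : Set E)) := by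
      refine ⟨fun r => ?_⟩
      obtain ⟨c, rfl⟩ := h2 r
      exact isAlgebraic_algebraMap c
    exact h.restrictScalars ℂ
  have h2 : K ∈ M.closure (insert x ∅) := by
    rw [insert_empty_eq]
    exact mem_cl.2 hxK
  have h3 := (Matroid.closure_exchange (M := M) ⟨h2, h1⟩).1
  rw [insert_empty_eq] at h3
  have h4 : M.closure {x} ⊆ M.closure {K} := by
    refine M.closure_subset_closure_of_subset_closure ?_
    rw [Set.singleton_subset_iff]
    exact h3
  exact mem_cl.1 (h4 (mem_cl.2 hxg))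

theorem exists_poly {K g : E} (h : IsAlgebraic (Algebra.adjoin ℂ {K}) g) :
    ∃ p : ℂ[X][X], p ≠ 0 ∧ p.eval₂ ((aeval K : ℂ[X] →ₐ[ℂ] E) : ℂ[X] →+* E) g = 0 := by
  obtain ⟨q, hq, hq0⟩ := h
  let φ : ℂ[X] →+* Algebra.adjoin ℂ {K} :=
    ((aeval (⟨K, Algebra.subset_adjoin rfl⟩ : Algebra.adjoin ℂ {K}) :
      ℂ[X] →ₐ[ℂ] Algebra.adjoin ℂ {K}) : ℂ[X] →+* Algebra.adjoin ℂ {K})
  have hφ : ∀ r : ℂ[X], ((φ r : Algebra.adjoin ℂ {K}) : E) = aeval K r := by
    intro r
    show ((aeval (⟨K, Algebra.subset_adjoin rfl⟩ : Algebra.adjoin ℂ {K}) r :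
      Algebra.adjoin ℂ {K}) : E) = aeval K r
    rw [← Subalgebra.coe_val, ← aeval_algHom_apply]
    rfl
  have hsurj : Function.Surjective φ := by
    rintro ⟨r, hr⟩
    have hr' := hr
    rw [Algebra.adjoin_singleton_eq_range_aeval] at hr'
    obtain ⟨s, hs⟩ := hr'
    refine ⟨s, Subtype.ext ?_⟩
    rw [hφ]
    exact hs
  obtain ⟨p, hp⟩ := Polynomial.map_surjective φ hsurj q
  refine ⟨p, ?_, ?_⟩
  · rintro rfl
    rw [Polynomial.map_zero] at hp
    exact hq hp.symm
  · rw [← hp] at hq0
    rw [aeval_def, eval₂_map] at hq0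
    have : (algebraMap (Algebra.adjoin ℂ {K}) E).comp φ =
        ((aeval K : ℂ[X] →ₐ[ℂ] E) : ℂ[X] →+* E) := by
      apply RingHom.ext
      intro r
      exact hφ r
    rwa [this] at hq0

end alg

theorem map_bil {F E : Type} [Field F] [Algebra ℂ F] [Field E] [Algebra ℂ E] (f : F →ₐ[ℂ] E)
    (c : ℂ) (a₁ a₂ b₁ b₂ : F) : f (bil c a₁ a₂ b₁ b₂) = bil c (f a₁) (f a₂) (f b₁) (f b₂) := by
  unfold bil
  simp only [map_add, map_sub, map_mul, AlgHom.commutes]

theorem inj' {F E : Type} [Field F] [Algebra ℂ F] [Field E] [Algebra ℂ E] (f : F →ₐ[ℂ] E) :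
    Function.Injective f := f.toRingHom.injective

/-- pull back of a system along an embedding -/
def Sys.comap {F E : Type} [Field F] [Algebra ℂ F] [Field E] [Algebra ℂ E] (f : F →ₐ[ℂ] E)
    {dF : Dv F} {d : Dv E} (hd : ∀ g, f (dF.D g) = d.D (f g)) {ι : Type} [Fintype ι]
    (S : Sys E d ι) (P1 P2 Q1 Q2 K : F) (al be : ι → F)
    (hP1 : f P1 = S.P1) (hP2 : f P2 = S.P2) (hQ1 : f Q1 = S.Q1) (hQ2 : f Q2 = S.Q2)
    (hK : f K = S.K) (hal : ∀ j, f (al j) = S.al j) (hbe : ∀ j, f (be j) = S.be j) :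
    Sys F dF ι where
  μ := S.μ
  c := S.c
  P1 := P1
  P2 := P2
  Q1 := Q1
  Q2 := Q2
  K := K
  al := al
  be := be
  hμ := S.hμ
  cinj := S.cinj
  det := by
    apply inj' f
    simp only [map_sub, map_mul, map_one, hP1, hP2, hQ1, hQ2]
    exact S.det
  dP1 := by
    apply inj' f
    simp only [map_sub, map_mul, map_neg, map_ofNat, hP1, hQ1, hK, hd]
    exact S.dP1
  dP2 := by
    apply inj' f
    simp only [map_sub, map_mul, map_neg, map_ofNat, hP2, hQ2, hK, hd]
    exact S.dP2
  dQ1 := by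
    apply inj' f
    simp only [map_add, map_mul, map_ofNat, hP1, hQ1, hK, hd]
    exact S.dQ1
  dQ2 := by
    apply inj' f
    simp only [map_add, map_mul, map_ofNat, hP2, hQ2, hK, hd]
    exact S.dQ2
  hl := by
    intro j h
    apply S.hl j
    rw [← hP1, ← hP2, ← hQ1, ← hQ2, ← map_bil, h, map_zero]
  hal := by
    intro j
    apply inj' f
    simp only [map_add, map_mul, map_ofNat, map_bil, hP1, hP2, hQ1, hQ2, hal]
    exact S.hal j
  hbe := by
    intro j
    apply inj' f
    simp only [map_sub, map_mul, map_ofNat, map_bil, hP1, hP2, hQ1, hQ2, hbe]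
    exact S.hbe j
  e1 := by
    apply inj' f
    simp only [map_sum, map_mul, map_ofNat, AlgHom.commutes, hal, hK]
    exact S.e1
  e2 := by
    apply inj' f
    simp only [map_add, map_sum, map_mul, map_ofNat, AlgHom.commutes, hal, hbe, hK, hd, map_zero]
    exact S.e2

/-- the local data obtained from an embedding into Laurent series -/
noncomputable def Sys.toLoc {F : Type} [Field F] [Algebra ℂ F] {d : Dv F} {ι : Type} [Fintype ι]
    (S : Sys F d ι) (σ : F →+* LS ℂ) (hσC : ∀ c, σ (algebraMap ℂ F c) = HahnSeries.C c)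
    (φ : LS ℂ) (hφ : φ ≠ 0) (h : ∀ g, σ (d.D g) = φ * eul (σ g)) : Loc ι where
  φ := φ
  μ := S.μ
  K := σ S.K
  l := fun j => σ (S.l j)
  hp := fun j => σ (S.hp j)
  hm := fun j => σ (S.hm j)
  al := fun j => σ (S.al j)
  be := fun j => σ (S.be j)
  G := S.G
  hφ := hφ
  hμ := S.hμ
  hl := fun j h0 => S.hl j (σ.injective (h0.trans (map_zero σ).symm))
  hal := fun j => by
    have h1 : S.al j * (2 * S.l j) = S.hp j - S.hm j := by
      have := S.hal j
      unfold Sys.l Sys.hp Sys.hm
      linear_combination this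
    have := congrArg σ h1
    simpa only [map_mul, map_sub, map_ofNat] using this
  hbe := fun j => by
    have h1 : S.be j * (2 * S.l j) = S.hp j + S.hm j := by
      have := S.hbe j
      unfold Sys.l Sys.hp Sys.hm
      linear_combination this
    have := congrArg σ h1
    simpa only [map_mul, map_add, map_ofNat] using this
  dl := fun j => by
    have := congrArg σ (S.dl j)
    simpa only [map_mul, map_add, map_ofNat, h] using this
  dp := fun j => by
    have := congrArg σ (S.dp j)
    simpa only [map_mul, map_sub, map_neg, h] using this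
  dm := fun j => by
    have := congrArg σ (S.dm j)
    simpa only [map_mul, map_add, map_neg, h] using this
  gram := fun i j => by
    have := congrArg σ (S.gram i j)
    simpa only [map_mul, map_add, map_ofNat, hσC] using this
  gpos := S.gpos
  cs := S.cs
  e1 := by
    have := congrArg σ S.e1
    simpa only [map_sum, map_mul, map_ofNat, hσC] using this
  e2 := by
    have := congrArg σ S.e2
    simpa only [map_sum, map_mul, map_add, map_ofNat, map_zero, hσC, h] using this

end Helper772Sph
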