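import Mathlib
import Pool.Agent.Helper772_Sph.CaseI

set_option autoImplicit false

open Polynomial
open Pool.Agent.Y226.ZG (LS eul eul_coeff eul_add eul_mul eul_zero eul_C eul_single)

namespace Helper772Sph

/-- Case I: if the frame is algebraic over one element then `K` is constant. -/
theorem caseI {E : Type} [Field E] [Algebra ℂ E] {d : Dv E} {ι : Type} [Fintype ι]
    (S : Sys E d ι) (x : E) (hK : IsAlgebraic (Algebra.adjoin ℂ {x}) S.K)
    (hP1 : IsAlgebraic (Algebra.adjoin ℂ {x}) S.P1) (hP2 : IsAlgebraic (Algebra.adjoin ℂ {x}) S.P2)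
    (hQ1 : IsAlgebraic (Algebra.adjoin ℂ {x}) S.Q1)
    (hQ2 : IsAlgebraic (Algebra.adjoin ℂ {x}) S.Q2) : d.D S.K = 0 := by
  classical
  by_contra hDK
  have htr : Transcendental ℂ S.K := by
    intro h
    obtain ⟨c, hc⟩ := mem_range_of_isAlgebraic h
    apply hDK
    rw [hc, d.const]
  -- generators
  let gen : Fin 5 → E := ![S.K, S.P1, S.P2, S.Q1, S.Q2]
  have hgenalg : ∀ i, IsAlgebraic (Algebra.adjoin ℂ {S.K}) (gen i) := by
    intro i
    apply exch htr hK
    fin_cases i
    · exact hK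
    · exact hP1
    · exact hP2
    · exact hQ1
    · exact hQ2
  let F : IntermediateField ℂ E := IntermediateField.adjoin ℂ (Set.range gen)
  have hg : ∀ i, gen i ∈ F := fun i => IntermediateField.subset_adjoin ℂ _ ⟨i, rfl⟩
  have mK : S.K ∈ F := hg 0
  have mP1 : S.P1 ∈ F := hg 1
  have mP2 : S.P2 ∈ F := hg 2
  have mQ1 : S.Q1 ∈ F := hg 3
  have mQ2 : S.Q2 ∈ F := hg 4
  have mc : ∀ c : ℂ, algebraMap ℂ E c ∈ F := fun c => F.algebraMap_mem c
  have m2 : (2 : E) ∈ F := by
    have := mc 2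
    rwa [map_ofNat] at this
  have m3 : (3 : E) ∈ F := by
    have := mc 3
    rwa [map_ofNat] at this
  have mbil : ∀ (c : ℂ) (a₁ a₂ b₁ b₂ : E), a₁ ∈ F → a₂ ∈ F → b₁ ∈ F → b₂ ∈ F →
      bil c a₁ a₂ b₁ b₂ ∈ F := by
    intro c a₁ a₂ b₁ b₂ h1 h2 h3 h4
    unfold bil
    exact F.sub_mem (F.add_mem (F.mul_mem (mc _) (F.mul_mem h1 h3))
      (F.add_mem (F.mul_mem h1 h4) (F.mul_mem h2 h3))) (F.mul_mem (mc _) (F.mul_mem h2 h4))
  have h2ne := Sys.two_ne (F := E)
  have : CharZero E := Sys.char0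
  have mal : ∀ j, S.al j ∈ F := by
    intro j
    have h1 : S.al j = (bil (S.c j) S.P1 S.P2 S.P1 S.P2 + bil (S.c j) S.Q1 S.Q2 S.Q1 S.Q2) /
        (2 * bil (S.c j) S.P1 S.P2 S.Q1 S.Q2) := by
      rw [eq_div_iff (mul_ne_zero h2ne (S.hl j))]
      exact S.hal j
    rw [h1]
    exact F.div_mem (F.add_mem (mbil _ _ _ _ _ mP1 mP2 mP1 mP2) (mbil _ _ _ _ _ mQ1 mQ2 mQ1 mQ2))
      (F.mul_mem m2 (mbil _ _ _ _ _ mP1 mP2 mQ1 mQ2))
  have mbe : ∀ j, S.be j ∈ F := by
    intro j
    have h1 : S.be j = (bil (S.c j) S.P1 S.P2 S.P1 S.P2 - bil (S.c j) S.Q1 S.Q2 S.Q1 S.Q2) /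
        (2 * bil (S.c j) S.P1 S.P2 S.Q1 S.Q2) := by
      rw [eq_div_iff (mul_ne_zero h2ne (S.hl j))]
      exact S.hbe j
    rw [h1]
    exact F.div_mem (F.sub_mem (mbil _ _ _ _ _ mP1 mP2 mP1 mP2) (mbil _ _ _ _ _ mQ1 mQ2 mQ1 mQ2))
      (F.mul_mem m2 (mbil _ _ _ _ _ mP1 mP2 mQ1 mQ2))
  have half : ∀ a b : E, 2 * a = b → b ∈ F → a ∈ F := by
    intro a b h hb
    have : a = b / 2 := by
      rw [eq_div_iff h2ne, mul_comm]
      exact h
    rw [this]
    exact F.div_mem hb m2
  have dgen : ∀ i, d.D (gen i) ∈ F := by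
    intro i
    fin_cases i
    · change d.D S.K ∈ F
      have h1 : d.D S.K =
          (-∑ j, algebraMap ℂ E (S.μ j : ℂ) * ((S.K + S.al j) * S.be j)) / 3 := by
        rw [eq_div_iff (by norm_num), mul_comm]
        exact S.DK
      rw [h1]
      refine F.div_mem (F.neg_mem (F.sum_mem fun j _ => ?_)) m3
      exact F.mul_mem (mc _) (F.mul_mem (F.add_mem mK (mal j)) (mbe j))
    · exact half _ _ S.dP1 (F.sub_mem (F.neg_mem (F.mul_mem mK mP1)) mQ1)
    · exact half _ _ S.dP2 (F.sub_mem (F.neg_mem (F.mul_mem mK mP2)) mQ2)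
    · exact half _ _ S.dQ1 (F.add_mem mP1 (F.mul_mem mK mQ1))
    · exact half _ _ S.dQ2 (F.add_mem mP2 (F.mul_mem mK mQ2))
  have hD : ∀ g ∈ F, d.D g ∈ F := by
    intro g hgF
    induction hgF using IntermediateField.adjoin_induction with
    | mem x hx =>
      obtain ⟨i, rfl⟩ := hx
      exact dgen i
    | algebraMap c => rw [d.const]; exact F.zero_mem
    | add a b ha hb iha ihb => rw [d.add]; exact F.add_mem iha ihb
    | mul a b ha hb iha ihb =>
      rw [d.mul]
      exact F.add_mem (F.mul_mem iha hb) (F.mul_mem ha ihb)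
    | inv a ha iha =>
      by_cases h0 : a = 0
      · rw [h0, inv_zero, d.zero]
        exact F.zero_mem
      · have h1 := d.mul a a⁻¹
        rw [mul_inv_cancel₀ h0, d.one] at h1
        have h2 : d.D a⁻¹ = -(d.D a * a⁻¹) / a := by
          rw [eq_div_iff h0]
          linear_combination -h1
        rw [h2]
        exact F.div_mem (F.neg_mem (F.mul_mem iha (F.inv_mem ha))) ha
  let dF : Dv F :=
    { D := fun g => ⟨d.D g, hD g g.2⟩
      add := fun a b => Subtype.ext (d.add a b)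
      mul := fun a b => Subtype.ext (d.mul a b)
      const := fun c => Subtype.ext (d.const c) }
  let S' : Sys F dF ι := S.comap F.val (dF := dF) (fun _ => rfl) ⟨S.P1, mP1⟩ ⟨S.P2, mP2⟩
    ⟨S.Q1, mQ1⟩ ⟨S.Q2, mQ2⟩ ⟨S.K, mK⟩ (fun j => ⟨S.al j, mal j⟩) (fun j => ⟨S.be j, mbe j⟩)
    rfl rfl rfl rfl rfl (fun _ => rfl) (fun _ => rfl)
  let KF : F := ⟨S.K, mK⟩
  let gF : Fin 5 → F := fun i => ⟨gen i, hg i⟩
  have htrF : Transcendental ℂ KF := by
    intro h
    exact htr (h.algHom F.val)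
  have hgenF : ∀ F' : Subfield F, (∀ c : ℂ, algebraMap ℂ F c ∈ F') → (∀ i, gF i ∈ F') →
      F' = ⊤ := by
    intro F' hc hi
    have key : ∀ g (hgF : g ∈ F), (⟨g, hgF⟩ : F) ∈ F' := by
      intro g hgF
      induction hgF using IntermediateField.adjoin_induction with
      | mem x hx =>
        obtain ⟨i, rfl⟩ := hx
        exact hi i
      | algebraMap c => exact hc c
      | add a b ha hb iha ihb => exact F'.add_mem iha ihb
      | mul a b ha hb iha ihb => exact F'.mul_mem iha ihb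
      | inv a ha iha => exact F'.inv_mem iha
    rw [eq_top_iff]
    rintro ⟨g, hgF⟩ -
    exact key g hgF
  have hpoly : ∀ i, ∃ p : ℂ[X][X], p ≠ 0 ∧
      p.eval₂ ((aeval KF : ℂ[X] →ₐ[ℂ] F) : ℂ[X] →+* F) (gF i) = 0 := by
    intro i
    obtain ⟨p, hp, hp0⟩ := exists_poly (hgenalg i)
    refine ⟨p, hp, ?_⟩
    apply inj' F.val
    rw [map_zero]
    have h1 := Polynomial.hom_eval₂ p ((aeval KF : ℂ[X] →ₐ[ℂ] F) : ℂ[X] →+* F)
      (F.val : F →+* E) (gF i)
    have h2 : (F.val : F →+* E).comp ((aeval KF : ℂ[X] →ₐ[ℂ] F) : ℂ[X] →+* F) =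
        ((aeval S.K : ℂ[X] →ₐ[ℂ] E) : ℂ[X] →+* E) := by
      apply Polynomial.ringHom_ext
      · intro c
        simp
      · simp [KF]
    rw [h2] at h1
    have h3 : (F.val : F →+* E) (gF i) = gen i := rfl
    rw [h3, hp0] at h1
    exact h1
  choose p hp hroot using hpoly
  obtain ⟨σ, m, hm, hσC, hσK⟩ := exists_embed KF htrF gF hgenF p hp hroot
  -- transport of the derivation
  have hmc : ((-(m : ℤ) : ℤ) : ℂ) ≠ 0 := by
    have : (-(m : ℤ) : ℤ) ≠ 0 := by omega
    exact_mod_cast this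
  have heul : eul (σ KF) ≠ 0 := by
    rw [hσK, eul_single]
    intro h
    have h1 := congrArg (fun f => HahnSeries.coeff f (-(m : ℤ))) h
    simp only [HahnSeries.coeff_single_same, HahnSeries.coeff_zero, mul_one] at h1
    exact hmc h1
  have halg : ∀ F' : IntermediateField ℂ F, KF ∈ F' → ∀ g : F, IsAlgebraic F' g := by
    intro F' hKF'
    let F'' : Subfield F :=
      { carrier := {f | IsAlgebraic F' f}
        mul_mem' := fun {a b} ha hb => IsAlgebraic.mul ha hb
        one_mem' := isAlgebraic_one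
        add_mem' := fun {a b} ha hb => IsAlgebraic.add ha hb
        zero_mem' := isAlgebraic_zero
        neg_mem' := fun {a} ha => IsAlgebraic.neg ha
        inv_mem' := fun a ha => IsAlgebraic.inv ha }
    have h1 : F'' = ⊤ := by
      apply hgenF
      · intro c
        show IsAlgebraic F' (algebraMap ℂ F c)
        rw [IsScalarTower.algebraMap_apply ℂ F' F]
        exact isAlgebraic_algebraMap _
      · intro i
        let φ : ℂ[X] →+* F' :=
          ((aeval (⟨KF, hKF'⟩ : F') : ℂ[X] →ₐ[ℂ] F') : ℂ[X] →+* F')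
        have hcomp : (algebraMap F' F).comp φ = ((aeval KF : ℂ[X] →ₐ[ℂ] F) : ℂ[X] →+* F) := by
          apply Polynomial.ringHom_ext
          · intro c
            simp [φ]
          · simp [φ]
        have hφ : Function.Injective φ := by
          have h2 : Function.Injective ((algebraMap F' F).comp φ) := by
            rw [hcomp]
            have := transcendental_iff_injective.1 htrF
            intro u v huv
            exact this huv
          rw [RingHom.coe_comp] at h2
          exact h2.of_comp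
        refine ⟨(p i).map φ, (Polynomial.map_ne_zero_iff hφ).2 (hp i), ?_⟩
        rw [aeval_def, eval₂_map, hcomp]
        exact hroot i
    intro g
    have h2 : g ∈ F'' := by rw [h1]; trivial
    exact h2
  have htrans := transport dF.D dF.add dF.mul dF.const KF σ hσC heul halg
  set φ := σ (dF.D KF) / eul (σ KF) with hφ
  have hφ0 : φ ≠ 0 := by
    rw [hφ]
    refine div_ne_zero ?_ heul
    intro h
    apply hDK
    have h1 : dF.D KF = 0 := σ.injective (h.trans (map_zero σ).symm)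
    exact congrArg Subtype.val h1
  have hreg := (S'.toLoc σ hσC φ hφ0 htrans).K_regular (-(m : ℤ)) (by omega)
  have h1 : (S'.toLoc σ hσC φ hφ0 htrans).K = σ KF := rfl
  rw [h1, hσK, HahnSeries.coeff_single_same] at hreg
  exact one_ne_zero hreg

end Helper772Sph
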