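import Mathlib
import Pool.Agent.Helper772_Sph.CaseII
import Pool.Agent.Helper772_Sph.CaseIMain

set_option autoImplicit false

open Polynomial

namespace Helper772Sph

theorem ev2_id (p : ℂ[X][X]) : ev2 (C X : ℂ[X][X]) X p = p := by
  have : ((ev2 (C X : ℂ[X][X]) X : ℂ[X][X] →ₐ[ℂ] ℂ[X][X]) : ℂ[X][X] →+* ℂ[X][X]) =
      RingHom.id _ := by
    apply Polynomial.ringHom_ext'
    · apply Polynomial.ringHom_ext'
      · apply RingHom.ext
        intro c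
        exact (ev2 (C X : ℂ[X][X]) X).commutes c
      · simp [ev2_C]
    · simp [ev2_X]
  exact congrArg (fun g : ℂ[X][X] →+* ℂ[X][X] => g p) this

section

variable {ι : Type} [Fintype ι] [DecidableEq ι] (μ : ι → ℝ) (c : ι → ℂ)

/-- the universal elimination polynomial -/
noncomputable def RR : A3 := Rf μ c (C (C X) : A3) (C X) X

theorem ev3_RR {E : Type} [Field E] [Algebra ℂ E] (x y t : E) :
    ev3 x y t (RR μ c) = Rf μ c x y t := by
  have h := map_Rf μ c (ev3 x y t : A3 →ₐ[ℂ] E) (C (C X) : A3) (C X) X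
  rw [ev3_C, ev3_C, ev3_X, ev2_C, ev2_X, aeval_X] at h
  exact h

theorem RR_coeff : (RR μ c).coeff 0 = Rf μ c (C X : ℂ[X][X]) X 0 := by
  have h1 := ev3_zero (C X : ℂ[X][X]) X (RR μ c)
  rw [ev2_id] at h1
  rw [← h1]
  have h := map_Rf μ c (ev3 (C X) X 0 : A3 →ₐ[ℂ] ℂ[X][X]) (C (C X) : A3) (C X) X
  rw [ev3_C, ev3_C, ev3_X, ev2_C, ev2_X, aeval_X] at h
  exact h

variable {μ c}

theorem RR_ne (hμ : ∀ j, 0 < μ j) (hc : Function.Injective c) [Nontrivial ι] : RR μ c ≠ 0 := by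
  intro h0
  have h1 := RR_coeff μ c
  rw [h0, coeff_zero] at h1
  have h2 := map_Rf μ c (sp 0) (C X : ℂ[X][X]) X 0
  rw [← h1, sp_C, sp_X, eval_X] at h2
  have h3 : sp 0 (0 : ℂ[X][X]) = 0 := (sp 0).map_zero
  rw [h3] at h2
  exact Rf_line_ne hμ hc 0 h2.symm

end

section frame

variable {E : Type} [Field E] [Algebra ℂ E] {d : Dv E} {ι : Type} [Fintype ι] (S : Sys E d ι)
  [DecidableEq ι]

/-- the universal product of the walls -/
noncomputable def LU (c : ι → ℂ) : ℂ[X][X] := ∏ i, Lf (c i) (C X : ℂ[X][X]) X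

theorem ev2_LU {E : Type} [Field E] [Algebra ℂ E] (c : ι → ℂ) (x y : E) :
    ev2 x y (LU c) = ∏ i, Lf (c i) x y := by
  unfold LU
  rw [map_prod]
  refine Finset.prod_congr rfl fun i _ => ?_
  rw [map_Lf, ev2_C, ev2_X, aeval_X]

/-- the invariance lemma -/
theorem Sys.invar (hP : S.P2 ≠ 0) (hQ : S.Q2 ≠ 0) (P : A3) : ∃ P' : A3,
    2 * S.w * S.LL * d.D (ev3 S.x S.y (S.w ^ 2) P) = ev3 S.x S.y (S.w ^ 2) P' ∧
    P'.coeff 0 = (C X - X : ℂ[X][X]) * LU S.c * derivative (P.coeff 0) := by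
  have := Sys.char0 (F := E)
  induction P using Polynomial.induction_on' with
  | add p q hp hq =>
    obtain ⟨p', hp, hp0⟩ := hp
    obtain ⟨q', hq, hq0⟩ := hq
    refine ⟨p' + q', ?_, ?_⟩
    · rw [map_add, d.add, mul_add, hp, hq, map_add]
    · rw [coeff_add, hp0, hq0, coeff_add, derivative_add]
      ring
  | monomial n q =>
    obtain ⟨q₁, hq₁⟩ := d.ev2 S.x S.y q
    let M : A3 := 2 * C (LU S.c) * (1 + X) + C (C (C (2 / 3 : ℂ))) *
      ∑ j, algebraMap ℂ A3 (S.μ j : ℂ) * (Pf S.c j (C (C X) : A3) (C X) +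
        X * Hf S.c j (C (C X) : A3) (C X))
    refine ⟨C q₁ * X * C ((C X - X) * LU S.c) * X ^ n +
      C (derivative q) * C ((C X - X) * LU S.c) * X ^ n + C q * (n : A3) * X ^ n * M, ?_, ?_⟩
    · have e0 : ev3 S.x S.y (S.w ^ 2) (monomial n q) = ev2 S.x S.y q * (S.w ^ 2) ^ n := by
        rw [← C_mul_X_pow_eq_monomial, map_mul, map_pow, ev3_C, ev3_X]
      have eM : ev3 S.x S.y (S.w ^ 2) M = 2 * S.LL * (1 + S.w ^ 2) + 4 * S.w * S.LL * S.K := by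
        have e1 : ev3 S.x S.y (S.w ^ 2) (C (LU S.c)) = S.LL := by
          rw [ev3_C, ev2_LU]
          rfl
        have e2 : ev3 S.x S.y (S.w ^ 2) (C (C (C (2 / 3 : ℂ)))) = 2 / 3 := by
          rw [ev3_C, ev2_C, aeval_C, map_div₀, map_ofNat, map_ofNat]
        have e3 : ev3 S.x S.y (S.w ^ 2) (∑ j, algebraMap ℂ A3 (S.μ j : ℂ) *
            (Pf S.c j (C (C X) : A3) (C X) + X * Hf S.c j (C (C X) : A3) (C X))) =
            6 * S.w * S.LL * S.K := by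
          rw [S.Kw hP hQ, map_sum]
          refine Finset.sum_congr rfl fun j _ => ?_
          have k1 := map_Pf S.c (ev3 S.x S.y (S.w ^ 2) : A3 →ₐ[ℂ] E) j (C (C X) : A3) (C X)
          have k2 := map_Hf S.c (ev3 S.x S.y (S.w ^ 2) : A3 →ₐ[ℂ] E) j (C (C X) : A3) (C X)
          rw [ev3_C, ev3_C, ev2_C, ev2_X, aeval_X] at k1 k2
          rw [map_mul, AlgHom.commutes, map_add, map_mul, k1, k2, ev3_X]
        simp only [M]
        rw [map_add, map_mul, map_mul, map_mul, map_add, e1, e2, e3, map_ofNat, map_one, ev3_X]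
        ring
      rw [e0, d.mul, d.pow, hq₁]
      have eW : d.D (S.w ^ 2) = 2 * S.w * d.D S.w := by
        rw [d.pow]
        simp
      rw [eW]
      simp only [map_add, map_mul, map_pow, ev3_X, ev3_C, eM, map_natCast, ev2_LU, map_sub, ev2_X,
        ev2_C, aeval_X]
      have hLL : (∏ i, Lf (S.c i) S.x S.y) = S.LL := rfl
      rw [hLL]
      have h1 := S.Dx' hP hQ
      have h2 := S.Dy' hP hQ
      have h3 := S.Dw hP hQ
      rcases n with _ | n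
      · simp only [Nat.cast_zero, pow_zero, zero_mul, mul_zero, add_zero, mul_one]
        linear_combination (S.w * S.LL * Helper772Sph.ev2 S.x S.y q₁) * h1 +
          (S.LL * Helper772Sph.ev2 S.x S.y (derivative q)) * h2
      · simp only [Nat.add_sub_cancel]
        linear_combination (S.w * S.LL * Helper772Sph.ev2 S.x S.y q₁ * (S.w ^ 2) ^ (n + 1)) * h1 +
          (S.LL * Helper772Sph.ev2 S.x S.y (derivative q) * (S.w ^ 2) ^ (n + 1)) * h2 +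
          (2 * S.w ^ 2 * S.LL * (n + 1 : ℕ) * Helper772Sph.ev2 S.x S.y q * (S.w ^ 2) ^ n) * h3
    · rcases n with _ | n
      · simp only [Nat.cast_zero, pow_zero, zero_mul, mul_zero, add_zero, mul_one, coeff_add,
          mul_coeff_zero, coeff_C_zero, coeff_X_zero, zero_add, coeff_monomial_same]
        ring
      · simp only [coeff_add, mul_coeff_zero, coeff_X_pow, coeff_monomial]
        simp

theorem Sys.not_inj (hP : S.P2 ≠ 0) (hQ : S.Q2 ≠ 0) [Nontrivial ι] (hc0 : ∀ j, S.c j ≠ 0)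
    (hinj : Function.Injective (ev2 S.x S.y)) : False := by
  have hw : S.w ^ 2 ≠ 0 := pow_ne_zero 2 (S.w_ne hP hQ)
  have h0 : (RR S.μ S.c).eval₂ ((ev2 S.x S.y : ℂ[X][X] →ₐ[ℂ] E) : ℂ[X][X] →+* E) (S.w ^ 2) = 0 := by
    have h1 := ev3_RR S.μ S.c S.x S.y (S.w ^ 2)
    rw [S.Rf_eq_zero hP hQ] at h1
    exact h1
  obtain ⟨Φ, hΦ0, hΦW, hΦdvd⟩ := exists_gen ((ev2 S.x S.y : ℂ[X][X] →ₐ[ℂ] E) : ℂ[X][X] →+* E)
    hinj (S.w ^ 2) (RR S.μ S.c) (RR_ne S.hμ S.cinj) h0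
  have hev : ∀ P : A3, ev3 S.x S.y (S.w ^ 2) P = 0 → Φ ∣ P := hΦdvd
  have hevΦ : ev3 S.x S.y (S.w ^ 2) Φ = 0 := hΦW
  have hdvdR : Φ ∣ RR S.μ S.c := hev _ h0
  have hB : Φ.coeff 0 ≠ 0 := by
    intro h
    obtain ⟨Φ', hΦ'⟩ := X_dvd_iff.2 h
    have h1 : ev3 S.x S.y (S.w ^ 2) Φ' = 0 := by
      have h2 := hevΦ
      rw [hΦ', map_mul, ev3_X] at h2
      exact (mul_eq_zero.1 h2).resolve_left hw
    have h3 := hev _ h1
    have hΦ'0 : Φ' ≠ 0 := by
      rintro rfl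
      rw [mul_zero] at hΦ'
      exact hΦ0 hΦ'
    have h4 := natDegree_le_of_dvd h3 hΦ'0
    rw [hΦ', natDegree_X_mul hΦ'0] at h4
    omega
  have hBdvd : Φ.coeff 0 ∣ Rf S.μ S.c (C X : ℂ[X][X]) X 0 := by
    obtain ⟨Ψ, hΨ⟩ := hdvdR
    refine ⟨Ψ.coeff 0, ?_⟩
    rw [← RR_coeff, hΨ, mul_coeff_zero]
  obtain ⟨Φ', hΦ'1, hΦ'2⟩ := S.invar hP hQ Φ
  rw [hevΦ, d.zero, mul_zero] at hΦ'1
  obtain ⟨κ, hκ⟩ := hev _ hΦ'1.symm
  have hinv : (C X - X : ℂ[X][X]) * (∏ i, Lf (S.c i) (C X : ℂ[X][X]) X) *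
      derivative (Φ.coeff 0) = κ.coeff 0 * Φ.coeff 0 := by
    have h1 : (∏ i, Lf (S.c i) (C X : ℂ[X][X]) X) = LU S.c := rfl
    rw [h1, ← hΦ'2, hκ, mul_coeff_zero, mul_comm]
  obtain ⟨b, hb, hbB⟩ := B_const S.hμ S.cinj (Φ.coeff 0) hB hBdvd (κ.coeff 0) hinv
  have hΦc := factor_const S.hμ hc0 Φ hdvdR b hb hbB
  rw [hΦc, ev3_C, ev2_C, aeval_C] at hevΦ
  apply hb
  exact (algebraMap ℂ E).injective (hevΦ.trans (map_zero _).symm)

end frame

end Helper772Sph
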