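import Mathlib
import Pool.Agent.Helper772_Sph.CaseIIMain

set_option autoImplicit false

open Polynomial

namespace Helper772Sph

section frame

variable {E : Type} [Field E] [Algebra ℂ E] {d : Dv E} {ι : Type} [Fintype ι] (S : Sys E d ι)
  [DecidableEq ι]

theorem Sys.dep (hP : S.P2 ≠ 0) (hQ : S.Q2 ≠ 0)
    (hinj : ¬Function.Injective (ev2 S.x S.y)) : d.D S.K = 0 := by
  classical
  have := Sys.char0 (F := E)
  have h2E : (2 : E) ≠ 0 := two_ne_zero
  have hxy : S.x - S.y ≠ 0 := by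
    intro h
    have := S.det' hP hQ
    rw [h, mul_zero] at this
    exact zero_ne_one this
  have hDx : d.D S.x ≠ 0 := by
    intro h
    have := S.Dx hP hQ
    rw [h, mul_zero] at this
    exact zero_ne_one this
  have htr : Transcendental ℂ S.x := by
    intro h
    obtain ⟨c, hc⟩ := mem_range_of_isAlgebraic h
    apply hDx
    rw [hc, d.const]
  have hex : ∃ n : ℕ, ∃ p : ℂ[X][X], p ≠ 0 ∧ ev2 S.x S.y p = 0 ∧ p.natDegree = n := by
    rw [injective_iff_map_eq_zero] at hinj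
    push Not at hinj
    obtain ⟨p, hp, hp0⟩ := hinj
    exact ⟨p.natDegree, p, hp0, hp, rfl⟩
  obtain ⟨p, hp0, hp, hn⟩ := Nat.find_spec hex
  have hmin : ∀ q : ℂ[X][X], q ≠ 0 → q.natDegree < Nat.find hex → ev2 S.x S.y q ≠ 0 :=
    fun q hq hlt h => Nat.find_min hex hlt ⟨q, hq, h, rfl⟩
  have hn0 : Nat.find hex ≠ 0 := by
    intro h
    rw [h, natDegree_eq_zero] at hn
    obtain ⟨a, ha⟩ := hn
    rw [← ha, ev2_C] at hp
    have ha0 : a = 0 := transcendental_iff.1 htr a hp
    rw [ha0, map_zero] at ha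
    exact hp0 ha.symm
  have hp' : ev2 S.x S.y (derivative p) ≠ 0 := by
    apply hmin
    · intro h
      have h1 := natDegree_eq_zero_of_derivative_eq_zero h
      exact hn0 (hn.symm.trans h1)
    · rw [← hn]
      exact natDegree_derivative_lt (by rw [hn]; exact hn0)
  -- the algebraic closure of `ℂ(x)`
  have ac : ∀ c : ℂ, IsAlgebraic (Algebra.adjoin ℂ {S.x}) (algebraMap ℂ E c) := by
    intro c
    rw [IsScalarTower.algebraMap_apply ℂ (Algebra.adjoin ℂ {S.x}) E]
    exact isAlgebraic_algebraMap _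
  have ax : IsAlgebraic (Algebra.adjoin ℂ {S.x}) S.x := by
    have : S.x = algebraMap (Algebra.adjoin ℂ {S.x}) E ⟨S.x, Algebra.subset_adjoin rfl⟩ := rfl
    rw [this]
    exact isAlgebraic_algebraMap _
  have ay : IsAlgebraic (Algebra.adjoin ℂ {S.x}) S.y := by
    let φ : ℂ[X] →+* Algebra.adjoin ℂ {S.x} :=
      ((aeval (⟨S.x, Algebra.subset_adjoin rfl⟩ : Algebra.adjoin ℂ {S.x}) :
        ℂ[X] →ₐ[ℂ] Algebra.adjoin ℂ {S.x}) : ℂ[X] →+* Algebra.adjoin ℂ {S.x})
    have hcomp : (algebraMap (Algebra.adjoin ℂ {S.x}) E).comp φ =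
        ((aeval S.x : ℂ[X] →ₐ[ℂ] E) : ℂ[X] →+* E) := by
      apply Polynomial.ringHom_ext
      · intro c
        simp [φ]
      · simp [φ]
    have hφ : Function.Injective φ := by
      have h2 : Function.Injective ((algebraMap (Algebra.adjoin ℂ {S.x}) E).comp φ) := by
        rw [hcomp]
        have := transcendental_iff_injective.1 htr
        intro u v huv
        exact this huv
      rw [RingHom.coe_comp] at h2
      exact h2.of_comp
    refine ⟨p.map φ, (Polynomial.map_ne_zero_iff hφ).2 hp0, ?_⟩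
    rw [aeval_def, eval₂_map, hcomp]
    exact hp
  have aadd : ∀ {a b : E}, IsAlgebraic (Algebra.adjoin ℂ {S.x}) a →
      IsAlgebraic (Algebra.adjoin ℂ {S.x}) b → IsAlgebraic (Algebra.adjoin ℂ {S.x}) (a + b) :=
    fun ha hb => ha.add hb
  have amul : ∀ {a b : E}, IsAlgebraic (Algebra.adjoin ℂ {S.x}) a →
      IsAlgebraic (Algebra.adjoin ℂ {S.x}) b → IsAlgebraic (Algebra.adjoin ℂ {S.x}) (a * b) :=
    fun ha hb => ha.mul hb
  have asub : ∀ {a b : E}, IsAlgebraic (Algebra.adjoin ℂ {S.x}) a →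
      IsAlgebraic (Algebra.adjoin ℂ {S.x}) b → IsAlgebraic (Algebra.adjoin ℂ {S.x}) (a - b) :=
    fun ha hb => ha.sub hb
  have ainv : ∀ {a : E}, IsAlgebraic (Algebra.adjoin ℂ {S.x}) a →
      IsAlgebraic (Algebra.adjoin ℂ {S.x}) a⁻¹ := fun ha => ha.inv
  have adiv : ∀ {a b : E}, IsAlgebraic (Algebra.adjoin ℂ {S.x}) a →
      IsAlgebraic (Algebra.adjoin ℂ {S.x}) b → IsAlgebraic (Algebra.adjoin ℂ {S.x}) (a / b) := by
    intro a b ha hb
    rw [div_eq_mul_inv]
    exact amul ha (ainv hb)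
  have aneg : ∀ {a : E}, IsAlgebraic (Algebra.adjoin ℂ {S.x}) a →
      IsAlgebraic (Algebra.adjoin ℂ {S.x}) (-a) := fun ha => ha.neg
  have a1 : IsAlgebraic (Algebra.adjoin ℂ {S.x}) (1 : E) := isAlgebraic_one
  have apoly : ∀ q : ℂ[X], IsAlgebraic (Algebra.adjoin ℂ {S.x}) (aeval S.x q) := by
    intro q
    induction q using Polynomial.induction_on' with
    | add p q hp hq =>
      rw [map_add]
      exact aadd hp hq
    | monomial n c =>
      rw [aeval_monomial]
      exact amul (ac c) (ax.pow n)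
  have aev : ∀ q : ℂ[X][X], IsAlgebraic (Algebra.adjoin ℂ {S.x}) (ev2 S.x S.y q) := by
    intro q
    induction q using Polynomial.induction_on' with
    | add p q hp hq =>
      rw [map_add]
      exact aadd hp hq
    | monomial n c =>
      rw [← C_mul_X_pow_eq_monomial, map_mul, map_pow, ev2_C, ev2_X]
      exact amul (apoly c) (ay.pow n)
  -- the square of `w`
  obtain ⟨q, hq⟩ := d.ev2 S.x S.y p
  rw [hp, d.zero] at hq
  have hrel : Helper772Sph.ev2 S.x S.y q * S.w ^ 2 = -Helper772Sph.ev2 S.x S.y (derivative p) := by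
    have h1 := S.Dx' hP hQ
    have h2 := S.Dy' hP hQ
    apply mul_right_cancel₀ hxy
    linear_combination (-2 * S.w) * hq - S.w * Helper772Sph.ev2 S.x S.y q * h1 -
      Helper772Sph.ev2 S.x S.y (derivative p) * h2
  have hq0 : Helper772Sph.ev2 S.x S.y q ≠ 0 := by
    intro h
    rw [h, zero_mul] at hrel
    exact hp' (neg_eq_zero.1 hrel.symm)
  have aw : IsAlgebraic (Algebra.adjoin ℂ {S.x}) S.w := by
    apply IsAlgebraic.of_pow (n := 2) two_pos
    have h1 : S.w ^ 2 = -Helper772Sph.ev2 S.x S.y (derivative p) / Helper772Sph.ev2 S.x S.y q := by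
      rw [eq_div_iff hq0, ← hrel]
      ring
    rw [h1]
    exact adiv (aneg (aev _)) (aev _)
  have hw := S.w_ne hP hQ
  have aP2 : IsAlgebraic (Algebra.adjoin ℂ {S.x}) S.P2 := by
    apply IsAlgebraic.of_pow (n := 2) two_pos
    have h1 : S.P2 ^ 2 = 1 / (S.w * (S.x - S.y)) := by
      rw [eq_div_iff (mul_ne_zero hw hxy)]
      linear_combination S.det' hP hQ
    rw [h1]
    exact adiv a1 (amul aw (asub ax ay))
  have aP1 : IsAlgebraic (Algebra.adjoin ℂ {S.x}) S.P1 := by
    rw [S.eP1 hP hQ]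
    exact amul ax aP2
  have aQ2 : IsAlgebraic (Algebra.adjoin ℂ {S.x}) S.Q2 := by
    rw [S.eQ2 hP hQ]
    exact amul aw aP2
  have aQ1 : IsAlgebraic (Algebra.adjoin ℂ {S.x}) S.Q1 := by
    rw [S.eQ1 hP hQ]
    exact amul ay (amul aw aP2)
  have aLf : ∀ (c : ℂ) {a b : E}, IsAlgebraic (Algebra.adjoin ℂ {S.x}) a →
      IsAlgebraic (Algebra.adjoin ℂ {S.x}) b → IsAlgebraic (Algebra.adjoin ℂ {S.x}) (Lf c a b) := by
    intro c a b ha hb
    unfold Lf
    exact asub (aadd (amul (ac _) (amul ha hb)) (aadd ha hb)) (ac _)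
  have aprod : ∀ (s : Finset ι), IsAlgebraic (Algebra.adjoin ℂ {S.x})
      (∏ i ∈ s, Lf (S.c i) S.x S.y) := by
    intro s
    induction s using Finset.induction_on with
    | empty => simpa using a1
    | insert i s hi ih =>
      rw [Finset.prod_insert hi]
      exact amul (aLf _ ax ay) ih
  have asum : ∀ (s : Finset ι) (f : ι → E), (∀ i, IsAlgebraic (Algebra.adjoin ℂ {S.x}) (f i)) →
      IsAlgebraic (Algebra.adjoin ℂ {S.x}) (∑ i ∈ s, f i) := by
    intro s f hf
    induction s using Finset.induction_on with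
    | empty => simpa using isAlgebraic_zero
    | insert i s hi ih =>
      rw [Finset.sum_insert hi]
      exact aadd (hf i) ih
  have aK : IsAlgebraic (Algebra.adjoin ℂ {S.x}) S.K := by
    have hLL := S.LL_ne hP hQ
    have h6 : (6 : E) ≠ 0 := by norm_num
    have h1 : S.K = (∑ j, algebraMap ℂ E (S.μ j : ℂ) *
        (Pf S.c j S.x S.y + S.w ^ 2 * Hf S.c j S.x S.y)) / (6 * S.w * S.LL) := by
      rw [eq_div_iff (mul_ne_zero (mul_ne_zero h6 hw) hLL), ← S.Kw hP hQ]
      ring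
    have a6 : IsAlgebraic (Algebra.adjoin ℂ {S.x}) (6 : E) := by
      have := ac 6
      rwa [map_ofNat] at this
    rw [h1]
    refine adiv (asum _ _ fun j => ?_) (amul (amul a6 aw) (aprod _))
    refine amul (ac _) (aadd (amul (aLf _ ax ax) (aprod _))
      (amul (aw.pow 2) (amul (aLf _ ay ay) (aprod _))))
  exact caseI S S.x aK aP1 aP2 aQ1 aQ2

/-- the algebraic theorem -/
theorem Sys.DK_zero (hP : S.P2 ≠ 0) (hQ : S.Q2 ≠ 0) [Nontrivial ι] (hc0 : ∀ j, S.c j ≠ 0) :
    d.D S.K = 0 := by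
  by_cases h : Function.Injective (ev2 S.x S.y)
  · exact (S.not_inj hP hQ hc0 h).elim
  · exact S.dep hP hQ h

end frame

end Helper772Sph
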