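import Mathlib
import Pool.Agent.Helper772_Chen.Persist
import Pool.Agent.Helper772_Sph.AlgMain
import Pool.Agent.Y226.ZG.Euler

set_option autoImplicit false

open MvPolynomial
open Pool.Agent.Y226.ZG (LS eul eul_coeff eul_add eul_mul eul_zero eul_C eul_single)

namespace Helper772Sph

section TT

variable {σ : Type} (F : σ → MvPolynomial σ ℂ) (y0 : σ → ℂ)

/-- formal Taylor series of a polynomial along the formal flow of `F` -/
noncomputable def TTf (p : MvPolynomial σ ℂ) : PowerSeries ℂ :=
  PowerSeries.mk fun n => eval y0 ((mkDerivation ℂ F)^[n] p) / (n.factorial : ℂ)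

theorem TTf_coeff (p : MvPolynomial σ ℂ) (n : ℕ) : PowerSeries.coeff n (TTf F y0 p) =
    eval y0 ((mkDerivation ℂ F)^[n] p) / (n.factorial : ℂ) := by
  unfold TTf
  rw [PowerSeries.coeff_mk]

theorem TTf_deriv (p : MvPolynomial σ ℂ) :
    PowerSeries.derivative ℂ (TTf F y0 p) = TTf F y0 (mkDerivation ℂ F p) := by
  ext n
  rw [PowerSeries.coeff_derivative, TTf_coeff, TTf_coeff, Function.iterate_succ_apply,
    Nat.factorial_succ]
  have h1 : ((n.factorial : ℕ) : ℂ) ≠ 0 := by exact_mod_cast n.factorial_ne_zero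
  have h2 : ((n : ℂ) + 1) ≠ 0 := by exact_mod_cast n.succ_ne_zero
  push_cast
  field_simp

theorem TTf_add (p q : MvPolynomial σ ℂ) : TTf F y0 (p + q) = TTf F y0 p + TTf F y0 q := by
  ext n
  rw [map_add, TTf_coeff, TTf_coeff, TTf_coeff, iterate_map_add, map_add, add_div]

theorem TTf_coeff_zero (p : MvPolynomial σ ℂ) :
    PowerSeries.coeff 0 (TTf F y0 p) = eval y0 p := by
  rw [TTf_coeff]
  simp

theorem TTf_mul (p q : MvPolynomial σ ℂ) : TTf F y0 (p * q) = TTf F y0 p * TTf F y0 q := by
  ext n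
  induction n generalizing p q with
  | zero =>
    have h : PowerSeries.coeff 0 (TTf F y0 p * TTf F y0 q) =
        PowerSeries.coeff 0 (TTf F y0 p) * PowerSeries.coeff 0 (TTf F y0 q) := by
      simp only [PowerSeries.coeff_zero_eq_constantCoeff, map_mul]
    rw [h, TTf_coeff_zero, TTf_coeff_zero, TTf_coeff_zero, map_mul]
  | succ n ih =>
    have h2 : ((n : ℂ) + 1) ≠ 0 := by exact_mod_cast n.succ_ne_zero
    apply mul_right_cancel₀ h2
    rw [← PowerSeries.coeff_derivative, ← PowerSeries.coeff_derivative, TTf_deriv,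
      Derivation.leibniz, smul_eq_mul, smul_eq_mul, TTf_add, map_add, ih, ih,
      Derivation.leibniz, TTf_deriv, TTf_deriv, smul_eq_mul, smul_eq_mul, map_add]

theorem TTf_C (c : ℂ) : TTf F y0 (C c) = PowerSeries.C c := by
  ext n
  rw [TTf_coeff, PowerSeries.coeff_C]
  rcases n with _ | n
  · simp
  · rw [Function.iterate_succ_apply]
    have h1 : mkDerivation ℂ F (C c) = 0 := (mkDerivation ℂ F).map_algebraMap c
    rw [h1]
    have h2 : (mkDerivation ℂ F)^[n] 0 = 0 := iterate_map_zero _ n
    rw [h2]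
    simp

/-- the formal Taylor homomorphism -/
noncomputable def TT : MvPolynomial σ ℂ →+* PowerSeries ℂ where
  toFun := TTf F y0
  map_one' := by
    have := TTf_C F y0 1
    rwa [map_one, map_one] at this
  map_mul' := TTf_mul F y0
  map_zero' := by
    have := TTf_C F y0 0
    rwa [map_zero, map_zero] at this
  map_add' := TTf_add F y0

theorem TT_deriv (p : MvPolynomial σ ℂ) :
    PowerSeries.derivative ℂ (TT F y0 p) = TT F y0 (mkDerivation ℂ F p) := TTf_deriv F y0 p

theorem TT_C (c : ℂ) : TT F y0 (C c) = PowerSeries.C c := TTf_C F y0 c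

theorem TT_X (v : σ) : PowerSeries.derivative ℂ (TT F y0 (X v)) = TT F y0 (F v) := by
  rw [TT_deriv, mkDerivation_X]

theorem TT_zero_coeff (p : MvPolynomial σ ℂ) : PowerSeries.coeff 0 (TT F y0 p) = eval y0 p :=
  TTf_coeff_zero F y0 p

end TT

section transfer

variable {σ₀ σ : Type} (F₀ : σ₀ → MvPolynomial σ₀ ℝ) (F : σ → MvPolynomial σ ℂ) (e : σ₀ → σ)

/-- complexification and renaming -/
noncomputable def cx : MvPolynomial σ₀ ℝ →+* MvPolynomial σ ℂ :=
  eval₂Hom ((C : ℂ →+* MvPolynomial σ ℂ).comp Complex.ofRealHom) (fun v => X (e v))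

theorem cx_C (r : ℝ) : cx e (C r) = C (r : ℂ) := by simp [cx]

theorem cx_X (v : σ₀) : cx e (X v : MvPolynomial σ₀ ℝ) = X (e v) := by simp [cx]

theorem cx_deriv (h : ∀ v, cx e (F₀ v) = F (e v)) (p : MvPolynomial σ₀ ℝ) :
    cx e (mkDerivation ℝ F₀ p) = mkDerivation ℂ F (cx e p) := by
  induction p using MvPolynomial.induction_on with
  | C a =>
    have h1 : mkDerivation ℝ F₀ (C a) = 0 := (mkDerivation ℝ F₀).map_algebraMap a
    have h2 : mkDerivation ℂ F (C (a : ℂ)) = 0 := (mkDerivation ℂ F).map_algebraMap _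
    rw [h1, cx_C, h2, map_zero]
  | add p q hp hq => rw [map_add, map_add, hp, hq, map_add, map_add]
  | mul_X p i hp =>
    rw [Derivation.leibniz, map_add, map_mul (cx e) p (X i), Derivation.leibniz, cx_X,
      mkDerivation_X, mkDerivation_X, smul_eq_mul, smul_eq_mul, map_mul, map_mul, hp, h, cx_X,
      smul_eq_mul, smul_eq_mul]

theorem cx_eval (y0 : σ → ℂ) (x0 : σ₀ → ℝ) (h : ∀ v, y0 (e v) = x0 v) (p : MvPolynomial σ₀ ℝ) :
    eval y0 (cx e p) = (eval x0 p : ℝ) := by
  induction p using MvPolynomial.induction_on with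
  | C a => rw [cx_C, eval_C, eval_C]
  | add p q hp hq => rw [map_add, map_add, hp, hq, map_add, Complex.ofReal_add]
  | mul_X p i hp => rw [map_mul, map_mul, cx_X, eval_X, hp, h, map_mul, eval_X, Complex.ofReal_mul]

theorem TT_cx_zero (h : ∀ v, cx e (F₀ v) = F (e v)) (y0 : σ → ℂ) (x0 : σ₀ → ℝ)
    (hy : ∀ v, y0 (e v) = x0 v) (p : MvPolynomial σ₀ ℝ)
    (hp : ∀ n, eval x0 ((mkDerivation ℝ F₀)^[n] p) = 0) : TT F y0 (cx e p) = 0 := by
  have h1 : ∀ n, cx e ((mkDerivation ℝ F₀)^[n] p) = (mkDerivation ℂ F)^[n] (cx e p) := by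
    intro n
    induction n with
    | zero => rfl
    | succ n ih =>
      rw [Function.iterate_succ_apply', Function.iterate_succ_apply', cx_deriv F₀ F e h, ih]
  ext n
  change PowerSeries.coeff n (TTf F y0 (cx e p)) = _
  rw [TTf_coeff, ← h1, cx_eval e y0 x0 hy, hp]
  simp

end transfer

section series

/-- uniqueness for homogeneous linear systems of formal series -/
theorem lin_unique (A B A' B' u v : PowerSeries ℂ)
    (hu : PowerSeries.derivative ℂ u = A * u + B * v)
    (hv : PowerSeries.derivative ℂ v = A' * u + B' * v)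
    (hu0 : PowerSeries.coeff 0 u = 0) (hv0 : PowerSeries.coeff 0 v = 0) : u = 0 ∧ v = 0 := by
  have key : ∀ n : ℕ, PowerSeries.X ^ n ∣ u ∧ PowerSeries.X ^ n ∣ v := by
    intro n
    induction n with
    | zero => simp
    | succ n ih =>
      obtain ⟨h1, h2⟩ := ih
      have gen : ∀ (w a b : PowerSeries ℂ), PowerSeries.derivative ℂ w = a * u + b * v →
          PowerSeries.coeff 0 w = 0 → PowerSeries.X ^ (n + 1) ∣ w := by
        intro w a b hw hw0
        have h3 : PowerSeries.X ^ n ∣ PowerSeries.derivative ℂ w := by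
          rw [hw]
          exact dvd_add (Dvd.dvd.mul_left h1 a) (Dvd.dvd.mul_left h2 b)
        rw [PowerSeries.X_pow_dvd_iff] at h3 ⊢
        intro m hm
        rcases m with _ | m
        · exact hw0
        · have h4 := h3 m (by omega)
          rw [PowerSeries.coeff_derivative] at h4
          have h5 : ((m : ℂ) + 1) ≠ 0 := by exact_mod_cast m.succ_ne_zero
          exact (mul_eq_zero.1 h4).resolve_right h5
      exact ⟨gen u A B hu hu0, gen v A' B' hv hv0⟩
  constructor
  · ext m
    have := (key (m + 1)).1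
    rw [PowerSeries.X_pow_dvd_iff] at this
    exact this m (by omega)
  · ext m
    have := (key (m + 1)).2
    rw [PowerSeries.X_pow_dvd_iff] at this
    exact this m (by omega)

theorem algL (c : ℂ) : algebraMap ℂ (LS ℂ) c = HahnSeries.C c := by
  rw [HahnSeries.algebraMap_apply']
  simp

/-- differentiation of Laurent series -/
noncomputable def dL : Dv (LS ℂ) where
  D := fun f => HahnSeries.single (-1) 1 * eul f
  add := fun a b => by rw [eul_add]; ring
  mul := fun a b => by rw [eul_mul]; ring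
  const := fun c => by
    rw [algL, eul_C, mul_zero]

/-- embedding of power series -/
noncomputable def iL : PowerSeries ℂ →+* LS ℂ := HahnSeries.ofPowerSeries ℤ ℂ

theorem iL_injective : Function.Injective iL := HahnSeries.ofPowerSeries_injective

theorem iL_C (c : ℂ) : iL (PowerSeries.C c) = algebraMap ℂ (LS ℂ) c := by
  unfold iL
  rw [HahnSeries.ofPowerSeries_C, algL]

theorem iL_coeff (f : PowerSeries ℂ) (i : ℤ) :
    (iL f).coeff i = if i < 0 then 0 else PowerSeries.coeff i.natAbs f :=
  PowerSeries.coeff_coe f i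

theorem iL_deriv (f : PowerSeries ℂ) : dL.D (iL f) = iL (PowerSeries.derivative ℂ f) := by
  ext n
  change (HahnSeries.single (-1 : ℤ) (1 : ℂ) * eul (iL f)).coeff n = _
  have h1 : n = (n + 1) + (-1 : ℤ) := by ring
  conv_lhs => rw [h1]
  rw [HahnSeries.coeff_single_mul_add, one_mul, eul_coeff, iL_coeff, iL_coeff]
  by_cases hn : n < 0
  · rw [if_pos hn]
    by_cases hn' : n + 1 < 0
    · rw [if_pos hn', mul_zero]
    · have : n + 1 = 0 := by omega
      rw [this]
      simp
  · rw [if_neg hn, if_neg (by omega), PowerSeries.coeff_derivative]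
    have h2 : (n + 1).natAbs = n.natAbs + 1 := by omega
    rw [h2]
    have h3 : ((n + 1 : ℤ) : ℂ) = (n.natAbs : ℂ) + 1 := by
      have : (n.natAbs : ℤ) = n := by omega
      rw [← Int.cast_natCast (R := ℂ) n.natAbs, this]
      push_cast
      ring
    rw [h3]
    ring

end series

end Helper772Sph
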