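import Mathlib
import Pool.Agent.Helper772_Sph.Formal

set_option autoImplicit false

open Pool.Agent.Y226.ZG (LS eul eul_coeff eul_add eul_mul eul_zero eul_C eul_single)

namespace Helper772Sph

/-- the case of a single wall -/
theorem one_wall {F : Type} [Field F] [Algebra ℂ F] (d : Dv F) (n : ℝ) (hn : 0 < n) (K a b : F)
    (h1 : algebraMap ℂ F (n : ℂ) * a = 3 * K) (ha : d.D a = -((K + a) * b))
    (hb : d.D b = -(b * b) - K * a - 1)
    (e2 : d.D K * (algebraMap ℂ F (n : ℂ) * b) +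
      algebraMap ℂ F (n : ℂ) * ((K + a) * (b * b)) + 3 * (K * (K * K)) +
      2 * (K * (algebraMap ℂ F (n : ℂ) * (a * a))) +
      (2 * algebraMap ℂ F (n : ℂ) + 3) * K = 0) : d.D K = 0 := by
  have := Sys.char0 (F := F)
  by_cases hK : K = 0
  · rw [hK, d.zero]
  set ν := algebraMap ℂ F (n : ℂ) with hν
  have dν : ∀ g, d.D (ν * g) = ν * d.D g := fun g => d.cmul _ g
  have d3 : ∀ g, d.D (3 * g) = 3 * d.D g := fun g => by
    have := d.cmul 3 g
    rwa [map_ofNat] at this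
  have hνne : ∀ r : ℝ, 0 < r → algebraMap ℂ F (r : ℂ) ≠ 0 := by
    intro r hr h
    have h2 : (r : ℂ) = 0 := (algebraMap ℂ F).injective (h.trans (map_zero _).symm)
    have : r = 0 := by exact_mod_cast h2
    linarith
  have hν0 : ν ≠ 0 := hνne n hn
  have hν3 : ν + 3 ≠ 0 := by
    have := hνne (n + 3) (by linarith)
    rwa [Complex.ofReal_add, map_add, Complex.ofReal_ofNat, map_ofNat] at this
  have hν23 : 2 * ν + 3 ≠ 0 := by
    have := hνne (2 * n + 3) (by linarith)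
    rwa [Complex.ofReal_add, map_add, Complex.ofReal_mul, map_mul, Complex.ofReal_ofNat,
      Complex.ofReal_ofNat, map_ofNat, map_ofNat] at this
  -- derivative of `K`
  have hDK : 3 * d.D K = -((ν + 3) * K * b) := by
    rw [← d3, ← h1, dν, ha]
    linear_combination (-b) * h1
  have hDb : ν * d.D b = -(ν * (b * b)) - 3 * (K * K) - ν := by
    rw [hb]
    linear_combination (-K) * h1
  have hG : ν * (ν + 3) * (3 - ν) * (b * b) + 9 * (ν + 6) * (K * K) + 3 * ν * (2 * ν + 3) = 0 := by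
    apply mul_left_cancel₀ hK
    linear_combination (3 * ν) * e2 - ν ^ 2 * b * hDK -
      (3 * ν * (b * b) + 6 * K * (ν * a + 3 * K)) * h1
  by_cases hb0 : b = 0
  · have h3 : (3 : F) ≠ 0 := by norm_num
    apply mul_left_cancel₀ h3
    rw [hDK, hb0]
    ring
  -- differentiate `G`
  have dc : ∀ c : ℂ, ∀ g, d.D (algebraMap ℂ F c * g) = algebraMap ℂ F c * d.D g := fun c g =>
    d.cmul c g
  have hDG : ν * (ν + 3) * (3 - ν) * (2 * (b * d.D b)) + 9 * (ν + 6) * (2 * (K * d.D K)) = 0 := by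
    have h2 := congrArg d.D hG
    have e1 : ν * (ν + 3) * (3 - ν) = algebraMap ℂ F (n * (n + 3) * (3 - n)) := by
      simp only [map_mul, map_add, map_sub, map_ofNat, hν]
    have e2 : 9 * (ν + 6) = algebraMap ℂ F (9 * (n + 6)) := by
      simp only [map_mul, map_add, map_ofNat, hν]
    have e3 : 3 * ν * (2 * ν + 3) = algebraMap ℂ F (3 * n * (2 * n + 3)) := by
      simp only [map_mul, map_add, map_ofNat, hν]
    rw [e1, e2, e3, d.add, d.add, d.const, dc, dc, d.mul, d.mul, d.zero] at h2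
    rw [e1, e2]
    linear_combination h2
  have hH : (3 - ν) * (ν * (b * b) + 3 * (K * K) + ν) + 3 * (ν + 6) * (K * K) = 0 := by
    have h2 : (2 : F) * (ν + 3) * b ≠ 0 := mul_ne_zero (mul_ne_zero two_ne_zero hν3) hb0
    apply mul_left_cancel₀ h2
    linear_combination (-1 : F) * hDG + 2 * (ν + 3) * (3 - ν) * b * hDb + 6 * (ν + 6) * K * hDK
  have hfin : 9 * (2 * ν + 3) * (K * K) = ν * ν * (ν + 6) := by
    linear_combination (ν + 3) * hH - hG
  have h2 := congrArg d.D hfin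
  have e1 : 9 * (2 * ν + 3) = algebraMap ℂ F (9 * (2 * n + 3)) := by
    simp only [map_mul, map_add, map_ofNat, hν]
  have e3 : ν * ν * (ν + 6) = algebraMap ℂ F (n * n * (n + 6)) := by
    simp only [map_mul, map_add, map_ofNat, hν]
  rw [e3, d.const, e1, dc, ← e1, d.mul] at h2
  have h3 : (9 : F) * (2 * ν + 3) * (2 * K) ≠ 0 :=
    mul_ne_zero (mul_ne_zero (by norm_num) hν23) (mul_ne_zero two_ne_zero hK)
  apply mul_left_cancel₀ h3
  linear_combination h2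

/-- polarized form for power series -/
noncomputable def bP (c : ℂ) (a₁ a₂ b₁ b₂ : PowerSeries ℂ) : PowerSeries ℂ :=
  PowerSeries.C c * (a₁ * b₁) + (a₁ * b₂ + a₂ * b₁) -
    PowerSeries.C ((starRingEnd ℂ) c) * (a₂ * b₂)

theorem iL_bP (c : ℂ) (a₁ a₂ b₁ b₂ : PowerSeries ℂ) :
    iL (bP c a₁ a₂ b₁ b₂) = bil c (iL a₁) (iL a₂) (iL b₁) (iL b₂) := by
  unfold bP bil
  simp only [map_sub, map_add, map_mul, iL_C]

theorem d_bP (c : ℂ) (a₁ a₂ b₁ b₂ : PowerSeries ℂ) :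
    PowerSeries.derivative ℂ (bP c a₁ a₂ b₁ b₂) =
      bP c (PowerSeries.derivative ℂ a₁) (PowerSeries.derivative ℂ a₂) b₁ b₂ +
      bP c a₁ a₂ (PowerSeries.derivative ℂ b₁) (PowerSeries.derivative ℂ b₂) := by
  unfold bP
  simp only [map_sub, map_add, Derivation.leibniz, smul_eq_mul, PowerSeries.derivative_C,
    mul_zero, add_zero]
  ring

/-- The formal data. -/
structure FD (ι : Type) [Fintype ι] where
  K : PowerSeries ℂ
  P1 : PowerSeries ℂ
  P2 : PowerSeries ℂ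
  Q1 : PowerSeries ℂ
  Q2 : PowerSeries ℂ
  al : ι → PowerSeries ℂ
  be : ι → PowerSeries ℂ
  dP1 : 2 * PowerSeries.derivative ℂ P1 = -(K * P1) - Q1
  dP2 : 2 * PowerSeries.derivative ℂ P2 = -(K * P2) - Q2
  dQ1 : 2 * PowerSeries.derivative ℂ Q1 = P1 + K * Q1
  dQ2 : 2 * PowerSeries.derivative ℂ Q2 = P2 + K * Q2
  dal : ∀ j, PowerSeries.derivative ℂ (al j) = -((K + al j) * be j)
  dbe : ∀ j, PowerSeries.derivative ℂ (be j) = -(be j * be j) - K * al j - 1
  e1 : ∑ j, al j = 3 * K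
  e2 : PowerSeries.derivative ℂ K * ∑ j, be j + ∑ j, (K + al j) * (be j * be j) +
    3 * (K * (K * K)) + 2 * (K * ∑ j, al j * al j) +
    (2 * (Fintype.card ι : PowerSeries ℂ) + 3) * K = 0
  P10 : PowerSeries.coeff 0 P1 = 1
  P20 : PowerSeries.coeff 0 P2 = 0
  Q10 : PowerSeries.coeff 0 Q1 = 0
  Q20 : PowerSeries.coeff 0 Q2 = 1
  hconj : ∀ j, (starRingEnd ℂ) (PowerSeries.coeff 0 (be j) + PowerSeries.coeff 0 (al j)) =
    PowerSeries.coeff 0 (be j) - PowerSeries.coeff 0 (al j)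
  hne : ∀ j, PowerSeries.coeff 0 (be j) + PowerSeries.coeff 0 (al j) ≠ 0

namespace FD

variable {ι : Type} [Fintype ι] (S : FD ι)

noncomputable def c (j : ι) : ℂ := PowerSeries.coeff 0 (S.be j) + PowerSeries.coeff 0 (S.al j)

theorem coeff0_mul (f g : PowerSeries ℂ) : PowerSeries.coeff 0 (f * g) =
    PowerSeries.coeff 0 f * PowerSeries.coeff 0 g := by
  simp only [PowerSeries.coeff_zero_eq_constantCoeff, map_mul]

theorem coeff0_C (c : ℂ) : PowerSeries.coeff 0 (PowerSeries.C c) = c := by simp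

theorem half2 : (2 : PowerSeries ℂ) * PowerSeries.C (1 / 2 : ℂ) = 1 := by
  have : (2 : PowerSeries ℂ) = PowerSeries.C 2 := (map_ofNat PowerSeries.C 2).symm
  rw [this, ← map_mul]
  norm_num

theorem two_ne : (2 : PowerSeries ℂ) ≠ 0 := by
  intro h
  have := half2
  rw [h, zero_mul] at this
  exact zero_ne_one this

theorem coeff0_bP (c : ℂ) (a₁ a₂ b₁ b₂ : PowerSeries ℂ) : PowerSeries.coeff 0 (bP c a₁ a₂ b₁ b₂) =
    c * (PowerSeries.coeff 0 a₁ * PowerSeries.coeff 0 b₁) +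
    (PowerSeries.coeff 0 a₁ * PowerSeries.coeff 0 b₂ +
      PowerSeries.coeff 0 a₂ * PowerSeries.coeff 0 b₁) -
    (starRingEnd ℂ) c * (PowerSeries.coeff 0 a₂ * PowerSeries.coeff 0 b₂) := by
  unfold bP
  simp only [map_sub, map_add, coeff0_mul, coeff0_C]

theorem dl (c : ℂ) : 2 * PowerSeries.derivative ℂ (bP c S.P1 S.P2 S.Q1 S.Q2) =
    bP c S.P1 S.P2 S.P1 S.P2 - bP c S.Q1 S.Q2 S.Q1 S.Q2 := by
  rw [d_bP]
  apply mul_left_cancel₀ two_ne
  have h1 := S.dP1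
  have h2 := S.dP2
  have h3 := S.dQ1
  have h4 := S.dQ2
  unfold bP
  linear_combination (2 * (PowerSeries.C c) * S.Q1 + 2 * S.Q2) * h1 +
    (2 * S.Q1 - 2 * PowerSeries.C ((starRingEnd ℂ) c) * S.Q2) * h2 +
    (2 * (PowerSeries.C c) * S.P1 + 2 * S.P2) * h3 +
    (2 * S.P1 - 2 * PowerSeries.C ((starRingEnd ℂ) c) * S.P2) * h4

theorem dp (c : ℂ) : PowerSeries.derivative ℂ (bP c S.P1 S.P2 S.P1 S.P2) =
    -bP c S.P1 S.P2 S.Q1 S.Q2 - S.K * bP c S.P1 S.P2 S.P1 S.P2 := by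
  rw [d_bP]
  have h1 := S.dP1
  have h2 := S.dP2
  unfold bP
  linear_combination ((PowerSeries.C c) * S.P1 + S.P2) * h1 +
    (S.P1 - PowerSeries.C ((starRingEnd ℂ) c) * S.P2) * h2

theorem dm (c : ℂ) : PowerSeries.derivative ℂ (bP c S.Q1 S.Q2 S.Q1 S.Q2) =
    bP c S.P1 S.P2 S.Q1 S.Q2 + S.K * bP c S.Q1 S.Q2 S.Q1 S.Q2 := by
  rw [d_bP]
  have h1 := S.dQ1
  have h2 := S.dQ2
  unfold bP
  linear_combination ((PowerSeries.C c) * S.Q1 + S.Q2) * h1 +
    (S.Q1 - PowerSeries.C ((starRingEnd ℂ) c) * S.Q2) * h2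

theorem identify (j : ι) :
    bP (S.c j) S.P1 S.P2 S.P1 S.P2 = (S.al j + S.be j) * bP (S.c j) S.P1 S.P2 S.Q1 S.Q2 ∧
    -bP (S.c j) S.Q1 S.Q2 S.Q1 S.Q2 = (S.be j - S.al j) * bP (S.c j) S.P1 S.P2 S.Q1 S.Q2 := by
  set hp := bP (S.c j) S.P1 S.P2 S.P1 S.P2 with hhp
  set hq := bP (S.c j) S.Q1 S.Q2 S.Q1 S.Q2 with hhq
  set l := bP (S.c j) S.P1 S.P2 S.Q1 S.Q2 with hl
  set hf := PowerSeries.C (1 / 2 : ℂ) with hhf
  have h2 : 2 * hf = 1 := half2
  have hdl := S.dl (S.c j)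
  have hdp := S.dp (S.c j)
  have hdm := S.dm (S.c j)
  rw [← hhp, ← hhq, ← hl] at hdl
  rw [← hhp, ← hl] at hdp
  rw [← hhq, ← hl] at hdm
  have hdal := S.dal j
  have hdbe := S.dbe j
  have hl0 : PowerSeries.coeff 0 l = 1 := by
    rw [hl, coeff0_bP, S.P10, S.P20, S.Q10, S.Q20]
    ring
  have hp0 : PowerSeries.coeff 0 hp = S.c j := by
    rw [hhp, coeff0_bP, S.P10, S.P20]
    ring
  have hq0 : PowerSeries.coeff 0 hq = -(starRingEnd ℂ) (S.c j) := by
    rw [hhq, coeff0_bP, S.Q10, S.Q20]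
    ring
  have key := lin_unique (-S.K - hf * (S.al j + S.be j)) (-(hf * (S.al j + S.be j)))
    (-(hf * (S.be j - S.al j))) (S.K - hf * (S.be j - S.al j))
    (hp - (S.al j + S.be j) * l) (-hq - (S.be j - S.al j) * l) ?_ ?_ ?_ ?_
  · exact ⟨sub_eq_zero.1 key.1, sub_eq_zero.1 key.2⟩
  · rw [map_sub, Derivation.leibniz, map_add, smul_eq_mul, smul_eq_mul, hdp, hdal, hdbe]
    apply mul_left_cancel₀ two_ne
    linear_combination (-(S.al j + S.be j)) * hdl +
      ((S.al j + S.be j) * (hp - hq - 2 * S.be j * l)) * h2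
  · rw [map_sub, Derivation.leibniz, map_sub, map_neg, smul_eq_mul, smul_eq_mul, hdm, hdal, hdbe]
    apply mul_left_cancel₀ two_ne
    linear_combination (-(S.be j - S.al j)) * hdl +
      ((S.be j - S.al j) * (hp - hq - 2 * S.be j * l)) * h2
  · rw [map_sub, coeff0_mul, map_add, hp0, hl0]
    unfold c
    ring
  · rw [map_sub, coeff0_mul, map_sub, map_neg, hq0, hl0]
    have := S.hconj j
    unfold c
    rw [this]
    ring

end FD

end Helper772Sph
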