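import Mathlib
import Pool.Agent.Helper772_Sph.FormalSys

set_option autoImplicit false

open Pool.Agent.Y226.ZG (LS eul eul_coeff eul_add eul_mul eul_zero eul_C eul_single)

namespace Helper772Sph

namespace FD

variable {ι : Type} [Fintype ι] (S : FD ι)

theorem iL_two : iL (2 : PowerSeries ℂ) = 2 := map_ofNat iL 2

/-- the set of walls -/
abbrev Wt : Type := {z : ℂ // z ∈ Finset.univ.image S.c}

open Classical in
/-- multiplicity of a wall -/
noncomputable def mult (z : ℂ) : ℕ := (Finset.univ.filter fun j => S.c j = z).card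

theorem mult_pos (z : S.Wt) : 0 < S.mult z.1 := by
  classical
  obtain ⟨z, hz⟩ := z
  obtain ⟨j, -, hj⟩ := Finset.mem_image.1 hz
  unfold mult
  rw [Finset.card_pos]
  exact ⟨j, by simp [hj]⟩

theorem sum_group (f : ℂ → LS ℂ) :
    ∑ z : S.Wt, algebraMap ℂ (LS ℂ) (((S.mult z.1 : ℝ)) : ℂ) * f z.1 = ∑ j, f (S.c j) := by
  classical
  rw [Finset.sum_comp f S.c, ← Finset.sum_coe_sort (Finset.univ.image S.c)]
  refine Finset.sum_congr rfl fun z _ => ?_
  rw [nsmul_eq_mul]
  congr 1
  rw [Complex.ofReal_natCast, map_natCast]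
  unfold mult
  congr

theorem sum_mult : ∑ z : S.Wt, (S.mult z.1 : ℝ) = Fintype.card ι := by
  classical
  rw [Finset.sum_coe_sort (Finset.univ.image S.c) (fun z => (S.mult z : ℝ))]
  rw [← Nat.cast_sum]
  congr 1
  have := Finset.card_eq_sum_card_image S.c Finset.univ
  rw [← Finset.card_univ, this]
  refine Finset.sum_congr rfl fun z _ => ?_
  unfold mult
  congr

noncomputable def alF (z : ℂ) : LS ℂ :=
  (bil z (iL S.P1) (iL S.P2) (iL S.P1) (iL S.P2) + bil z (iL S.Q1) (iL S.Q2) (iL S.Q1) (iL S.Q2)) /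
    (2 * bil z (iL S.P1) (iL S.P2) (iL S.Q1) (iL S.Q2))

noncomputable def beF (z : ℂ) : LS ℂ :=
  (bil z (iL S.P1) (iL S.P2) (iL S.P1) (iL S.P2) - bil z (iL S.Q1) (iL S.Q2) (iL S.Q1) (iL S.Q2)) /
    (2 * bil z (iL S.P1) (iL S.P2) (iL S.Q1) (iL S.Q2))

theorem iL_ne {f : PowerSeries ℂ} (h : PowerSeries.coeff 0 f ≠ 0) : iL f ≠ 0 := by
  intro h0
  have : f = 0 := iL_injective (h0.trans (map_zero iL).symm)
  rw [this] at h
  simp at h

theorem l_ne (z : ℂ) : bil z (iL S.P1) (iL S.P2) (iL S.Q1) (iL S.Q2) ≠ 0 := by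
  rw [← iL_bP]
  apply iL_ne
  rw [coeff0_bP, S.P10, S.P20, S.Q10, S.Q20]
  simp

theorem alF_eq (j : ι) : S.alF (S.c j) = iL (S.al j) := by
  unfold alF
  have h2 := Sys.two_ne (F := LS ℂ)
  rw [div_eq_iff (mul_ne_zero h2 (S.l_ne _))]
  have h := S.identify j
  have e1 := congrArg iL h.1
  have e2 := congrArg iL h.2
  simp only [map_mul, map_neg, map_add, map_sub, iL_bP] at e1 e2
  linear_combination e1 - e2

theorem beF_eq (j : ι) : S.beF (S.c j) = iL (S.be j) := by
  unfold beF
  have h2 := Sys.two_ne (F := LS ℂ)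
  rw [div_eq_iff (mul_ne_zero h2 (S.l_ne _))]
  have h := S.identify j
  have e1 := congrArg iL h.1
  have e2 := congrArg iL h.2
  simp only [map_mul, map_neg, map_add, map_sub, iL_bP] at e1 e2
  linear_combination e1 + e2

theorem det : S.P1 * S.Q2 - S.P2 * S.Q1 = 1 := by
  have key := lin_unique 0 0 0 0 (S.P1 * S.Q2 - S.P2 * S.Q1 - 1) 0 ?_ ?_ ?_ ?_
  · exact sub_eq_zero.1 key.1
  · apply mul_left_cancel₀ two_ne
    simp only [map_sub, Derivation.leibniz, smul_eq_mul, Derivation.map_one_eq_zero]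
    have h1 := S.dP1
    have h2 := S.dP2
    have h3 := S.dQ1
    have h4 := S.dQ2
    linear_combination S.Q2 * h1 - S.Q1 * h2 - S.P2 * h3 + S.P1 * h4
  · simp
  · rw [map_sub, map_sub, coeff0_mul, coeff0_mul, S.P10, S.P20, S.Q20]
    simp
  · simp

theorem eL {f g : PowerSeries ℂ} (h : 2 * PowerSeries.derivative ℂ f = g) :
    2 * dL.D (iL f) = iL g := by
  rw [iL_deriv, ← h, map_mul, iL_two]

/-- the algebraic system over Laurent series -/
noncomputable def sys : Sys (LS ℂ) dL S.Wt where
  μ := fun z => (S.mult z.1 : ℝ)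
  c := fun z => z.1
  P1 := iL S.P1
  P2 := iL S.P2
  Q1 := iL S.Q1
  Q2 := iL S.Q2
  K := iL S.K
  al := fun z => S.alF z.1
  be := fun z => S.beF z.1
  hμ := fun z => by exact_mod_cast S.mult_pos z
  cinj := Subtype.val_injective
  det := by
    rw [← map_mul, ← map_mul, ← map_sub, S.det, map_one]
  dP1 := by
    rw [eL S.dP1, map_sub, map_neg, map_mul]
  dP2 := by
    rw [eL S.dP2, map_sub, map_neg, map_mul]
  dQ1 := by
    rw [eL S.dQ1, map_add, map_mul]
  dQ2 := by
    rw [eL S.dQ2, map_add, map_mul]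
  hl := fun z => S.l_ne z.1
  hal := fun z => by
    unfold alF
    rw [div_mul_cancel₀]
    exact mul_ne_zero (Sys.two_ne (F := LS ℂ)) (S.l_ne _)
  hbe := fun z => by
    unfold beF
    rw [div_mul_cancel₀]
    exact mul_ne_zero (Sys.two_ne (F := LS ℂ)) (S.l_ne _)
  e1 := by
    rw [S.sum_group (fun z => S.alF z)]
    simp only [S.alF_eq]
    have := congrArg iL S.e1
    rw [map_sum, map_mul, map_ofNat] at this
    exact this
  e2 := by
    have s1 := S.sum_group (fun z => S.beF z)
    have s2 := S.sum_group (fun z => (iL S.K + S.alF z) * (S.beF z * S.beF z))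
    have s3 := S.sum_group (fun z => S.alF z * S.alF z)
    rw [s1, s2, s3]
    simp only [S.alF_eq, S.beF_eq]
    rw [S.sum_mult]
    have h := congrArg iL S.e2
    simp only [map_add, map_mul, map_sum, map_ofNat, map_natCast, map_zero] at h
    rw [iL_deriv, ← h]
    congr 2
    rw [Complex.ofReal_add, Complex.ofReal_mul, Complex.ofReal_natCast, Complex.ofReal_ofNat,
      Complex.ofReal_ofNat, map_add, map_mul, map_ofNat, map_ofNat, map_natCast]

theorem main : PowerSeries.derivative ℂ S.K = 0 := by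
  classical
  have red : dL.D (iL S.K) = 0 → PowerSeries.derivative ℂ S.K = 0 := by
    intro h
    rw [iL_deriv] at h
    exact iL_injective (h.trans (map_zero iL).symm)
  apply red
  by_cases hnt : Nontrivial S.Wt
  · have hQ : (S.sys).Q2 ≠ 0 := by
      apply iL_ne
      rw [S.Q20]
      exact one_ne_zero
    have hP : (S.sys).P2 ≠ 0 := by
      intro h
      have h1 := (S.sys).dP2
      rw [h, dL.zero, mul_zero, mul_zero, neg_zero, zero_sub] at h1
      exact hQ (neg_eq_zero.1 h1.symm)
    refine (S.sys).DK_zero hP hQ ?_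
    rintro ⟨z, hz⟩
    obtain ⟨j, -, hj⟩ := Finset.mem_image.1 hz
    change z ≠ 0
    rw [← hj]
    exact S.hne j
  · rcases isEmpty_or_nonempty ι with hι | hι
    · have h1 := S.e1
      have : (3 : PowerSeries ℂ) ≠ 0 := by
        have h3 : (3 : PowerSeries ℂ) = PowerSeries.C 3 := (map_ofNat PowerSeries.C 3).symm
        rw [h3]
        intro h
        have := congrArg (PowerSeries.coeff 0) h
        simp at this
      rw [Finset.univ_eq_empty, Finset.sum_empty] at h1
      have hK : S.K = 0 := (mul_eq_zero.1 h1.symm).resolve_left this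
      rw [hK, map_zero, dL.zero]
    · obtain ⟨j0⟩ := hι
      have hc : ∀ j, S.c j = S.c j0 := by
        intro j
        by_contra h
        apply hnt
        refine ⟨⟨S.c j, Finset.mem_image_of_mem _ (Finset.mem_univ j)⟩,
          ⟨S.c j0, Finset.mem_image_of_mem _ (Finset.mem_univ j0)⟩, ?_⟩
        intro h'
        exact h (congrArg Subtype.val h')
      have ha : ∀ j, S.al j = S.al j0 := by
        intro j
        apply iL_injective
        rw [← S.alF_eq, ← S.alF_eq, hc]
      have hb : ∀ j, S.be j = S.be j0 := by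
        intro j
        apply iL_injective
        rw [← S.beF_eq, ← S.beF_eq, hc]
      have hcard : (0 : ℝ) < (Fintype.card ι : ℝ) := by
        exact_mod_cast Fintype.card_pos_iff.2 ⟨j0⟩
      have hN : algebraMap ℂ (LS ℂ) ((Fintype.card ι : ℝ) : ℂ) = (Fintype.card ι : LS ℂ) := by
        rw [Complex.ofReal_natCast, map_natCast]
      have h1 := congrArg iL S.e1
      have h2 := congrArg iL S.e2
      simp only [ha, hb, Finset.sum_const, Finset.card_univ, nsmul_eq_mul, map_add, map_mul,
        map_ofNat, map_natCast, map_zero] at h1 h2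
      have h3 := congrArg iL (S.dal j0)
      have h4 := congrArg iL (S.dbe j0)
      simp only [map_neg, map_sub, map_mul, map_add, map_one] at h3 h4
      rw [← iL_deriv] at h2 h3 h4
      refine one_wall dL (Fintype.card ι : ℝ) hcard (iL S.K) (iL (S.al j0)) (iL (S.be j0)) ?_ h3 h4 ?_
      · rw [hN]
        exact h1
      · rw [hN]
        exact h2

end FD

end Helper772Sph
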