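import Mathlib
import Pool.Agent.Helper772_Sph.GFrame

set_option autoImplicit false

open Set Filter Topology
open scoped RealInnerProductSpace ContDiff

namespace Helper772Sph

open Helper772Chen (diffAt sm_fderiv symm2 fd_congr fd_apply fd_apply_const sm_apply sm_apply_const
  fd_inner sm_inner fd_smul)

/-- the gradient field of a function, in terms of the dual frame -/
noncomputable def grd {n : ℕ} (φ : Fin n → Dm n → Eu (n + 2)) (H : Dm n → ℝ) (x : Dm n) :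
    Eu (n + 2) := ∑ j, fderiv ℝ H x (ee j) • φ j x

/-- basic data -/
structure SB (n : ℕ) where
  U : Set (Dm n)
  hU : IsOpen U
  f : Dm n → Eu (n + 2)
  N : Dm n → Eu (n + 2)
  φ : Fin n → Dm n → Eu (n + 2)
  H : Dm n → ℝ
  sf : ContDiffOn ℝ ∞ f U
  sN : ContDiffOn ℝ ∞ N U
  sφ : ∀ i, ContDiffOn ℝ ∞ (φ i) U
  sH : ContDiffOn ℝ ∞ H U
  b1 : ∀ x ∈ U, ∀ i j, ⟪φ i x, fderiv ℝ f x (ee j)⟫ = if i = j then 1 else 0
  b2 : ∀ x ∈ U, ∀ w, (∀ j, ⟪w, fderiv ℝ f x (ee j)⟫ = 0) → ∀ i, ⟪φ i x, w⟫ = 0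
  n1 : ∀ x ∈ U, ⟪N x, N x⟫ = 1
  n2 : ∀ x ∈ U, ⟪f x, f x⟫ = 1
  n3 : ∀ x ∈ U, ⟪N x, f x⟫ = 0
  n4 : ∀ x ∈ U, ∀ j, ⟪N x, fderiv ℝ f x (ee j)⟫ = 0
  tr : ∀ x ∈ U, n * H x = -∑ i, ⟪fderiv ℝ N x (ee i), φ i x⟫
  lap : ∀ x ∈ U, ∑ i, ⟪fderiv ℝ (grd φ H) x (ee i), φ i x⟫ =
    (∑ j, ∑ l, ⟪fderiv ℝ N x (ee l), φ j x⟫ * ⟪φ l x, fderiv ℝ N x (ee j)⟫ - n) * H x
  tan : ∀ x ∈ U, ∀ i, ∑ j, ⟪φ i x, fderiv ℝ N x (ee j)⟫ * ⟪φ j x, grd φ H x⟫ =
    n * H x / 2 * ⟪φ i x, grd φ H x⟫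

namespace SB

variable {n : ℕ} (B : SB n)

theorem Nf {x : Dm n} (hx : x ∈ B.U) (v : Dm n) : ⟪B.N x, fderiv ℝ B.f x v⟫ = 0 := by
  rw [eu_sum v, map_sum, inner_sum]
  refine Finset.sum_eq_zero fun j _ => ?_
  rw [map_smul, real_inner_smul_right, B.n4 x hx j, mul_zero]

theorem ff {x : Dm n} (hx : x ∈ B.U) (v : Dm n) : ⟪B.f x, fderiv ℝ B.f x v⟫ = 0 := by
  have h1 : fderiv ℝ (fun y => ⟪B.f y, B.f y⟫) x = fderiv ℝ (fun _ => (1 : ℝ)) x :=
    fd_congr B.hU B.n2 hx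
  have h2 := fd_inner B.hU B.sf B.sf hx v
  rw [h1] at h2
  simp only [fderiv_fun_const, Pi.zero_apply, _root_.zero_apply] at h2
  rw [real_inner_comm (fderiv ℝ B.f x v)] at h2
  rw [real_inner_comm]
  have h3 := real_inner_comm (B.f x) (fderiv ℝ B.f x v)
  linarith

theorem φN {x : Dm n} (hx : x ∈ B.U) (i : Fin n) : ⟪B.φ i x, B.N x⟫ = 0 :=
  B.b2 x hx _ (fun j => B.Nf hx _) i

theorem φf {x : Dm n} (hx : x ∈ B.U) (i : Fin n) : ⟪B.φ i x, B.f x⟫ = 0 :=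
  B.b2 x hx _ (fun j => B.ff hx _) i

theorem expand {x : Dm n} (hx : x ∈ B.U) (w : Eu (n + 2)) :
    w = ∑ i, ⟪B.φ i x, w⟫ • fderiv ℝ B.f x (ee i) + ⟪B.N x, w⟫ • B.N x + ⟪B.f x, w⟫ • B.f x := by
  classical
  let v : Option (Option (Fin n)) → Eu (n + 2) := fun o =>
    o.elim (B.f x) (fun o' => o'.elim (B.N x) (fun i => fderiv ℝ B.f x (ee i)))
  have key : ∀ c : Option (Option (Fin n)) → ℝ,
      (∀ i, ⟪B.φ i x, ∑ o, c o • v o⟫ = c (some (some i))) ∧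
      ⟪B.N x, ∑ o, c o • v o⟫ = c (some none) ∧ ⟪B.f x, ∑ o, c o • v o⟫ = c none := by
    intro c
    rw [Fintype.sum_option, Fintype.sum_option]
    refine ⟨?_, ?_, ?_⟩
    · intro i
      simp only [v, Option.elim_none, Option.elim_some]
      rw [inner_add_right, inner_add_right, real_inner_smul_right, real_inner_smul_right,
        B.φN hx, B.φf hx, inner_sum]
      simp only [real_inner_smul_right, B.b1 x hx]
      simp
    · simp only [v, Option.elim_none, Option.elim_some]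
      rw [inner_add_right, inner_add_right, real_inner_smul_right, real_inner_smul_right,
        B.n1 x hx, B.n3 x hx, inner_sum]
      simp only [real_inner_smul_right, B.Nf hx]
      simp
    · simp only [v, Option.elim_none, Option.elim_some]
      rw [inner_add_right, inner_add_right, real_inner_smul_right, real_inner_smul_right,
        B.n2 x hx, real_inner_comm (B.N x) (B.f x), B.n3 x hx, inner_sum]
      simp only [real_inner_smul_right, B.ff hx]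
      simp
  have hli : LinearIndependent ℝ v := by
    rw [Fintype.linearIndependent_iff]
    intro c hc o
    obtain ⟨k1, k2, k3⟩ := key c
    rw [hc] at k1 k2 k3
    rcases o with _ | _ | i
    · rw [← k3, inner_zero_right]
    · rw [← k2, inner_zero_right]
    · rw [← k1 i, inner_zero_right]
  have hsp : Submodule.span ℝ (Set.range v) = ⊤ :=
    hli.span_eq_top_of_card_eq_finrank (by simp)
  have hw : w ∈ Submodule.span ℝ (Set.range v) := by rw [hsp]; trivial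
  obtain ⟨c, hc⟩ := (Submodule.mem_span_range_iff_exists_fun ℝ).1 hw
  obtain ⟨k1, k2, k3⟩ := key c
  rw [hc] at k1 k2 k3
  simp only [k1, k2, k3]
  rw [← hc, Fintype.sum_option, Fintype.sum_option]
  simp only [v, Option.elim_none, Option.elim_some]
  abel

theorem ext' {x : Dm n} (hx : x ∈ B.U) {w w' : Eu (n + 2)}
    (h1 : ∀ i, ⟪B.φ i x, w⟫ = ⟪B.φ i x, w'⟫)
    (h2 : ⟪B.N x, w⟫ = ⟪B.N x, w'⟫) (h3 : ⟪B.f x, w⟫ = ⟪B.f x, w'⟫) : w = w' := by
  rw [B.expand hx w, B.expand hx w']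
  simp only [h1, h2, h3]

theorem DNN {x : Dm n} (hx : x ∈ B.U) (v : Dm n) : ⟪fderiv ℝ B.N x v, B.N x⟫ = 0 := by
  have h1 : fderiv ℝ (fun y => ⟪B.N y, B.N y⟫) x = fderiv ℝ (fun _ => (1 : ℝ)) x :=
    fd_congr B.hU B.n1 hx
  have h2 := fd_inner B.hU B.sN B.sN hx v
  rw [h1] at h2
  simp only [fderiv_fun_const, Pi.zero_apply, _root_.zero_apply] at h2
  rw [real_inner_comm] at h2
  linarith

theorem DNf {x : Dm n} (hx : x ∈ B.U) (v : Dm n) : ⟪fderiv ℝ B.N x v, B.f x⟫ = 0 := by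
  have h1 : fderiv ℝ (fun y => ⟪B.N y, B.f y⟫) x = fderiv ℝ (fun _ => (0 : ℝ)) x :=
    fd_congr B.hU B.n3 hx
  have h2 := fd_inner B.hU B.sN B.sf hx v
  rw [h1, B.Nf hx] at h2
  simp only [fderiv_fun_const, Pi.zero_apply, _root_.zero_apply, zero_add] at h2
  exact h2.symm

theorem symN {x : Dm n} (hx : x ∈ B.U) (u v : Dm n) :
    ⟪fderiv ℝ B.N x u, fderiv ℝ B.f x v⟫ = -⟪B.N x, fderiv ℝ (fderiv ℝ B.f) x u v⟫ := by
  have h1 : fderiv ℝ (fun y => ⟪B.N y, fderiv ℝ B.f y v⟫) x = fderiv ℝ (fun _ => (0 : ℝ)) x :=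
    fd_congr B.hU (fun y hy => B.Nf hy v) hx
  have h2 := fd_inner B.hU B.sN (sm_apply_const B.hU B.sf v) hx u
  rw [h1, fd_apply_const B.hU B.sf hx] at h2
  simp only [fderiv_fun_const, Pi.zero_apply, _root_.zero_apply] at h2
  linarith

theorem symc {x : Dm n} (hx : x ∈ B.U) (u v : Dm n) :
    ⟪fderiv ℝ B.N x u, fderiv ℝ B.f x v⟫ = ⟪fderiv ℝ B.N x v, fderiv ℝ B.f x u⟫ := by
  rw [B.symN hx, B.symN hx, symm2 B.hU B.sf hx]

/-- gradient field -/
noncomputable def G (x : Dm n) : Eu (n + 2) := grd B.φ B.H x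

theorem sG : ContDiffOn ℝ ∞ B.G B.U := by
  change ContDiffOn ℝ ∞ (fun x => ∑ j, fderiv ℝ B.H x (ee j) • B.φ j x) B.U
  exact ContDiffOn.sum fun j _ => (sm_apply_const B.hU B.sH (ee j)).smul (B.sφ j)

theorem GN {x : Dm n} (hx : x ∈ B.U) : ⟪B.G x, B.N x⟫ = 0 := by
  rw [G, grd, sum_inner]
  refine Finset.sum_eq_zero fun j _ => ?_
  rw [real_inner_smul_left, B.φN hx, mul_zero]

theorem Gf {x : Dm n} (hx : x ∈ B.U) : ⟪B.G x, B.f x⟫ = 0 := by
  rw [G, grd, sum_inner]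
  refine Finset.sum_eq_zero fun j _ => ?_
  rw [real_inner_smul_left, B.φf hx, mul_zero]

theorem dH {x : Dm n} (hx : x ∈ B.U) (v : Dm n) :
    fderiv ℝ B.H x v = ⟪B.G x, fderiv ℝ B.f x v⟫ := by
  have key : ∀ k, fderiv ℝ B.H x (ee k) = ⟪B.G x, fderiv ℝ B.f x (ee k)⟫ := by
    intro k
    rw [G, grd, sum_inner]
    simp only [real_inner_smul_left, B.b1 x hx]
    simp
  conv_lhs => rw [eu_sum v]
  conv_rhs => rw [eu_sum v]
  rw [map_sum, map_sum, inner_sum]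
  refine Finset.sum_congr rfl fun j _ => ?_
  rw [map_smul, map_smul, real_inner_smul_right, key j, smul_eq_mul]

theorem DNG {x : Dm n} (hx : x ∈ B.U) :
    fderiv ℝ B.N x (JJ B.φ x (B.G x)) = (n * B.H x / 2) • B.G x := by
  apply B.ext' hx
  · intro i
    rw [map_JJ, inner_sum, real_inner_smul_right]
    have h := B.tan x hx i
    have e : grd B.φ B.H x = B.G x := rfl
    rw [e] at h
    rw [← h]
    refine Finset.sum_congr rfl fun j _ => ?_
    rw [real_inner_smul_right]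
    ring
  · rw [real_inner_comm, B.DNN hx, real_inner_smul_right, real_inner_comm, B.GN hx, mul_zero]
  · rw [real_inner_comm, B.DNf hx, real_inner_smul_right, real_inner_comm, B.Gf hx, mul_zero]

theorem exists_core (hn : 0 < n) {x0 : Dm n} (hx0 : x0 ∈ B.U) (hd : fderiv ℝ B.H x0 ≠ 0) :
    ∃ C : Core n, C.V.Nonempty := by
  have hn' : (0 : ℝ) < n := by exact_mod_cast hn
  set V : Set (Dm n) := B.U ∩ B.G ⁻¹' {0}ᶜ with hVdef
  have hV : IsOpen V := B.sG.continuousOn.isOpen_inter_preimage B.hU isOpen_compl_singleton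
  have hsub : V ⊆ B.U := inter_subset_left
  have hG0 : B.G x0 ≠ 0 := by
    intro h
    apply hd
    ext v
    rw [B.dH hx0, h, inner_zero_left]
    rfl
  set h : Dm n → ℝ := fun x => n * B.H x with hh
  have sh : ContDiffOn ℝ ∞ h B.U := contDiffOn_const.mul B.sH
  have dh : ∀ x ∈ B.U, ∀ v, fderiv ℝ h x v = n * ⟪B.G x, fderiv ℝ B.f x v⟫ := by
    intro x hx v
    have h1 : fderiv ℝ h x = (n : ℝ) • fderiv ℝ B.H x := by
      simp only [hh]
      exact fderiv_const_mul (diffAt B.hU B.sH hx) (n : ℝ)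
    rw [h1, _root_.smul_apply, B.dH hx, smul_eq_mul]
  set nG : Dm n → ℝ := fun x => ‖B.G x‖ with hnG
  set ρ : Dm n → ℝ := fun x => n * nG x with hρ
  set E1 : Dm n → Eu (n + 2) := fun x => (nG x)⁻¹ • B.G x with hE1
  have hnG0 : ∀ x ∈ V, nG x ≠ 0 := fun x hx => (norm_pos_iff.2 hx.2).ne'
  have snG : ContDiffOn ℝ ∞ nG V := (B.sG.mono hsub).norm ℝ fun _ hx => hx.2
  have sρ : ContDiffOn ℝ ∞ ρ V := contDiffOn_const.mul snG
  have sE : ContDiffOn ℝ ∞ E1 V := (snG.inv hnG0).smul (B.sG.mono hsub)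
  have hGE : ∀ x ∈ V, ρ x • E1 x = (n : ℝ) • B.G x := by
    intro x hx
    simp only [hE1, hρ]
    rw [smul_smul, mul_assoc, mul_inv_cancel₀ (hnG0 x hx), mul_one]
  refine ⟨⟨V, hV, B.f, B.N, E1, B.φ, h, ρ, B.sf.mono hsub, B.sN.mono hsub, sE,
    fun i => (B.sφ i).mono hsub, sh.mono hsub, sρ, fun x hx => B.n1 x (hsub hx),
    fun x hx => B.n2 x (hsub hx), fun x hx => B.n3 x (hsub hx),
    fun x hx => B.Nf (hsub hx), fun x hx => B.ff (hsub hx), fun x hx => B.b1 x (hsub hx),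
    fun x hx => B.φN (hsub hx), fun x hx => B.φf (hsub hx),
    fun x hx => B.expand (hsub hx), ?_, ?_, ?_, fun x hx => B.symc (hsub hx),
    fun x hx => B.DNN (hsub hx), fun x hx => B.DNf (hsub hx), ?_, ?_,
    fun x hx => mul_ne_zero hn'.ne' (hnG0 x hx), fun x hx => B.tr x (hsub hx), ?_⟩,
    ⟨x0, hx0, hG0⟩⟩
  · intro x hx
    have h1 := hnG0 x hx
    simp only [hE1]
    rw [real_inner_smul_left, real_inner_smul_right, real_inner_self_eq_norm_sq]
    change (nG x)⁻¹ * ((nG x)⁻¹ * nG x ^ 2) = 1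
    field_simp
  · intro x hx
    simp only [hE1]
    rw [real_inner_smul_left, B.GN (hsub hx), mul_zero]
  · intro x hx
    simp only [hE1]
    rw [real_inner_smul_left, B.Gf (hsub hx), mul_zero]
  · intro x hx
    simp only [hE1]
    rw [map_smul, map_smul, B.DNG (hsub hx), smul_comm]
  · intro x hx v
    have e : (n : ℝ) * ⟪B.G x, fderiv ℝ B.f x v⟫ = ⟪(n : ℝ) • B.G x, fderiv ℝ B.f x v⟫ := by
      rw [real_inner_smul_left]
    rw [dh x (hsub hx), e, ← hGE x hx, real_inner_smul_left]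
  · intro x hx
    rw [fd_congr hV hGE hx]
    have h1 : fderiv ℝ (fun y => (n : ℝ) • B.G y) x = (n : ℝ) • fderiv ℝ B.G x :=
      fderiv_fun_const_smul (diffAt B.hU B.sG (hsub hx)) (n : ℝ)
    have h2 := B.lap x (hsub hx)
    have e : fderiv ℝ (grd B.φ B.H) x = fderiv ℝ B.G x := rfl
    rw [e] at h2
    simp only [h1, _root_.smul_apply, real_inner_smul_left, ← Finset.mul_sum, h2, hh]
    ring

end SB

end Helper772Sph
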