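import Mathlib
import Pool.Agent.Helper772_Sph.FormalEnd

set_option autoImplicit false

open MvPolynomial Set Filter Topology

namespace Helper772Sph

section poly

variable (ι : Type) [Fintype ι]

/-- the polynomial `k` -/
noncomputable def Kr : MvPolynomial (ι ⊕ ι) ℝ := C (-(1 / 3)) * ∑ i, X (Sum.inl i)

/-- The polynomial vector field. -/
noncomputable def Fr : ι ⊕ ι → MvPolynomial (ι ⊕ ι) ℝ :=
  Sum.elim (fun i => (Kr ι - X (Sum.inl i)) * X (Sum.inr i))
    (fun i => -(X (Sum.inr i) * X (Sum.inr i)) - Kr ι * X (Sum.inl i) - 1)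

/-- The relation. -/
noncomputable def Er : MvPolynomial (ι ⊕ ι) ℝ :=
  mkDerivation ℝ (Fr ι) (Kr ι) * (∑ i, X (Sum.inr i)) +
    (∑ i, (Kr ι - X (Sum.inl i)) * (X (Sum.inr i) * X (Sum.inr i))) -
    C 3 * (Kr ι * (Kr ι * Kr ι)) - C 2 * (Kr ι * ∑ i, X (Sum.inl i) * X (Sum.inl i)) +
    (C 2 * C (Fintype.card ι : ℝ) + C 3) * Kr ι

/-- the embedding of the variables -/
abbrev Sg : Type := (ι ⊕ ι) ⊕ Fin 4

noncomputable def Kc : MvPolynomial (Sg ι) ℂ := cx (Sum.inl : ι ⊕ ι → Sg ι) (Kr ι)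

/-- The complex polynomial vector field. -/
noncomputable def Fc : Sg ι → MvPolynomial (Sg ι) ℂ :=
  Sum.elim (fun v => cx (Sum.inl : ι ⊕ ι → Sg ι) (Fr ι v))
    ![C (1 / 2) * (-(C Complex.I * Kc ι * X (Sum.inr 0)) - X (Sum.inr 2)),
      C (1 / 2) * (-(C Complex.I * Kc ι * X (Sum.inr 1)) - X (Sum.inr 3)),
      C (1 / 2) * (X (Sum.inr 0) + C Complex.I * Kc ι * X (Sum.inr 2)),
      C (1 / 2) * (X (Sum.inr 1) + C Complex.I * Kc ι * X (Sum.inr 3))]

/-- initial values -/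
noncomputable def y0 (x0 : ι ⊕ ι → ℝ) : Sg ι → ℂ :=
  Sum.elim (fun v => (x0 v : ℂ)) ![1, 0, 0, 1]

end poly

section data

variable {ι : Type} [Fintype ι] (x0 : ι ⊕ ι → ℝ)
  (hE : ∀ n, eval x0 ((mkDerivation ℝ (Fr ι))^[n] (Er ι)) = 0)
  (hne : ∀ j, ¬(x0 (Sum.inl j) = 0 ∧ x0 (Sum.inr j) = 0))

theorem half_mul (f g : PowerSeries ℂ) (h : f = PowerSeries.C (1 / 2 : ℂ) * g) : 2 * f = g := by
  rw [h, ← mul_assoc, FD.half2, one_mul]

theorem II : PowerSeries.C Complex.I * PowerSeries.C Complex.I = -1 := by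
  rw [← map_mul, Complex.I_mul_I, map_neg, map_one]

/-- the Taylor homomorphism at `x0` -/
noncomputable def T0 : MvPolynomial (Sg ι) ℂ →+* PowerSeries ℂ := TT (Fc ι) (y0 ι x0)

noncomputable def aa (j : ι) : PowerSeries ℂ := T0 x0 (X (Sum.inl (Sum.inl j)))
noncomputable def bb (j : ι) : PowerSeries ℂ := T0 x0 (X (Sum.inl (Sum.inr j)))
noncomputable def kk : PowerSeries ℂ := T0 x0 (Kc ι)

theorem T0_C (c : ℂ) : T0 x0 (C c) = PowerSeries.C c := TT_C _ _ c

theorem kk_eq : 3 * kk x0 = -∑ j, aa x0 j := by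
  unfold kk Kc Kr aa
  rw [map_mul, cx_C, map_sum, map_mul, map_sum, T0_C]
  simp only [cx_X]
  have h : (3 : PowerSeries ℂ) = PowerSeries.C 3 := (map_ofNat PowerSeries.C 3).symm
  rw [h, ← mul_assoc, ← map_mul]
  have h2 : (3 : ℂ) * ((-(1 / 3) : ℝ) : ℂ) = -1 := by
    push_cast
    ring
  rw [h2, map_neg, map_one]
  ring

theorem d_aa (j : ι) : PowerSeries.derivative ℂ (aa x0 j) = (kk x0 - aa x0 j) * bb x0 j := by
  unfold aa bb kk T0
  rw [TT_X]
  change TT (Fc ι) (y0 ι x0) (cx (Sum.inl : ι ⊕ ι → Sg ι)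
    ((Kr ι - X (Sum.inl j)) * X (Sum.inr j))) = _
  rw [map_mul, map_sub, cx_X, cx_X, map_mul, map_sub]
  rfl

theorem d_bb (j : ι) : PowerSeries.derivative ℂ (bb x0 j) =
    -(bb x0 j * bb x0 j) - kk x0 * aa x0 j - 1 := by
  unfold aa bb kk T0
  rw [TT_X]
  change TT (Fc ι) (y0 ι x0) (cx (Sum.inl : ι ⊕ ι → Sg ι)
    (-(X (Sum.inr j) * X (Sum.inr j)) - Kr ι * X (Sum.inl j) - 1)) = _
  simp only [map_sub, map_neg, map_mul, cx_X, map_one]
  rfl

theorem T0_two : T0 x0 (C (2 : ℂ)) = 2 := by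
  rw [T0_C, map_ofNat]

include hE in
theorem rel : PowerSeries.derivative ℂ (kk x0) * (∑ i, bb x0 i) +
    (∑ i, (kk x0 - aa x0 i) * (bb x0 i * bb x0 i)) - 3 * (kk x0 * (kk x0 * kk x0)) -
    2 * (kk x0 * ∑ i, aa x0 i * aa x0 i) + (2 * (Fintype.card ι : PowerSeries ℂ) + 3) * kk x0
    = 0 := by
  have h1 := TT_cx_zero (Fr ι) (Fc ι) (Sum.inl : ι ⊕ ι → Sg ι) (fun v => rfl) (y0 ι x0) x0
    (fun v => rfl) (Er ι) hE
  have h2 : TT (Fc ι) (y0 ι x0) (cx (Sum.inl : ι ⊕ ι → Sg ι)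
      (mkDerivation ℝ (Fr ι) (Kr ι))) = PowerSeries.derivative ℂ (kk x0) := by
    rw [cx_deriv (Fr ι) (Fc ι) Sum.inl (fun v => rfl)]
    unfold kk T0
    rw [TT_deriv]
    rfl
  unfold Er at h1
  simp only [map_add, map_sub, map_mul, map_sum, cx_C, cx_X, h2, Complex.ofReal_ofNat,
    Complex.ofReal_natCast] at h1
  have h3 : TT (Fc ι) (y0 ι x0) (C 3) = 3 := by rw [TT_C, map_ofNat]
  have h4 : TT (Fc ι) (y0 ι x0) (C 2) = 2 := by rw [TT_C, map_ofNat]
  have h5 : TT (Fc ι) (y0 ι x0) (C (Fintype.card ι : ℂ)) = (Fintype.card ι : PowerSeries ℂ) := by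
    rw [TT_C, map_natCast]
  rw [h3, h4, h5] at h1
  exact h1

theorem c0_aa (j : ι) : PowerSeries.coeff 0 (aa x0 j) = (x0 (Sum.inl j) : ℂ) := by
  unfold aa T0
  rw [TT_zero_coeff, eval_X]
  rfl

theorem c0_bb (j : ι) : PowerSeries.coeff 0 (bb x0 j) = (x0 (Sum.inr j) : ℂ) := by
  unfold bb T0
  rw [TT_zero_coeff, eval_X]
  rfl

/-- the formal data at a point of the real solution -/
noncomputable def mkFD : FD ι where
  K := PowerSeries.C Complex.I * kk x0
  P1 := T0 x0 (X (Sum.inr 0))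
  P2 := T0 x0 (X (Sum.inr 1))
  Q1 := T0 x0 (X (Sum.inr 2))
  Q2 := T0 x0 (X (Sum.inr 3))
  al := fun j => -(PowerSeries.C Complex.I * aa x0 j)
  be := fun j => bb x0 j
  dP1 := by
    apply half_mul
    unfold T0
    rw [TT_X]
    change TT (Fc ι) (y0 ι x0)
      (C (1 / 2) * (-(C Complex.I * Kc ι * X (Sum.inr 0)) - X (Sum.inr 2))) = _
    simp only [map_mul, map_sub, map_neg, TT_C]
    rfl
  dP2 := by
    apply half_mul
    unfold T0
    rw [TT_X]
    change TT (Fc ι) (y0 ι x0)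
      (C (1 / 2) * (-(C Complex.I * Kc ι * X (Sum.inr 1)) - X (Sum.inr 3))) = _
    simp only [map_mul, map_sub, map_neg, TT_C]
    rfl
  dQ1 := by
    apply half_mul
    unfold T0
    rw [TT_X]
    change TT (Fc ι) (y0 ι x0)
      (C (1 / 2) * (X (Sum.inr 0) + C Complex.I * Kc ι * X (Sum.inr 2))) = _
    simp only [map_mul, map_add, TT_C]
    rfl
  dQ2 := by
    apply half_mul
    unfold T0
    rw [TT_X]
    change TT (Fc ι) (y0 ι x0)
      (C (1 / 2) * (X (Sum.inr 1) + C Complex.I * Kc ι * X (Sum.inr 3))) = _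
    simp only [map_mul, map_add, TT_C]
    rfl
  dal := fun j => by
    rw [map_neg, Derivation.leibniz, PowerSeries.derivative_C, smul_eq_mul, smul_eq_mul, mul_zero,
      add_zero, d_aa]
    ring
  dbe := fun j => by
    rw [d_bb]
    linear_combination (-(kk x0 * aa x0 j)) * II
  e1 := by
    rw [Finset.sum_neg_distrib, ← Finset.mul_sum]
    linear_combination (-PowerSeries.C Complex.I) * kk_eq x0
  e2 := by
    have h := rel x0 hE
    have s1 : ∑ j, (PowerSeries.C Complex.I * kk x0 + -(PowerSeries.C Complex.I * aa x0 j)) *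
        (bb x0 j * bb x0 j) = PowerSeries.C Complex.I *
        ∑ i, (kk x0 - aa x0 i) * (bb x0 i * bb x0 i) := by
      rw [Finset.mul_sum]
      refine Finset.sum_congr rfl fun j _ => ?_
      ring
    have s2 : ∑ j, -(PowerSeries.C Complex.I * aa x0 j) * -(PowerSeries.C Complex.I * aa x0 j) =
        -∑ i, aa x0 i * aa x0 i := by
      rw [← Finset.sum_neg_distrib]
      refine Finset.sum_congr rfl fun j _ => ?_
      linear_combination (aa x0 j * aa x0 j) * II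
    rw [s1, s2, Derivation.leibniz, PowerSeries.derivative_C, smul_eq_mul, smul_eq_mul, mul_zero,
      add_zero]
    linear_combination (PowerSeries.C Complex.I) * h +
      (3 * PowerSeries.C Complex.I * (kk x0 * (kk x0 * kk x0))) * II
  P10 := by
    unfold T0
    rw [TT_zero_coeff, eval_X]
    rfl
  P20 := by
    unfold T0
    rw [TT_zero_coeff, eval_X]
    rfl
  Q10 := by
    unfold T0
    rw [TT_zero_coeff, eval_X]
    rfl
  Q20 := by
    unfold T0
    rw [TT_zero_coeff, eval_X]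
    rfl
  hconj := fun j => by
    rw [map_neg, FD.coeff0_mul, FD.coeff0_C, c0_aa, c0_bb]
    simp
  hne := fun j => by
    rw [map_neg, FD.coeff0_mul, FD.coeff0_C, c0_aa, c0_bb]
    intro h
    apply hne j
    have h1 := congrArg Complex.re h
    have h2 := congrArg Complex.im h
    simp at h1 h2
    exact ⟨h2, h1⟩

include hE hne in
theorem deriv_zero : eval x0 (mkDerivation ℝ (Fr ι) (Kr ι)) = 0 := by
  have h := (mkFD x0 hE hne).main
  have h1 : PowerSeries.derivative ℂ (PowerSeries.C Complex.I * kk x0) = 0 := h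
  rw [Derivation.leibniz, PowerSeries.derivative_C, smul_eq_mul, smul_eq_mul, mul_zero,
    add_zero] at h1
  have h2 := congrArg (PowerSeries.coeff 0) h1
  rw [FD.coeff0_mul, FD.coeff0_C, map_zero] at h2
  have h3 := (mul_eq_zero.1 h2).resolve_left Complex.I_ne_zero
  unfold kk T0 Kc at h3
  rw [TT_deriv, ← cx_deriv (Fr ι) (Fc ι) Sum.inl (fun v => rfl), TT_zero_coeff,
    cx_eval Sum.inl (y0 ι x0) x0 (fun v => rfl)] at h3
  exact_mod_cast h3

end data

section ode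

variable {ι : Type} [Fintype ι]

theorem ode_base {r : ℝ} (hr : 0 < r) (a b : ι → ℝ → ℝ) (k m : ℝ → ℝ)
    (ha : ∀ i, ∀ t ∈ Ioo (-r) r, HasDerivAt (a i) ((k t - a i t) * b i t) t)
    (hb : ∀ i, ∀ t ∈ Ioo (-r) r, HasDerivAt (b i) (-(b i t) ^ 2 - k t * a i t - 1) t)
    (hs : ∀ t ∈ Ioo (-r) r, ∑ i, a i t = -3 * k t)
    (hk : ∀ t ∈ Ioo (-r) r, HasDerivAt k (m t) t)
    (hm : ∀ t ∈ Ioo (-r) r,
      HasDerivAt m (k t * (k t ^ 2 + ∑ i, a i t ^ 2 - (Fintype.card ι + 1)) -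
        m t * ∑ i, b i t) t)
    (hne : ∀ j, ¬(a j 0 = 0 ∧ b j 0 = 0)) : m 0 = 0 := by
  let y : ℝ → (ι ⊕ ι → ℝ) := fun t => Sum.elim (fun i => a i t) (fun i => b i t)
  have eK : ∀ y : ι ⊕ ι → ℝ, eval y (Kr ι) = -(1 / 3) * ∑ i, y (Sum.inl i) := by
    intro y
    simp [Kr, map_sum]
  have eFl : ∀ (y : ι ⊕ ι → ℝ) i, eval y (Fr ι (Sum.inl i)) =
      (eval y (Kr ι) - y (Sum.inl i)) * y (Sum.inr i) := by
    intro y i
    simp [Fr]
  have eFr : ∀ (y : ι ⊕ ι → ℝ) i, eval y (Fr ι (Sum.inr i)) =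
      -(y (Sum.inr i)) ^ 2 - eval y (Kr ι) * y (Sum.inl i) - 1 := by
    intro y i
    simp only [Fr, Sum.elim_inr, map_sub, map_neg, map_mul, eval_X, map_one]
    ring
  have hyK : ∀ t ∈ Ioo (-r) r, eval (y t) (Kr ι) = k t := by
    intro t ht
    rw [eK]
    simp only [y, Sum.elim_inl]
    rw [hs t ht]
    ring
  have hy : ∀ t ∈ Ioo (-r) r, ∀ v, HasDerivAt (fun s => y s v) (eval (y t) (Fr ι v)) t := by
    intro t ht v
    rcases v with i | i
    · rw [eFl, hyK t ht]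
      exact ha i t ht
    · rw [eFr, hyK t ht]
      exact hb i t ht
  have hnhds : ∀ t ∈ Ioo (-r) r, Ioo (-r) r ∈ 𝓝 t := fun t ht => Ioo_mem_nhds ht.1 ht.2
  have hyM : ∀ t ∈ Ioo (-r) r, eval (y t) (mkDerivation ℝ (Fr ι) (Kr ι)) = m t := by
    intro t ht
    have h1 := Helper772Chen.hasDerivAt_eval (Fr ι) y 1 t (fun v => by simpa using hy t ht v) (Kr ι)
    have h2 : HasDerivAt (fun s => eval (y s) (Kr ι)) (m t) t := by
      refine (hk t ht).congr_of_eventuallyEq ?_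
      filter_upwards [hnhds t ht] with s hs' using hyK s hs'
    have := h1.unique h2
    rw [one_mul] at this
    exact this
  have hm' : ∀ t ∈ Ioo (-r) r, -3 * m t = ∑ i, (k t - a i t) * b i t := by
    intro t ht
    have h1 : HasDerivAt (fun s => ∑ i, a i s) (∑ i, (k t - a i t) * b i t) t :=
      HasDerivAt.fun_sum fun i _ => ha i t ht
    have h2 : HasDerivAt (fun s => ∑ i, a i s) (-3 * m t) t := by
      refine ((hk t ht).const_mul (-3)).congr_of_eventuallyEq ?_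
      filter_upwards [hnhds t ht] with s hs' using hs s hs'
    exact h2.unique h1
  have hyR : ∀ t ∈ Ioo (-r) r, eval (y t) (Er ι) = 0 := by
    intro t ht
    have h1 : HasDerivAt (fun s => ∑ i, (k s - a i s) * b i s)
        (∑ i, ((m t - (k t - a i t) * b i t) * b i t + (k t - a i t) *
          (-(b i t) ^ 2 - k t * a i t - 1))) t :=
      HasDerivAt.fun_sum fun i _ => ((hk t ht).sub (ha i t ht)).mul (hb i t ht)
    have h2 : HasDerivAt (fun s => ∑ i, (k s - a i s) * b i s) (-3 *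
        (k t * (k t ^ 2 + ∑ i, a i t ^ 2 - (Fintype.card ι + 1)) - m t * ∑ i, b i t)) t := by
      refine ((hm t ht).const_mul (-3)).congr_of_eventuallyEq ?_
      filter_upwards [hnhds t ht] with s hs' using (hm' s hs').symm
    have h3 := h1.unique h2
    have h4 : ∑ i, ((m t - (k t - a i t) * b i t) * b i t + (k t - a i t) *
          (-(b i t) ^ 2 - k t * a i t - 1)) = m t * ∑ i, b i t -
        2 * ∑ i, (k t - a i t) * (b i t * b i t) - k t * (k t * ∑ i, a i t) +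
        k t * ∑ i, a i t * a i t - Fintype.card ι * k t + ∑ i, a i t := by
      have e5 : (Fintype.card ι : ℝ) * k t = ∑ _i : ι, k t := by
        rw [Finset.sum_const, Finset.card_univ, nsmul_eq_mul]
      rw [e5]
      simp only [Finset.mul_sum, ← Finset.sum_sub_distrib, ← Finset.sum_add_distrib]
      refine Finset.sum_congr rfl fun i _ => ?_
      ring
    rw [h4, hs t ht] at h3
    have e : eval (y t) (Er ι) = m t * (∑ i, b i t) + (∑ i, (k t - a i t) * (b i t * b i t)) -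
        3 * (k t * (k t * k t)) - 2 * (k t * ∑ i, a i t * a i t) +
        (2 * (Fintype.card ι : ℝ) + 3) * k t := by
      unfold Er
      simp only [map_add, map_sub, map_mul, map_sum, eval_C, eval_X, hyM t ht, hyK t ht]
      rfl
    rw [e]
    have e6 : ∑ i, a i t ^ 2 = ∑ i, a i t * a i t :=
      Finset.sum_congr rfl fun i _ => by ring
    rw [e6] at h3
    linarith
  have h0 : (0 : ℝ) ∈ Ioo (-r) r := ⟨by linarith, hr⟩
  have hj : ∀ j : ℕ, eval (y 0) ((mkDerivation ℝ (Fr ι))^[j] (Er ι)) = 0 := fun j =>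
    Helper772Chen.iterate_eval_zero (Fr ι) y (-r) r hy (Er ι) hyR j 0 h0
  have := deriv_zero (y 0) hj hne
  rw [hyM 0 h0] at this
  exact this

/-- The ODE theorem for hypersurfaces of spheres. -/
theorem ode_sph {r : ℝ} (hr : 0 < r) (a b : ι → ℝ → ℝ) (k m : ℝ → ℝ)
    (ha : ∀ i, ∀ t ∈ Ioo (-r) r, HasDerivAt (a i) ((k t - a i t) * b i t) t)
    (hb : ∀ i, ∀ t ∈ Ioo (-r) r, HasDerivAt (b i) (-(b i t) ^ 2 - k t * a i t - 1) t)
    (hs : ∀ t ∈ Ioo (-r) r, ∑ i, a i t = -3 * k t)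
    (hk : ∀ t ∈ Ioo (-r) r, HasDerivAt k (m t) t)
    (hm : ∀ t ∈ Ioo (-r) r,
      HasDerivAt m (k t * (k t ^ 2 + ∑ i, a i t ^ 2 - (Fintype.card ι + 1)) -
        m t * ∑ i, b i t) t) : m 0 = 0 := by
  by_contra hm0
  have h0 : (0 : ℝ) ∈ Ioo (-r) r := ⟨by linarith, hr⟩
  have ev1 : ∀ᶠ t in 𝓝[≠] (0 : ℝ), m t ≠ 0 :=
    ((hm 0 h0).continuousAt.eventually_ne hm0).filter_mono nhdsWithin_le_nhds
  have ev2 : ∀ᶠ t in 𝓝[≠] (0 : ℝ), t ∈ Ioo (-r) r :=
    (Ioo_mem_nhds h0.1 h0.2 : Ioo (-r) r ∈ 𝓝 (0 : ℝ)) |> fun h => nhdsWithin_le_nhds h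
  have ev3 : ∀ᶠ t in 𝓝[≠] (0 : ℝ), ∀ j, ¬(a j t = 0 ∧ b j t = 0) := by
    rw [Filter.eventually_all]
    intro j
    by_cases h1 : a j 0 = 0
    · by_cases h2 : b j 0 = 0
      · have h3 := hb j 0 h0
        rw [h1, h2] at h3
        have h4 := h3.eventually_ne (c := 0) (by norm_num)
        filter_upwards [h4] with t ht hc using ht hc.2
      · have h4 := ((hb j 0 h0).continuousAt.eventually_ne h2).filter_mono
          (nhdsWithin_le_nhds (s := {0}ᶜ))
        filter_upwards [h4] with t ht hc using ht hc.2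
    · have h4 := ((ha j 0 h0).continuousAt.eventually_ne h1).filter_mono
        (nhdsWithin_le_nhds (s := {0}ᶜ))
      filter_upwards [h4] with t ht hc using ht hc.1
  obtain ⟨t0, h1, h2, h3⟩ := (ev1.and (ev2.and ev3)).exists
  have ht0 : |t0| < r := abs_lt.2 h2
  have hsub : ∀ t ∈ Ioo (-(r - |t0|)) (r - |t0|), t0 + t ∈ Ioo (-r) r := by
    intro t ht
    have h4 := neg_abs_le t0
    have h5 := le_abs_self t0
    exact ⟨by linarith [ht.1], by linarith [ht.2]⟩
  have sh : ∀ (f : ℝ → ℝ) (f' t : ℝ), HasDerivAt f f' (t0 + t) →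
      HasDerivAt (fun s => f (t0 + s)) f' t := by
    intro f f' t h
    exact h.comp_const_add t0 t
  have key := ode_base (r := r - |t0|) (by linarith) (fun i t => a i (t0 + t))
    (fun i t => b i (t0 + t)) (fun t => k (t0 + t)) (fun t => m (t0 + t))
    (fun i t ht => sh _ _ t (ha i _ (hsub t ht))) (fun i t ht => sh _ _ t (hb i _ (hsub t ht)))
    (fun t ht => hs _ (hsub t ht)) (fun t ht => sh _ _ t (hk _ (hsub t ht)))
    (fun t ht => sh _ _ t (hm _ (hsub t ht))) (by simpa using h3)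
  simp only [add_zero] at key
  exact h1 key

end ode

end Helper772Sph
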