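import Mathlib
import Pool.Agent.Helper772_Sph.GCurve

set_option autoImplicit false

open Set Filter Topology
open scoped RealInnerProductSpace ContDiff

namespace Helper772Sph

open Helper772Chen (diffAt sm_fderiv symm2 fd_congr fd_apply fd_apply_const sm_apply sm_apply_const
  fd_inner sm_inner fd_smul gronwall_zero exists_joint_basis)

namespace Core

variable {n : ℕ} (C : Core n)

/-- the orthogonal complement of `E₁, ξ` -/
def W0 (x : Dm n) : Submodule ℝ (Eu (n + 2)) where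
  carrier := {w | C.W x w}
  add_mem' := by
    intro a b ha hb
    exact ⟨by rw [inner_add_right, ha.1, hb.1, add_zero],
      by rw [inner_add_right, ha.2.1, hb.2.1, add_zero],
      by rw [inner_add_right, ha.2.2, hb.2.2, add_zero]⟩
  zero_mem' := ⟨inner_zero_right _, inner_zero_right _, inner_zero_right _⟩
  smul_mem' := by
    intro k a ha
    exact ⟨by rw [real_inner_smul_right, ha.1, mul_zero],
      by rw [real_inner_smul_right, ha.2.1, mul_zero],
      by rw [real_inner_smul_right, ha.2.2, mul_zero]⟩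

theorem mem_W0 {x : Dm n} {w : Eu (n + 2)} : w ∈ C.W0 x ↔ C.W x w := Iff.rfl

/-- restriction of `A` -/
noncomputable def A0 {x : Dm n} (hx : x ∈ C.V) : C.W0 x →ₗ[ℝ] C.W0 x :=
  (C.A x).toLinearMap.restrict fun _ hw => C.A_W hx hw

/-- restriction of `B` -/
noncomputable def B0 {x : Dm n} (hx : x ∈ C.V) : C.W0 x →ₗ[ℝ] C.W0 x :=
  (C.B x).toLinearMap.restrict fun _ hw => C.B_W hx hw

theorem A0_coe {x : Dm n} (hx : x ∈ C.V) (w : C.W0 x) :
    ((C.A0 hx w : C.W0 x) : Eu (n + 2)) = C.A x w := rfl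

theorem B0_coe {x : Dm n} (hx : x ∈ C.V) (w : C.W0 x) :
    ((C.B0 hx w : C.W0 x) : Eu (n + 2)) = C.B x w := rfl

theorem A0_symm {x : Dm n} (hx : x ∈ C.V) : (C.A0 hx).IsSymmetric := by
  intro u v
  exact C.A_symm hx u v

theorem B0_symm {x : Dm n} (hx : x ∈ C.V) : (C.B0 hx).IsSymmetric := by
  intro u v
  exact C.B_symm hx u.2 v.2

theorem comm {x : Dm n} (hx : x ∈ C.V) {w : Eu (n + 2)} (hw : C.W x w) :
    C.A x (C.B x w) = C.B x (C.A x w) := by
  have key : ∀ w', C.W x w' → ⟪C.A x (C.B x w), w'⟫ = ⟪C.B x (C.A x w), w'⟫ := by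
    intro w' hw'
    have sA1 : ContDiffOn ℝ ∞ (fun y => C.A y w) C.V := C.sA.clm_apply contDiffOn_const
    have sA2 : ContDiffOn ℝ ∞ (fun y => C.A y w') C.V := C.sA.clm_apply contDiffOn_const
    have h1 : fderiv ℝ (fun y => ⟪C.A y w, w'⟫) x = fderiv ℝ (fun y => ⟪w, C.A y w'⟫) x :=
      fd_congr C.hV (fun y hy => C.A_symm hy w w') hx
    have h2 := fd_inner C.hV sA1 (contDiffOn_const (c := w')) hx (C.e1 x)
    have h3 := fd_inner C.hV (contDiffOn_const (c := w)) sA2 hx (C.e1 x)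
    rw [h1, h3, C.DA hx hw, C.DA hx hw'] at h2
    simp only [fderiv_fun_const, Pi.zero_apply, _root_.zero_apply, inner_zero_right,
      inner_zero_left, add_zero, zero_add, inner_sub_left, inner_sub_right,
      real_inner_smul_left, real_inner_smul_right] at h2
    rw [C.B_symm hx hw hw'] at h2
    have h4 : ⟪w, C.A x (C.B x w')⟫ = ⟪C.B x (C.A x w), w'⟫ := by
      rw [← C.A_symm hx, C.B_symm hx (C.A_W hx hw) hw']
    rw [← h4]
    linarith
  have hz : C.W x (C.A x (C.B x w) - C.B x (C.A x w)) :=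
    (C.W0 x).sub_mem (C.A_W hx (C.B_W hx hw)) (C.B_W hx (C.A_W hx hw))
  have h5 : ⟪C.A x (C.B x w) - C.B x (C.A x w), C.A x (C.B x w) - C.B x (C.A x w)⟫ = 0 := by
    rw [inner_sub_left, key _ hz, sub_self]
  exact sub_eq_zero.1 (inner_self_eq_zero.1 h5)

theorem commute0 {x : Dm n} (hx : x ∈ C.V) : Commute (C.A0 hx) (C.B0 hx) := by
  refine LinearMap.ext fun w => Subtype.ext ?_
  exact C.comm hx w.2

section curve

variable {C}
variable {c : ℝ → Dm n} {r : ℝ}
  (hc : ∀ t ∈ Ioo (-r) r, c t ∈ C.V ∧ HasDerivAt c (C.e1 (c t)) t)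

include hc in
/-- the frame expansion along the curve -/
theorem frame {d : ℕ} (b : OrthonormalBasis (Fin d) ℝ (C.W0 (c 0))) {t : ℝ}
    (ht : t ∈ Ioo (-r) r) (y : Eu (n + 2)) :
    y = ⟪C.ξ (c t), y⟫ • C.ξ (c t) + ⟪C.E1 (c t), y⟫ • C.E1 (c t) +
      ⟪C.f (c t), y⟫ • C.f (c t) +
      ∑ i, ⟪(b i : Eu (n + 2)), y⟫ • (b i : Eu (n + 2)) := by
  have hr : 0 < r := by have := ht.1; have := ht.2; linarith
  have h0 : (0 : ℝ) ∈ Ioo (-r) r := ⟨by linarith, hr⟩
  have hx0 := (hc 0 h0).1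
  have hsub : ∀ s ∈ Icc (-|t|) |t|, s ∈ Ioo (-r) r := by
    intro s hs
    have := abs_lt.2 ht
    exact ⟨by linarith [hs.1], by linarith [hs.2]⟩
  have key := gronwall_zero (v := fun s => ⟪C.ξ (c s), y⟫ • C.ξ (c s) +
      ⟪C.E1 (c s), y⟫ • C.E1 (c s) + ⟪C.f (c s), y⟫ • C.f (c s) +
      ∑ i, ⟪(b i : Eu (n + 2)), y⟫ • (b i : Eu (n + 2)) - y)
    (v' := fun _ => 0) (C := 0) (a := -|t|) (b := |t|) (by simp) (abs_nonneg t)
    (fun s hs => by
      have hs' := hsub s hs
      have hx := (hc s hs').1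
      have h1 := along hc C.sE hs'
      have h2 := along hc C.sξ hs'
      have h0' := along hc C.sf hs'
      rw [C.F4 hx] at h1
      rw [C.ha hx] at h2
      rw [C.hb hx] at h0'
      have h3 := h1.inner ℝ (hasDerivAt_const s y)
      have h4 := h2.inner ℝ (hasDerivAt_const s y)
      have h4' := h0'.inner ℝ (hasDerivAt_const s y)
      have h5 := ((((h4.smul h2).add (h3.smul h1)).add (h4'.smul h0')).add_const
        (∑ i, ⟪(b i : Eu (n + 2)), y⟫ • (b i : Eu (n + 2)))).sub_const y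
      refine h5.congr_deriv ?_
      simp only [inner_zero_right, zero_add, real_inner_smul_left, inner_sub_left]
      module)
    (by
      have hy : C.W (c 0) (y - ⟪C.ξ (c 0), y⟫ • C.ξ (c 0) - ⟪C.E1 (c 0), y⟫ • C.E1 (c 0) -
          ⟪C.f (c 0), y⟫ • C.f (c 0)) := by
        refine ⟨?_, ?_, ?_⟩
        · rw [inner_sub_right, inner_sub_right, inner_sub_right, real_inner_smul_right,
            real_inner_smul_right, real_inner_smul_right,
            C.s6' _ hx0, C.s6 _ hx0, C.t6 _ hx0]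
          ring
        · rw [inner_sub_right, inner_sub_right, inner_sub_right, real_inner_smul_right,
            real_inner_smul_right, real_inner_smul_right,
            real_inner_comm (C.E1 (c 0)) (C.ξ (c 0)), C.s6' _ hx0, C.s1 _ hx0, C.t2 _ hx0]
          ring
        · rw [inner_sub_right, inner_sub_right, inner_sub_right, real_inner_smul_right,
            real_inner_smul_right, real_inner_smul_right,
            real_inner_comm (C.E1 (c 0)) (C.f (c 0)), C.t6 _ hx0,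
            real_inner_comm (C.ξ (c 0)) (C.f (c 0)), C.t2 _ hx0, C.t1 _ hx0]
          ring
      have h1 := b.sum_repr' ⟨_, hy⟩
      have h2 := congrArg (fun z : C.W0 (c 0) => (z : Eu (n + 2))) h1
      simp only [Submodule.coe_sum, Submodule.coe_smul, Submodule.coe_inner] at h2
      have h3 : ∀ i, ⟪(b i : Eu (n + 2)),
          y - ⟪C.ξ (c 0), y⟫ • C.ξ (c 0) - ⟪C.E1 (c 0), y⟫ • C.E1 (c 0) -
          ⟪C.f (c 0), y⟫ • C.f (c 0)⟫ =
          ⟪(b i : Eu (n + 2)), y⟫ := by
        intro i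
        have hb : C.W (c 0) (b i : Eu (n + 2)) := (b i).2
        rw [inner_sub_right, inner_sub_right, inner_sub_right, real_inner_smul_right,
          real_inner_smul_right, real_inner_smul_right,
          real_inner_comm (C.E1 (c 0)), hb.1, real_inner_comm (C.ξ (c 0)), hb.2.1,
          real_inner_comm (C.f (c 0)), hb.2.2]
        ring
      simp only [h3] at h2
      rw [h2]
      module)
    (fun s _ => by simp) t ⟨neg_abs_le t, le_abs_self t⟩
  exact (sub_eq_zero.1 key).symm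

include hc in
/-- traces in the adapted frame -/
theorem trace_frame {d : ℕ} (b : OrthonormalBasis (Fin d) ℝ (C.W0 (c 0))) {t : ℝ}
    (ht : t ∈ Ioo (-r) r) (P : Dm n →L[ℝ] Eu (n + 2)) :
    ∑ j, ⟪P (ee j), C.φ j (c t)⟫ = ⟪P (C.e1 (c t)), C.E1 (c t)⟫ +
      ∑ i, ⟪P (JJ C.φ (c t) (b i : Eu (n + 2))), (b i : Eu (n + 2))⟫ := by
  have hx := (hc t ht).1
  have h1 : ∀ j, ⟪P (ee j), C.φ j (c t)⟫ =
      ⟪C.φ j (c t), C.E1 (c t)⟫ * ⟪P (ee j), C.E1 (c t)⟫ +
      ∑ i, ⟪C.φ j (c t), (b i : Eu (n + 2))⟫ * ⟪P (ee j), (b i : Eu (n + 2))⟫ := by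
    intro j
    conv_lhs => arg 3; rw [frame hc b ht (C.φ j (c t))]
    rw [inner_add_right, inner_add_right, inner_add_right, real_inner_smul_right,
      real_inner_smul_right, real_inner_smul_right,
      real_inner_comm (C.φ j (c t)) (C.ξ (c t)), C.s4 _ hx,
      real_inner_comm (C.φ j (c t)) (C.f (c t)), C.t4 _ hx, inner_sum,
      real_inner_comm (C.φ j (c t)) (C.E1 (c t))]
    simp only [real_inner_smul_right, zero_mul, zero_add, add_zero]
    congr 1
    refine Finset.sum_congr rfl fun i _ => ?_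
    rw [real_inner_comm (C.φ j (c t))]
  simp only [h1, Finset.sum_add_distrib]
  congr 1
  · rw [e1, map_JJ, sum_inner]
    refine Finset.sum_congr rfl fun j _ => ?_
    rw [real_inner_smul_left]
  · rw [Finset.sum_comm]
    refine Finset.sum_congr rfl fun i _ => ?_
    rw [map_JJ, sum_inner]
    refine Finset.sum_congr rfl fun j _ => ?_
    rw [real_inner_smul_left]

end curve

/-- There is no nonempty core. -/
theorem false_of_nonempty (hne : C.V.Nonempty) : False := by
  obtain ⟨x0, hx0⟩ := hne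
  obtain ⟨c, hc0, r, hr, hc⟩ := C.exists_curve hx0
  have h0 : (0 : ℝ) ∈ Ioo (-r) r := ⟨by linarith, hr⟩
  have hx0' : c 0 ∈ C.V := (hc 0 h0).1
  obtain ⟨b, q, p, hqp⟩ := exists_joint_basis (C.A0 hx0') (C.B0 hx0') (C.A0_symm hx0')
    (C.B0_symm hx0') (C.commute0 hx0') rfl
  set w : Fin (Module.finrank ℝ (C.W0 (c 0))) → Eu (n + 2) := fun i => (b i : Eu (n + 2)) with hw
  have hW : ∀ i, C.W (c 0) (w i) := fun i => (b i).2
  have hn : ∀ i, ⟪w i, w i⟫ = 1 := by
    intro i
    have := b.orthonormal.1 i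
    have h2 : ‖w i‖ = 1 := this
    rw [real_inner_self_eq_norm_sq, h2]
    norm_num
  have hq : ∀ i, C.A (c 0) (w i) = q i • w i := fun i =>
    congrArg (fun z : C.W0 (c 0) => (z : Eu (n + 2))) (hqp i).1
  have hp : ∀ i, C.B (c 0) (w i) = p i • w i := fun i =>
    congrArg (fun z : C.W0 (c 0) => (z : Eu (n + 2))) (hqp i).2
  have hWt : ∀ i, ∀ t ∈ Ioo (-r) r, C.W (c t) (w i) := fun i t ht => W_along hc (hW i) ht
  have heig : ∀ i, ∀ t ∈ Ioo (-r) r, C.A (c t) (w i) = ⟪C.A (c t) (w i), w i⟫ • w i ∧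
      C.B (c t) (w i) = ⟪C.B (c t) (w i), w i⟫ • w i := fun i t ht =>
    eigen hc (hW i) (hn i) (hq i) (hp i) ht
  set a : Fin (Module.finrank ℝ (C.W0 (c 0))) → ℝ → ℝ := fun i t => ⟪C.A (c t) (w i), w i⟫ with ha
  set β : Fin (Module.finrank ℝ (C.W0 (c 0))) → ℝ → ℝ := fun i t => ⟪C.B (c t) (w i), w i⟫ with hβ
  have hdim : (Module.finrank ℝ (C.W0 (c 0)) : ℝ) + 1 = n := by
    have h1 := trace_frame hc b h0 (fderiv ℝ C.f (c 0))
    have h2 : ∀ j, ⟪fderiv ℝ C.f (c 0) (ee j), C.φ j (c 0)⟫ = 1 := by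
      intro j
      rw [real_inner_comm, C.s3 _ hx0']
      simp
    have h3 : ∀ i, ⟪fderiv ℝ C.f (c 0) (JJ C.φ (c 0) (b i : Eu (n + 2))), (b i : Eu (n + 2))⟫ =
        1 := by
      intro i
      have : ⟪(b i : Eu (n + 2)), (b i : Eu (n + 2))⟫ = 1 := hn i
      rw [C.df_JW hx0' (b i).2, this]
    simp only [h2, h3] at h1
    rw [C.hb hx0', C.s6 _ hx0'] at h1
    simp only [Finset.sum_const, Finset.card_univ, Fintype.card_fin, nsmul_eq_mul, mul_one] at h1
    linarith
  have hkey := ode_sph (ι := Fin (Module.finrank ℝ (C.W0 (c 0)))) hr a β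
    (fun t => -(C.h (c t) / 2)) (fun t => -(C.ρ (c t) / 2)) ?_ ?_ ?_ ?_ ?_
  · have h1 := C.s8' _ hx0'
    apply h1
    linarith
  · intro i t ht
    have hx := (hc t ht).1
    have sAw : ContDiffOn ℝ ∞ (fun y => C.A y (w i)) C.V := C.sA.clm_apply contDiffOn_const
    have h1 := along hc sAw ht
    rw [C.DA hx (hWt i t ht)] at h1
    have h2 := h1.inner ℝ (hasDerivAt_const t (w i))
    refine h2.congr_deriv ?_
    obtain ⟨e1, e2⟩ := heig i t ht
    simp only [ha, hβ]
    rw [inner_zero_right, zero_add, inner_sub_left, real_inner_smul_left]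
    have h3 : ⟪C.A (c t) (C.B (c t) (w i)), w i⟫ =
        ⟪C.B (c t) (w i), w i⟫ * ⟪C.A (c t) (w i), w i⟫ := by
      conv_lhs => rw [e2]
      rw [map_smul, real_inner_smul_left]
    rw [h3]
    ring
  · intro i t ht
    have hx := (hc t ht).1
    have sBw : ContDiffOn ℝ ∞ (fun y => C.B y (w i)) C.V := C.sB.clm_apply contDiffOn_const
    have h1 := along hc sBw ht
    rw [C.DB hx (hWt i t ht)] at h1
    have h2 := h1.inner ℝ (hasDerivAt_const t (w i))
    refine h2.congr_deriv ?_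
    obtain ⟨e1, e2⟩ := heig i t ht
    simp only [ha, hβ]
    rw [inner_zero_right, zero_add, inner_sub_left, inner_sub_left, real_inner_smul_left, hn i]
    have h3 : ⟪C.B (c t) (C.B (c t) (w i)), w i⟫ =
        ⟪C.B (c t) (w i), w i⟫ * ⟪C.B (c t) (w i), w i⟫ := by
      conv_lhs => rw [e2]
      rw [map_smul, real_inner_smul_left]
    rw [h3]
    ring
  · intro t ht
    have hx := (hc t ht).1
    have h1 := C.s9 _ hx
    rw [trace_frame hc b ht, C.ha hx, real_inner_smul_left, C.s6 _ hx] at h1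
    have h2 : ∀ i, ⟪fderiv ℝ C.ξ (c t) (JJ C.φ (c t) (b i : Eu (n + 2))), (b i : Eu (n + 2))⟫ =
        -a i t := by
      intro i
      simp only [ha, hw, A_apply, inner_neg_left, neg_neg]
    simp only [h2, Finset.sum_neg_distrib] at h1
    linarith
  · intro t ht
    have hx := (hc t ht).1
    have h1 := along hc C.sh ht
    rw [C.dhe hx] at h1
    exact (h1.div_const 2).neg
  · intro t ht
    have hx := (hc t ht).1
    have h1 := along hc C.sρ ht
    have h2 := (h1.div_const 2).neg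
    refine h2.congr_deriv ?_
    have h3 := C.s10 _ hx
    rw [trace_frame hc b ht] at h3
    have hDE : ∀ v, fderiv ℝ (fun y => C.ρ y • C.E1 y) (c t) v =
        C.ρ (c t) • fderiv ℝ C.E1 (c t) v + fderiv ℝ C.ρ (c t) v • C.E1 (c t) := fun v =>
      fd_smul C.hV C.sρ C.sE hx v
    have h4 : ⟪fderiv ℝ (fun y => C.ρ y • C.E1 y) (c t) (C.e1 (c t)), C.E1 (c t)⟫ =
        fderiv ℝ C.ρ (c t) (C.e1 (c t)) := by
      rw [hDE, inner_add_left, real_inner_smul_left, real_inner_smul_left, C.DEE hx, C.s6 _ hx]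
      ring
    have h5 : ∀ i, ⟪fderiv ℝ (fun y => C.ρ y • C.E1 y) (c t)
        (JJ C.φ (c t) (b i : Eu (n + 2))), (b i : Eu (n + 2))⟫ = C.ρ (c t) * β i t := by
      intro i
      have hwi : ⟪C.E1 (c t), (b i : Eu (n + 2))⟫ = 0 := (hWt i t ht).1
      rw [hDE, inner_add_left, real_inner_smul_left, real_inner_smul_left, hwi]
      simp only [hβ, hw, B_apply]
      ring
    have h6 : ∑ j, ∑ l, ⟪fderiv ℝ C.ξ (c t) (ee l), C.φ j (c t)⟫ *
        ⟪C.φ l (c t), fderiv ℝ C.ξ (c t) (ee j)⟫ =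
        ∑ j, ⟪((fderiv ℝ C.ξ (c t)).comp ((JJ C.φ (c t)).comp (fderiv ℝ C.ξ (c t)))) (ee j),
          C.φ j (c t)⟫ := by
      refine Finset.sum_congr rfl fun j _ => ?_
      rw [ContinuousLinearMap.comp_apply, ContinuousLinearMap.comp_apply, map_JJ, sum_inner]
      refine Finset.sum_congr rfl fun l _ => ?_
      rw [real_inner_smul_left]
      ring
    have h7 : ⟪((fderiv ℝ C.ξ (c t)).comp ((JJ C.φ (c t)).comp (fderiv ℝ C.ξ (c t))))
        (C.e1 (c t)), C.E1 (c t)⟫ = (C.h (c t) / 2) ^ 2 := by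
      rw [ContinuousLinearMap.comp_apply, ContinuousLinearMap.comp_apply, C.ha hx, map_smul,
        map_smul]
      have h8 : fderiv ℝ C.ξ (c t) (JJ C.φ (c t) (C.E1 (c t))) = (C.h (c t) / 2) • C.E1 (c t) :=
        C.ha hx
      rw [h8, real_inner_smul_left, real_inner_smul_left, C.s6 _ hx]
      ring
    have h9 : ∀ i, ⟪((fderiv ℝ C.ξ (c t)).comp ((JJ C.φ (c t)).comp (fderiv ℝ C.ξ (c t))))
        (JJ C.φ (c t) (b i : Eu (n + 2))), (b i : Eu (n + 2))⟫ = a i t ^ 2 := by
      intro i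
      obtain ⟨e1, e2⟩ := heig i t ht
      have e3 : fderiv ℝ C.ξ (c t) (JJ C.φ (c t) (b i : Eu (n + 2))) =
          -(a i t • (b i : Eu (n + 2))) := by
        have : C.A (c t) (w i) = a i t • w i := e1
        rw [A_apply] at this
        rw [← neg_neg (fderiv ℝ C.ξ (c t) (JJ C.φ (c t) (b i : Eu (n + 2))))]
        exact congrArg Neg.neg this
      rw [ContinuousLinearMap.comp_apply, ContinuousLinearMap.comp_apply, e3, map_neg, map_neg,
        map_smul, map_smul, e3, inner_neg_left, real_inner_smul_left, inner_neg_left,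
        real_inner_smul_left]
      have : ⟪(b i : Eu (n + 2)), (b i : Eu (n + 2))⟫ = 1 := hn i
      rw [this]
      ring
    rw [h4, h6, trace_frame hc b ht, h7] at h3
    simp only [h5, h9, ← Finset.mul_sum] at h3
    have h10 : fderiv ℝ C.ρ (c t) (C.e1 (c t)) = C.h (c t) * ((C.h (c t) / 2) ^ 2 +
        ∑ i, a i t ^ 2 - n) - C.ρ (c t) * ∑ i, β i t := by linarith
    rw [h10, Fintype.card_fin, hdim]
    ring

end Core

end Helper772Sph
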