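import Mathlib
import Pool.Agent.Helper772_Sph.GBase
import Pool.Agent.Helper772_Chen.Geo1

set_option autoImplicit false

open Set Filter Topology Matrix
open scoped RealInnerProductSpace ContDiff

namespace Helper772Sph

open Helper772Chen (diffAt sm_fderiv symm2 fd_congr fd_apply fd_apply_const sm_apply sm_apply_const
  fd_inner sm_inner fd_smul hasFDerivAt_det sm_det sm_inv inv_entry)

theorem exists_SB (m : ℕ) (U : Set (Fin m → ℝ))
      (f N : (Fin m → ℝ) → EuclideanSpace ℝ (Fin (m + 2)))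
      (hm : 0 < m) (hU : IsOpen U)
      (sf : ContDiffOn ℝ ((⊤ : ℕ∞) : WithTop ℕ∞) f U)
      (sN : ContDiffOn ℝ ((⊤ : ℕ∞) : WithTop ℕ∞) N U)
      (hgeo : ∀ x ∈ U, ‖f x‖ = 1 ∧ ‖N x‖ = 1 ∧ inner ℝ (N x) (f x) = 0 ∧
        (∀ i : Fin m, inner ℝ (N x) (fderiv ℝ f x (Pi.single i (1 : ℝ))) = 0) ∧
        LinearIndependent ℝ (fun i : Fin m => fderiv ℝ f x (Pi.single i (1 : ℝ))))
      (g S : (Fin m → ℝ) → Matrix (Fin m) (Fin m) ℝ) (H : (Fin m → ℝ) → ℝ)
      (hg : ∀ x, g x = Matrix.of (fun i j : Fin m =>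
          inner ℝ (fderiv ℝ f x (Pi.single i (1 : ℝ))) (fderiv ℝ f x (Pi.single j (1 : ℝ)))))
      (hS : ∀ x, S x = (g x)⁻¹ * Matrix.of (fun i j : Fin m =>
          inner ℝ (fderiv ℝ (fun y => fderiv ℝ f y (Pi.single i (1 : ℝ))) x
            (Pi.single j (1 : ℝ))) (N x)))
      (hH : ∀ x, H x = Matrix.trace (S x) / (m : ℝ))
      (hΔ : ∀ x ∈ U,
        (1 / Real.sqrt (g x).det) *
            ∑ i : Fin m, fderiv ℝ (fun y => Real.sqrt (g y).det *
              ∑ j : Fin m, (g y)⁻¹ i j * fderiv ℝ H y (Pi.single j (1 : ℝ))) x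
                (Pi.single i (1 : ℝ))
          + ((m : ℝ) - Matrix.trace (S x * S x)) * H x = 0)
      (htan : ∀ x ∈ U,
        (2 : ℝ) • (S x).mulVec ((g x)⁻¹.mulVec (fun j : Fin m =>
          fderiv ℝ H x (Pi.single j (1 : ℝ))))
          + ((m : ℝ) * H x) • (g x)⁻¹.mulVec (fun j : Fin m =>
            fderiv ℝ H x (Pi.single j (1 : ℝ))) = 0) :
      ∃ B : SB m, B.U = U ∧ B.H = H := by
  classical
  have hm' : (0 : ℝ) < m := by exact_mod_cast hm
  have hg' : ∀ x i j, g x i j = ⟪fderiv ℝ f x (ee i), fderiv ℝ f x (ee j)⟫ := by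
    intro x i j
    rw [hg]
    rfl
  have sD : ∀ j, ContDiffOn ℝ ∞ (fun y => fderiv ℝ f y (ee j)) U := fun j =>
    sm_apply_const hU sf _
  have sg : ∀ i j, ContDiffOn ℝ ∞ (fun y => g y i j) U := by
    intro i j
    simp only [hg']
    exact sm_inner (sD i) (sD j)
  have hdet : ∀ x ∈ U, 0 < (g x).det := by
    intro x hx
    have h1 : g x = Matrix.gram ℝ (fun i => fderiv ℝ f x (ee i)) := by
      ext i j
      rw [Matrix.gram_apply, hg']
    rw [h1]
    exact Matrix.PosDef.det_pos (Matrix.posDef_gram_of_linearIndependent (hgeo x hx).2.2.2.2)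
  have hdet0 : ∀ x ∈ U, (g x).det ≠ 0 := fun x hx => (hdet x hx).ne'
  have sdet := sm_det sg
  have sinv := sm_inv sg hdet0
  have ssq : ContDiffOn ℝ ∞ (fun y => Real.sqrt (g y).det) U := sdet.sqrt hdet0
  have hsq : ∀ x ∈ U, 0 < Real.sqrt (g x).det := fun x hx => Real.sqrt_pos.2 (hdet x hx)
  set φ : Fin m → Dm m → Eu (m + 2) := fun i y => ∑ j, (g y)⁻¹ i j • fderiv ℝ f y (ee j) with hφ
  have sφ : ∀ i, ContDiffOn ℝ ∞ (φ i) U := by
    intro i
    exact ContDiffOn.sum fun j _ => (sinv i j).smul (sD j)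
  have b1 : ∀ x ∈ U, ∀ i j, ⟪φ i x, fderiv ℝ f x (ee j)⟫ = if i = j then 1 else 0 := by
    intro x hx i k
    have h1 : ((g x)⁻¹ * g x) i k = if i = k then 1 else 0 := by
      rw [Matrix.nonsing_inv_mul _ (isUnit_iff_ne_zero.2 (hdet0 x hx)), Matrix.one_apply]
    rw [← h1, Matrix.mul_apply, hφ, sum_inner]
    refine Finset.sum_congr rfl fun j _ => ?_
    rw [real_inner_smul_left, hg']
  have hφw : ∀ x w i, ⟪φ i x, w⟫ = ∑ j, (g x)⁻¹ i j * ⟪fderiv ℝ f x (ee j), w⟫ := by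
    intro x w i
    rw [hφ, sum_inner]
    refine Finset.sum_congr rfl fun j _ => ?_
    rw [real_inner_smul_left]
  have b2 : ∀ x ∈ U, ∀ w, (∀ j, ⟪w, fderiv ℝ f x (ee j)⟫ = 0) → ∀ i, ⟪φ i x, w⟫ = 0 := by
    intro x hx w hw i
    rw [hφw]
    refine Finset.sum_eq_zero fun j _ => ?_
    rw [real_inner_comm, hw j, mul_zero]
  have hginv : ∀ x ∈ U, ∀ i j, ⟪φ i x, φ j x⟫ = (g x)⁻¹ j i := by
    intro x hx i j
    have h1 : ⟪φ i x, φ j x⟫ = ∑ k, (g x)⁻¹ j k * ⟪φ i x, fderiv ℝ f x (ee k)⟫ := by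
      rw [real_inner_comm, hφw]
      refine Finset.sum_congr rfl fun k _ => ?_
      rw [real_inner_comm]
    rw [h1]
    simp only [b1 x hx, mul_ite, mul_one, mul_zero, Finset.sum_ite_eq, Finset.mem_univ, if_true]
  have hginv' : ∀ x ∈ U, ∀ i j, ⟪φ i x, φ j x⟫ = (g x)⁻¹ i j := by
    intro x hx i j
    rw [real_inner_comm, hginv x hx]
  -- derivative of the square root of the determinant
  have hdsq : ∀ x ∈ U, ∀ k, fderiv ℝ (fun y => Real.sqrt (g y).det) x (ee k) =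
      Real.sqrt (g x).det * ∑ i, ⟪φ i x, fderiv ℝ (fderiv ℝ f) x (ee i) (ee k)⟫ := by
    intro x hx k
    have h1 : fderiv ℝ (fun y => (g y).det) x (ee k) =
        (g x).det * (2 * ∑ i, ⟪φ i x, fderiv ℝ (fderiv ℝ f) x (ee i) (ee k)⟫) := by
      rw [hasFDerivAt_det g (fun i j => diffAt hU (sg i j) hx)]
      have h2 : ∀ i j, fderiv ℝ (fun y => g y i j) x (ee k) =
          ⟪fderiv ℝ f x (ee i), fderiv ℝ (fderiv ℝ f) x (ee j) (ee k)⟫ +
          ⟪fderiv ℝ (fderiv ℝ f) x (ee i) (ee k), fderiv ℝ f x (ee j)⟫ := by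
        intro i j
        simp only [hg']
        rw [fd_inner hU (sD i) (sD j) hx, fd_apply_const hU sf hx, fd_apply_const hU sf hx,
          symm2 hU sf hx (ee k) (ee j), symm2 hU sf hx (ee k) (ee i)]
      have h3 : ∀ i j, (g x).adjugate j i = (g x).det * (g x)⁻¹ j i := by
        intro i j
        rw [inv_entry, ← mul_assoc, mul_inv_cancel₀ (hdet0 x hx), one_mul]
      have h4 : ∑ i, ∑ j, (g x)⁻¹ j i * ⟪fderiv ℝ f x (ee i),
          fderiv ℝ (fderiv ℝ f) x (ee j) (ee k)⟫ =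
          ∑ i, ⟪φ i x, fderiv ℝ (fderiv ℝ f) x (ee i) (ee k)⟫ := by
        rw [Finset.sum_comm]
        refine Finset.sum_congr rfl fun j _ => ?_
        rw [hφw]
      have h5 : ∑ i, ∑ j, (g x)⁻¹ j i * ⟪fderiv ℝ (fderiv ℝ f) x (ee i) (ee k),
          fderiv ℝ f x (ee j)⟫ =
          ∑ i, ⟪φ i x, fderiv ℝ (fderiv ℝ f) x (ee i) (ee k)⟫ := by
        refine Finset.sum_congr rfl fun i _ => ?_
        rw [hφw]
        refine Finset.sum_congr rfl fun j _ => ?_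
        rw [← hginv x hx, hginv' x hx, real_inner_comm]
      calc ∑ i, ∑ j, (g x).adjugate j i * fderiv ℝ (fun y => g y i j) x (ee k)
          = ∑ i, ∑ j, ((g x).det * ((g x)⁻¹ j i * ⟪fderiv ℝ f x (ee i),
              fderiv ℝ (fderiv ℝ f) x (ee j) (ee k)⟫) +
              (g x).det * ((g x)⁻¹ j i * ⟪fderiv ℝ (fderiv ℝ f) x (ee i) (ee k),
              fderiv ℝ f x (ee j)⟫)) := by
            refine Finset.sum_congr rfl fun i _ => Finset.sum_congr rfl fun j _ => ?_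
            rw [h2, h3]
            ring
        _ = (g x).det * ∑ i, ∑ j, (g x)⁻¹ j i * ⟪fderiv ℝ f x (ee i),
              fderiv ℝ (fderiv ℝ f) x (ee j) (ee k)⟫ +
            (g x).det * ∑ i, ∑ j, (g x)⁻¹ j i * ⟪fderiv ℝ (fderiv ℝ f) x (ee i) (ee k),
              fderiv ℝ f x (ee j)⟫ := by
            simp only [Finset.sum_add_distrib, Finset.mul_sum]
        _ = _ := by
            rw [h4, h5]
            ring
    have h2 := ((diffAt hU sdet hx).hasFDerivAt.sqrt (hdet0 x hx)).fderiv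
    rw [h2, _root_.smul_apply, h1, smul_eq_mul]
    have h5 : ∀ S : ℝ, 1 / (2 * Real.sqrt (g x).det) *
        ((Real.sqrt (g x).det * Real.sqrt (g x).det) * (2 * S)) = Real.sqrt (g x).det * S := by
      intro S
      have h3 := hsq x hx
      field_simp
    have h4 : (g x).det = Real.sqrt (g x).det * Real.sqrt (g x).det :=
      (Real.mul_self_sqrt (hdet x hx).le).symm
    rw [← h5, ← h4]
  -- the normal
  have n1 : ∀ x ∈ U, ⟪N x, N x⟫ = 1 := by
    intro x hx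
    rw [real_inner_self_eq_norm_sq, (hgeo x hx).2.1]
    norm_num
  have n2 : ∀ x ∈ U, ⟪f x, f x⟫ = 1 := by
    intro x hx
    rw [real_inner_self_eq_norm_sq, (hgeo x hx).1]
    norm_num
  have n3 : ∀ x ∈ U, ⟪N x, f x⟫ = 0 := fun x hx => (hgeo x hx).2.2.1
  have n4 : ∀ x ∈ U, ∀ j, ⟪N x, fderiv ℝ f x (ee j)⟫ = 0 := fun x hx => (hgeo x hx).2.2.2.1
  have symN : ∀ x ∈ U, ∀ u j, ⟪fderiv ℝ N x u, fderiv ℝ f x (ee j)⟫ =
      -⟪N x, fderiv ℝ (fderiv ℝ f) x u (ee j)⟫ := by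
    intro x hx u j
    have h1 : fderiv ℝ (fun y => ⟪N y, fderiv ℝ f y (ee j)⟫) x = fderiv ℝ (fun _ => (0 : ℝ)) x :=
      fd_congr hU (fun y hy => n4 y hy j) hx
    have h2 := fd_inner hU sN (sm_apply_const hU sf (ee j)) hx u
    rw [h1, fd_apply_const hU sf hx] at h2
    simp only [fderiv_fun_const, Pi.zero_apply, _root_.zero_apply] at h2
    linarith
  -- the shape operator
  have hSe : ∀ x ∈ U, ∀ i j, S x i j = -⟪φ i x, fderiv ℝ N x (ee j)⟫ := by
    intro x hx i j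
    rw [hS, Matrix.mul_apply, hφw, ← Finset.sum_neg_distrib]
    refine Finset.sum_congr rfl fun l _ => ?_
    have h1 : fderiv ℝ (fun y => fderiv ℝ f y (ee l)) x (ee j) =
        fderiv ℝ (fderiv ℝ f) x (ee j) (ee l) := fd_apply_const hU sf hx _ _
    have h2 : (Matrix.of (fun i j : Fin m =>
          inner ℝ (fderiv ℝ (fun y => fderiv ℝ f y (Pi.single i (1 : ℝ))) x
            (Pi.single j (1 : ℝ))) (N x))) l j =
        ⟪fderiv ℝ (fun y => fderiv ℝ f y (ee l)) x (ee j), N x⟫ := rfl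
    rw [h2, h1, real_inner_comm (fderiv ℝ N x (ee j)), symN x hx, real_inner_comm (N x)]
    ring
  have htr : ∀ x ∈ U, m * H x = -∑ i, ⟪fderiv ℝ N x (ee i), φ i x⟫ := by
    intro x hx
    rw [hH, mul_div_cancel₀ _ hm'.ne', Matrix.trace, ← Finset.sum_neg_distrib]
    refine Finset.sum_congr rfl fun i _ => ?_
    rw [Matrix.diag_apply, hSe x hx, real_inner_comm]
  have sH : ContDiffOn ℝ ∞ H U := by
    have h1 : ContDiffOn ℝ ∞ (fun x => -(∑ i, ⟪fderiv ℝ N x (ee i), φ i x⟫) / (m : ℝ)) U :=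
      ((ContDiffOn.sum fun i _ => sm_inner (sm_apply_const hU sN (ee i)) (sφ i)).neg).div_const _
    refine h1.congr fun x hx => ?_
    rw [← htr x hx, mul_div_assoc, mul_comm, div_mul_cancel₀ _ hm'.ne']
  -- the gradient
  set G : Dm m → Eu (m + 2) := grd φ H with hG
  have sG : ContDiffOn ℝ ∞ G U := by
    change ContDiffOn ℝ ∞ (fun x => ∑ j, fderiv ℝ H x (ee j) • φ j x) U
    exact ContDiffOn.sum fun j _ => (sm_apply_const hU sH (ee j)).smul (sφ j)
  have hX : ∀ x ∈ U, ∀ i, ⟪φ i x, G x⟫ = ∑ j, (g x)⁻¹ i j * fderiv ℝ H x (ee j) := by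
    intro x hx i
    rw [hG, grd, inner_sum]
    refine Finset.sum_congr rfl fun j _ => ?_
    rw [real_inner_smul_right, hginv' x hx, mul_comm]
  have φexp : ∀ x ∈ U, ∀ i, ∑ j, ⟪φ i x, φ j x⟫ • fderiv ℝ f x (ee j) = φ i x := by
    intro x hx i
    have : φ i x = ∑ j, (g x)⁻¹ i j • fderiv ℝ f x (ee j) := rfl
    rw [this]
    refine Finset.sum_congr rfl fun j _ => ?_
    rw [← this, hginv' x hx]
  have hGexp : ∀ x ∈ U, G x = ∑ k, ⟪φ k x, G x⟫ • fderiv ℝ f x (ee k) := by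
    intro x hx
    have e1 : ∀ k, ⟪φ k x, G x⟫ • fderiv ℝ f x (ee k) =
        ∑ j, fderiv ℝ H x (ee j) • (⟪φ j x, φ k x⟫ • fderiv ℝ f x (ee k)) := by
      intro k
      rw [hG, grd, inner_sum, Finset.sum_smul]
      refine Finset.sum_congr rfl fun j _ => ?_
      rw [real_inner_smul_right, smul_smul, real_inner_comm]
    simp only [e1]
    rw [Finset.sum_comm]
    simp only [← Finset.smul_sum, φexp x hx]
    rfl
  refine ⟨⟨U, hU, f, N, φ, H, sf, sN, sφ, sH, b1, b2, n1, n2, n3, n4, htr, ?_, ?_⟩, rfl, rfl⟩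
  · intro x hx
    change ∑ i, ⟪fderiv ℝ G x (ee i), φ i x⟫ = (∑ j, ∑ l, ⟪fderiv ℝ N x (ee l), φ j x⟫ *
      ⟪φ l x, fderiv ℝ N x (ee j)⟫ - m) * H x
    have sX : ∀ k, ContDiffOn ℝ ∞ (fun y => ⟪φ k y, G y⟫) U := fun k => sm_inner (sφ k) sG
    -- divergence of `G`
    have d1 : ∀ i, ⟪fderiv ℝ G x (ee i), φ i x⟫ = fderiv ℝ (fun y => ⟪φ i y, G y⟫) x (ee i) +
        ∑ k, ⟪φ k x, G x⟫ * ⟪φ i x, fderiv ℝ (fderiv ℝ f) x (ee i) (ee k)⟫ := by
      intro i
      have h1 : fderiv ℝ G x = fderiv ℝ (fun y => ∑ k, ⟪φ k y, G y⟫ • fderiv ℝ f y (ee k)) x :=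
        fd_congr hU hGexp hx
      rw [h1, fderiv_fun_sum (A := fun k y => ⟪φ k y, G y⟫ • fderiv ℝ f y (ee k))
        (fun k _ => diffAt hU ((sX k).smul (sD k)) hx), _root_.sum_apply, sum_inner]
      have h2 : ∀ k, ⟪fderiv ℝ (fun y => ⟪φ k y, G y⟫ • fderiv ℝ f y (ee k)) x (ee i), φ i x⟫ =
          ⟪φ k x, G x⟫ * ⟪φ i x, fderiv ℝ (fderiv ℝ f) x (ee i) (ee k)⟫ +
          fderiv ℝ (fun y => ⟪φ k y, G y⟫) x (ee i) * (if i = k then 1 else 0) := by
        intro k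
        rw [fd_smul hU (sX k) (sD k) hx, inner_add_left, real_inner_smul_left,
          real_inner_smul_left, fd_apply_const hU sf hx,
          real_inner_comm (φ i x) (fderiv ℝ f x (ee k)), b1 x hx,
          real_inner_comm (φ i x)]
      simp only [h2, Finset.sum_add_distrib, mul_ite, mul_one, mul_zero, Finset.sum_ite_eq,
        Finset.mem_univ, if_true]
      ring
    have d2 : ∀ i, fderiv ℝ (fun y => Real.sqrt (g y).det *
        ∑ j : Fin m, (g y)⁻¹ i j * fderiv ℝ H y (Pi.single j (1 : ℝ))) x (Pi.single i (1 : ℝ)) =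
        Real.sqrt (g x).det * fderiv ℝ (fun y => ⟪φ i y, G y⟫) x (ee i) +
        fderiv ℝ (fun y => Real.sqrt (g y).det) x (ee i) * ⟪φ i x, G x⟫ := by
      intro i
      have h1 : fderiv ℝ (fun y => Real.sqrt (g y).det *
          ∑ j : Fin m, (g y)⁻¹ i j * fderiv ℝ H y (Pi.single j (1 : ℝ))) x =
          fderiv ℝ (fun y => Real.sqrt (g y).det * ⟪φ i y, G y⟫) x :=
        fd_congr hU (fun y hy => by rw [hX y hy]; rfl) hx
      rw [h1, fderiv_fun_mul (diffAt hU ssq hx) (diffAt hU (sX i) hx)]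
      simp only [_root_.add_apply, _root_.smul_apply, smul_eq_mul]
      rw [mul_comm (⟪φ i x, G x⟫)]
      rfl
    have h3 := hΔ x hx
    simp only [d2, hdsq x hx, Finset.sum_add_distrib] at h3
    simp only [d1, Finset.sum_add_distrib]
    have h4 : ∑ i, Real.sqrt (g x).det * (∑ k, ⟪φ k x, fderiv ℝ (fderiv ℝ f) x (ee k) (ee i)⟫) *
        ⟪φ i x, G x⟫ = Real.sqrt (g x).det * ∑ i, ∑ k, ⟪φ k x, G x⟫ *
          ⟪φ i x, fderiv ℝ (fderiv ℝ f) x (ee i) (ee k)⟫ := by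
      rw [Finset.sum_comm, Finset.mul_sum]
      refine Finset.sum_congr rfl fun k _ => ?_
      rw [Finset.mul_sum, Finset.mul_sum, Finset.sum_mul]
      refine Finset.sum_congr rfl fun i _ => ?_
      ring
    rw [h4, ← Finset.mul_sum, ← mul_add, ← mul_assoc, one_div, inv_mul_cancel₀ (hsq x hx).ne',
      one_mul] at h3
    have h5 : Matrix.trace (S x * S x) =
        ∑ j, ∑ l, ⟪fderiv ℝ N x (ee l), φ j x⟫ * ⟪φ l x, fderiv ℝ N x (ee j)⟫ := by
      rw [Matrix.trace]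
      refine Finset.sum_congr rfl fun j _ => ?_
      rw [Matrix.diag_apply, Matrix.mul_apply]
      refine Finset.sum_congr rfl fun l _ => ?_
      rw [hSe x hx, hSe x hx, real_inner_comm (φ j x)]
      ring
    rw [h5] at h3
    linarith
  · intro x hx i
    change ∑ j, ⟪φ i x, fderiv ℝ N x (ee j)⟫ * ⟪φ j x, G x⟫ = m * H x / 2 * ⟪φ i x, G x⟫
    have h1 := congrFun (htan x hx) i
    have h2 : ((g x)⁻¹.mulVec (fun j : Fin m => fderiv ℝ H x (Pi.single j (1 : ℝ)))) =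
        fun i => ⟪φ i x, G x⟫ := by
      funext i
      rw [hX x hx]
      rfl
    rw [h2] at h1
    simp only [Pi.add_apply, Pi.smul_apply, smul_eq_mul, Pi.zero_apply] at h1
    have h3 : (S x).mulVec (fun i => ⟪φ i x, G x⟫) i =
        -∑ j, ⟪φ i x, fderiv ℝ N x (ee j)⟫ * ⟪φ j x, G x⟫ := by
      rw [← Finset.sum_neg_distrib]
      change ∑ j, S x i j * ⟪φ j x, G x⟫ = _
      refine Finset.sum_congr rfl fun j _ => ?_
      rw [hSe x hx]
      ring
    rw [h3] at h1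
    linarith

end Helper772Sph
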